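import Pool.Agent.Y995.FS.LowG

/-!
Project PK: trials for properties of a path which also depend on the configuration near the path
(adaptation of `Pool.Agent.Y995.FS.LowG`).
-/

set_option autoImplicit false

namespace Pool.Agent.J4H99.PK

open H974 Finset H342P H984P H984N Pool.Agent.Y995.FS

/-- A property of a configuration and a path which is inherited by longer paths, invariant under
congruences, and local. -/
structure FGood (m : ℕ) (g : Set Edg → (ℕ → Vtx) → ℕ → Prop) : Prop where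
  congr : ∀ (F : Set Edg) (x x' : ℕ → Vtx) (t : ℕ), (∀ s ≤ t, x s = x' s) → g F x t → g F x' t
  mono : ∀ (F : Set Edg) (x : ℕ → Vtx) (s0 t' t : ℕ), s0 + t' ≤ t →
    g F (fun s => x (s + s0)) t' → g F x t
  rot : ∀ (F : Finset Edg) (x : ℕ → Vtx) (t : ℕ),
    g (↑(rM F) : Set Edg) (fun s => rV (x s)) t → g (↑F : Set Edg) x t
  trl : ∀ (F : Finset Edg) (x : ℕ → Vtx) (t : ℕ) (b c : ℤ),
    g (↑((trl b c).mp F) : Set Edg) (fun s => ((x s).1 + b, (x s).2 + c)) t →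
      g (↑F : Set Edg) x t
  loc : ∀ (F G : Set Edg) (x : ℕ → Vtx) (t : ℕ), (∀ s ≤ t, ∀ e ∈ RE ((x s).1 - 48 * m)
    ((x s).1 + 48 * m) ((x s).2 - 48 * m) ((x s).2 + 48 * m), (e ∈ F ↔ e ∈ G)) →
      g F x t → g G x t

/-- A successful trial makes the strand good. -/
def DetH (Q : TEv) (m K : ℕ) (g : Set Edg → (ℕ → Vtx) → ℕ → Prop) : Prop :=
  ∀ (F : Set Edg) (A y0 Y : ℤ) (T j : ℕ) (Yj : ℤ) (Tj : ℕ),
    Strand F A y0 (A + 121 * m * K) Y T → 1 ≤ j → j < K →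
    Strand F A y0 (A + 121 * m * j) Yj Tj → Tj ≤ T → Q A y0 (A + 121 * m * j) Yj Tj F →
    g F (fun s => (orb F (st0 A y0) s).1) T

theorem lowH : ∃ C : ℝ, 0 < C ∧ ∀ (m' : ℕ) (Q : TEv) (g : Set Edg → (ℕ → Vtx) → ℕ → Prop),
    FGood m' g → ∀ (n m K : ℕ) (δ : ℝ) (R : ℤ), 5 ≤ m → 1 ≤ K →
    δ ≤ 1 → LocQ m Q → DetH Q m K g → AllQ n m Q δ → 121 * m * K + m + 2 ≤ R →
    Pr (fun _ => (1/2:ℝ)) (RE 0 n 0 n) (fun F => ∃ (σ : St) (t : ℕ),
      inR (3 * R + 60 * m) (n - 3 * R - 60 * m) (3 * R + 60 * m) (n - 3 * R - 60 * m) σ.1 ∧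
      Far σ.1 R (orb (↑F) σ t).1 ∧ ¬ g ↑F (fun s => (orb (↑F) σ s).1) t) ≤
      C * ((n:ℝ) / m + 1) ^ 2 * (1 - δ) ^ (K - 1) := by
  obtain ⟨C, hC, hcount⟩ := strand_count_sum
  refine ⟨8 * C, by positivity, ?_⟩
  intro m' Q g hg n m K δ R hm hK hδ1 hQ hdet hok hR
  have hm1 : 1 ≤ m := by omega
  have hw : 0 ≤ (1 - δ) ^ (K - 1) := pow_nonneg (by linarith) _
  have hR1 : 1 ≤ R := by
    have : (0:ℤ) ≤ 121 * m * K := by positivity
    omega
  have h := LS_four (n := n) (B := 2 * C * ((n:ℝ) / m + 1) ^ 2 * (1 - δ) ^ (K - 1)) (R := R)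
    (E := fun b c F => ∃ i ∈ Finset.range (n / m + 2), ∃ y0 ∈ Finset.Icc c (c + n),
      RE ((b + i * m) - 60 * m) ((b + i * m) + 121 * m * K + 60 * m) (y0 - 2 * R - 60 * m)
        (y0 + 2 * R + 60 * m) ⊆ RE b (b + n) c (c + n) ∧
      Fail Q (b + i * m) y0 (2 * R) m K (↑F))
    (P := fun b c F σ t => inR (b + 3 * R + 60 * m) (b + n - 3 * R - 60 * m) (c + 3 * R + 60 * m)
      (c + n - 3 * R - 60 * m) σ.1 ∧
      (∀ s < t, ¬ Far σ.1 R (orb (↑F) σ s).1) ∧ ¬ g ↑F (fun s => (orb (↑F) σ s).1) t)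
    (G := fun F => ∃ (σ : St) (t : ℕ),
      inR (3 * R + 60 * m) (n - 3 * R - 60 * m) (3 * R + 60 * m) (n - 3 * R - 60 * m) σ.1 ∧
      Far σ.1 R (orb (↑F) σ t).1 ∧ ¬ g ↑F (fun s => (orb (↑F) σ s).1) t) ?_ ?_ ?_ ?_
  · refine h.trans (le_of_eq ?_)
    ring
  · intro b c
    refine LS_sum (K := K) (R := R) hw hm hC hcount
      (fun A y0 F => Fail Q A y0 (2 * R) m K (↑F)) ?_
    intro A y0 hS
    exact iterQ (H := 2 * R) hQ hm1 hK hδ1 hS (hok b c A y0)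
  · rintro b c F σ t ⟨h1, h2, h3⟩
    refine ⟨?_, ?_, ?_⟩
    · simp only [inR, rS, rV, Equiv.coe_fn_mk] at h1 ⊢
      omega
    · intro s hs
      rw [rot_orb]
      exact fun hh => h2 s hs (LT_far.1 hh)
    · intro hh
      apply h3
      apply hg.rot
      refine hg.congr _ _ _ _ ?_ hh
      intro s _
      rw [rot_orb]
      rfl
  · rintro b c F σ t ⟨hin, hf, hM⟩ hx
    obtain ⟨i, hi, y0, hy0, hS, Y, T, s0, hs0, hst, hT, hy⟩ := LS_det hm1 hK hR hin hf hx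
    refine ⟨i, hi, y0, hy0, hS, Y, T, hst, hy, ?_⟩
    intro j Yj Tj hj hjK hstj hTj hQj
    apply hM
    refine hg.mono _ _ s0 T t hT ?_
    refine hg.congr _ _ _ _ ?_ (hdet _ _ _ _ _ _ _ _ hst hj hjK hstj hTj hQj)
    intro s _
    rw [orb_add, hs0]
  · rintro F ⟨σ, t0, hin, hfar, hM⟩
    obtain ⟨t, htt, ht, hex⟩ := first_far2 hR1 hfar
    refine ⟨σ, t, ⟨by simpa using hin, ht, ?_⟩, hex⟩
    intro hh
    exact hM (hg.mono _ _ 0 t t0 (by omega) hh)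

/-- The bad event in the square of side `4 L` with the lower left corner `(b, c)`. -/
def sqH (g : Set Edg → (ℕ → Vtx) → ℕ → Prop) (R L b c : ℤ) (F : Finset Edg) : Prop :=
  ∃ (σ : St) (t : ℕ), inR (b + L) (b + 3 * L) (c + L) (c + 3 * L) σ.1 ∧
    Far σ.1 R (orb (↑(F ∩ RE b (b + 4 * L) c (c + 4 * L)) : Set Edg) σ t).1 ∧
    ¬ g (↑(F ∩ RE b (b + 4 * L) c (c + 4 * L)) : Set Edg)
      (fun s => (orb (↑(F ∩ RE b (b + 4 * L) c (c + 4 * L)) : Set Edg) σ s).1) t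

theorem sqH_pr {m' : ℕ} {g : Set Edg → (ℕ → Vtx) → ℕ → Prop} (hg : FGood m' g) {S : Finset Edg}
    {m n : ℕ} {R L b c : ℤ} (hn : (n : ℤ) = 4 * L)
    (hL : L = 3 * R + 60 * m) (hS : RE b (b + 4 * L) c (c + 4 * L) ⊆ S) :
    Pr (fun _ => (1/2:ℝ)) S (sqH g R L b c) ≤
      Pr (fun _ => (1/2:ℝ)) (RE 0 n 0 n) (fun F => ∃ (σ : St) (t : ℕ),
      inR (3 * R + 60 * m) (n - 3 * R - 60 * m) (3 * R + 60 * m) (n - 3 * R - 60 * m) σ.1 ∧
      Far σ.1 R (orb (↑F) σ t).1 ∧ ¬ g ↑F (fun s => (orb (↑F) σ s).1) t) := by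
  have hok2 : Ok (fun _ : Edg => (1/2:ℝ)) := okq (by norm_num) (by norm_num)
  have e1 : RE b (b + 4 * L) c (c + 4 * L) = (trl b c).mp (RE 0 n 0 n) := by
    rw [trl_RE, hn, zero_add, zero_add, add_comm (4 * L) b, add_comm (4 * L) c]
  rw [Pr_local hS (A := sqH g R L b c) (fun F _ => by
    unfold sqH
    rw [Finset.inter_assoc, Finset.inter_self])]
  rw [e1, LSym.pr]
  apply Pr_mono hok2
  rintro F hF ⟨σ, t, h1, h2, h3⟩
  have h4 : (trl b c).mp F ∩ RE b (b + 4 * L) c (c + 4 * L) = (trl b c).mp F := by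
    rw [Finset.inter_eq_left, e1]
    exact LSym.mp_mono _ hF
  rw [h4] at h2 h3
  have h5 : bulk_tS b c (bulk_tS (-b) (-c) σ) = σ := by
    unfold bulk_tS
    simp
  have h6 : ∀ s, orb (↑((trl b c).mp F) : Set Edg) σ s =
      bulk_tS b c (orb (↑F) (bulk_tS (-b) (-c) σ) s) := by
    intro s
    rw [← bulk_orb, h5]
  refine ⟨bulk_tS (-b) (-c) σ, t, ?_, ?_, ?_⟩
  · unfold inR at h1 ⊢
    simp only [bulk_tS]
    omega
  · rw [h6] at h2
    generalize orb (↑F) (bulk_tS (-b) (-c) σ) t = w at h2 ⊢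
    unfold Far at h2 ⊢
    simp only [bulk_tS] at h2 ⊢
    omega
  · intro hh
    apply h3
    have e2 : (fun s => (orb (↑((trl b c).mp F) : Set Edg) σ s).1) =
        fun s => (((orb (↑F) (bulk_tS (-b) (-c) σ) s).1).1 + b,
          ((orb (↑F) (bulk_tS (-b) (-c) σ) s).1).2 + c) := by
      funext s
      rw [h6]
      rfl
    rw [e2]
    refine hg.trl _ _ _ (-b) (-c) ?_
    rw [trl_trl]
    refine hg.congr _ _ _ _ ?_ hh
    intro s _
    simp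

end Pool.Agent.J4H99.PK
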