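import Pool.Agent.Y995.HG.Blk
import Pool.Agent.J4H99.PK.LowH

/-!
Project PK: block events for properties which depend on the configuration (adaptation of
`Pool.Agent.Y995.HG.Blk`).
-/

set_option autoImplicit false

namespace Pool.Agent.J4H99.PK

open H974 Finset H342P H984P H984N TH992.L Y994.MC Y994.MD Pool.Agent.Y995.FS
open Pool.Agent.Y995.HG

/-- The bad event of the block `q` of side `2 L`. -/
def BdH (g : Set Edg → (ℕ → Vtx) → ℕ → Prop) (R L : ℤ) (D : Dm) (q : Vtx) (F : Finset Edg) :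
    Prop :=
  RE (q.1 * (2 * L) - L) (q.1 * (2 * L) - L + 4 * L) (q.2 * (2 * L) - L)
    (q.2 * (2 * L) - L + 4 * L) ⊆ D.edges ∧
  sqH g R L (q.1 * (2 * L) - L) (q.2 * (2 * L) - L) F

theorem bdH_BF {m' : ℕ} {g : Set Edg → (ℕ → Vtx) → ℕ → Prop} (hg : FGood m' g) {D : Dm}
    {R L : ℤ} {W m n : ℕ}
    (hW : (W : ℤ) = 2 * L) (hL0 : 0 < L) (hn : (n : ℤ) = 4 * L) (hL : L = 3 * R + 60 * m)
    (hpr : Pr (fun _ => (1/2:ℝ)) (RE 0 n 0 n) (fun F => ∃ (σ : St) (t : ℕ),
      inR (3 * R + 60 * m) (n - 3 * R - 60 * m) (3 * R + 60 * m) (n - 3 * R - 60 * m) σ.1 ∧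
      Far σ.1 R (orb (↑F) σ t).1 ∧ ¬ g ↑F (fun s => (orb (↑F) σ s).1) t) ≤ (1/648) ^ 196) :
    BF D W 0 (BdH g R L D) := by
  classical
  refine ⟨?_, ?_, ?_⟩
  · intro q F
    unfold BdH
    refine and_congr_right fun h => ?_
    unfold sqH
    rw [inter_assoc, inter_eq_right.mpr (box_Lam hW hL0 h)]
  · intro q _
    by_cases h : RE (q.1 * (2 * L) - L) (q.1 * (2 * L) - L + 4 * L) (q.2 * (2 * L) - L)
      (q.2 * (2 * L) - L + 4 * L) ⊆ D.edges
    · refine le_trans (Pr_mono (okq (by norm_num) (by norm_num)) (B := sqH g R L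
        (q.1 * (2 * L) - L) (q.2 * (2 * L) - L)) (fun F _ h => h.2)) ?_
      exact (sqH_pr hg hn hL h).trans hpr
    · have h0 : Pr (fun _ => (1/2:ℝ)) D.edges (BdH g R L D q) = 0 := by
        unfold Pr
        rw [Ex_congr (g := fun _ => 0) (fun F _ => ind_not_of (fun hh => h hh.1)), Ex_const]
      rw [h0]
      positivity
  · intro F _ q _ k l _ _ _ _
    exact Nat.zero_le _

/-- Near a block which is not bad the strands are good. -/
theorem good_blockH {m' : ℕ} {g : Set Edg → (ℕ → Vtx) → ℕ → Prop} (hg : FGood m' g) {D : Dm}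
    {R L : ℤ} (hR : 1 ≤ R)
    (hRL : 3 * R + 60 * m' ≤ L) {F : Finset Edg} {q : Vtx} {k l0 : ℕ} (hkl : k ≤ l0)
    (hbd : 4 * L ≤ D.bd (D.walk F k).1)
    (hq : Y994.MC.bk (2 * L) (D.walk F k).1 = q) (hfar : Far (D.walk F k).1 R (D.walk F l0).1)
    (hB : ¬ BdH g R L D q F) :
    ∃ t, t ≤ l0 - k ∧ g (↑F : Set Edg) (fun s => (D.walk F (k + s)).1) t ∧
      ∀ s ≤ t, sd (D.walk F k).1 (D.walk F (k + s)).1 ≤ R + 1 := by
  classical
  have hL : 0 < L := by omega
  have hqv := bk_div hL hq
  set v := (D.walk F k).1 with hv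
  unfold Dm.bd at hbd
  rw [le_min_iff, le_min_iff, le_min_iff] at hbd
  obtain ⟨⟨b1, b2⟩, b3, b4⟩ := hbd
  set b := q.1 * (2 * L) - L with hb
  set c := q.2 * (2 * L) - L with hc
  have hbox : RE b (b + 4 * L) c (c + 4 * L) ⊆ D.edges := by
    unfold Dm.edges
    exact RE_subset (by omega) (by omega) (by omega) (by omega)
  have hnsq : ¬ sqH g R L b c F := fun h => hB ⟨hbox, h⟩
  have hex : ∃ t, Far v R (orb (D.cfg F) (D.walk F k) t).1 := by
    refine ⟨l0 - k, ?_⟩
    rw [← bulk_walk, Nat.add_sub_cancel' hkl]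
    exact hfar
  have ht0 : Nat.find hex ≤ l0 - k := by
    apply Nat.find_min' hex
    rw [← bulk_walk, Nat.add_sub_cancel' hkl]
    exact hfar
  have hcong : ∀ s ≤ Nat.find hex, orb (↑(F ∩ RE b (b + 4 * L) c (c + 4 * L)) : Set Edg)
      (D.walk F k) s = orb (D.cfg F) (D.walk F k) s := by
    intro s0 hs0
    refine orb_congr (T := Nat.find hex) ?_ hs0
    intro e he
    rw [mem_Exm] at he
    obtain ⟨s, hs, rfl⟩ := he
    have hnf := Nat.find_min hex hs
    generalize orb (D.cfg F) (D.walk F k) s = w at hnf ⊢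
    unfold Far at hnf
    push Not at hnf
    have hin : ae w ∈ RE b (b + 4 * L) c (c + 4 * L) := by
      obtain ⟨⟨x, y⟩, q⟩ := w
      cases q
      · rw [ae_ne, mem_RE_true]; simp only at hnf; omega
      · rw [ae_nw, mem_RE_false]; simp only at hnf; omega
      · rw [ae_sw, mem_RE_true]; simp only at hnf; omega
      · rw [ae_se, mem_RE_false]; simp only at hnf; omega
    have hnw : ae w ∉ D.wir := by
      intro hw
      unfold Dm.wir at hw
      obtain ⟨⟨x, y⟩, q⟩ := w
      simp only at hnf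
      cases q
      · rw [ae_ne] at hw
        rcases hw with ⟨-, h2, -⟩ | ⟨h1, -⟩ | ⟨-, h2, -⟩
        · simp only at h2; omega
        · simp at h1
        · simp only at h2; omega
      · rw [ae_nw] at hw
        rcases hw with ⟨h1, -⟩ | ⟨-, h2, -⟩ | ⟨h1, -⟩
        · simp at h1
        · simp only at h2; omega
        · simp at h1
      · rw [ae_sw] at hw
        rcases hw with ⟨-, h2, -⟩ | ⟨h1, -⟩ | ⟨-, h2, -⟩
        · simp only at h2; omega
        · simp at h1
        · simp only at h2; omega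
      · rw [ae_se] at hw
        rcases hw with ⟨h1, -⟩ | ⟨-, h2, -⟩ | ⟨h1, -⟩
        · simp at h1
        · simp only at h2; omega
        · simp at h1
    unfold Dm.cfg
    rw [Finset.coe_inter]
    constructor
    · rintro (h | h)
      · exact ⟨h, hin⟩
      · exact absurd h hnw
    · rintro ⟨h, -⟩
      exact Or.inl h
  have hstep : ∀ s : ℕ, s < Nat.find hex → sd v (D.walk F (k + s)).1 ≤ R := by
    intro s hs
    have hnf := Nat.find_min hex hs
    rw [← bulk_walk] at hnf
    generalize D.walk F (k + s) = w at hnf ⊢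
    unfold Far at hnf
    push Not at hnf
    have e : sd v w.1 = H984H.sd v w.1 := rfl
    rw [e, H984H.det_sd_eq]
    omega
  have hnear : ∀ s ≤ Nat.find hex, sd v (D.walk F (k + s)).1 ≤ R + 1 := by
    intro s hs
    rcases Nat.lt_or_ge s (Nat.find hex) with h | h
    · have := hstep s h; omega
    · have hs' : s = Nat.find hex := le_antisymm hs h
      rcases Nat.eq_zero_or_pos s with h0 | h0
      · subst h0
        have e : sd v (D.walk F (k + 0)).1 = H984H.sd v (D.walk F (k + 0)).1 := rfl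
        rw [e, H984H.det_sd_eq, Nat.add_zero, ← hv]
        omega
      · have h1 := hstep (s - 1) (by omega)
        have h2 := walk_step D F (k + (s - 1))
        rw [show k + (s - 1) + 1 = k + s by omega] at h2
        have e1 : sd v (D.walk F (k + (s - 1))).1 = H984H.sd v (D.walk F (k + (s - 1))).1 := rfl
        have e2 : sd v (D.walk F (k + s)).1 = H984H.sd v (D.walk F (k + s)).1 := rfl
        have e3 : sd (D.walk F (k + (s - 1))).1 (D.walk F (k + s)).1 =
          H984H.sd (D.walk F (k + (s - 1))).1 (D.walk F (k + s)).1 := rfl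
        rw [e1, H984H.det_sd_eq] at h1
        rw [e3, H984H.det_sd_eq] at h2
        rw [e2, H984H.det_sd_eq]
        omega
  refine ⟨Nat.find hex, ht0, ?_, hnear⟩
  by_contra hcon
  apply hnsq
  refine ⟨D.walk F k, Nat.find hex, ?_, ?_, ?_⟩
  · unfold inR
    rw [← hv]
    omega
  · rw [hcong _ le_rfl, ← hv]
    exact Nat.find_spec hex
  · intro hh
    apply hcon
    refine hg.congr _ (fun s => (orb (↑(F ∩ RE b (b + 4 * L) c (c + 4 * L)) : Set Edg)
      (D.walk F k) s).1) _ _ ?_ ?_
    · intro s hs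
      rw [hcong s hs, ← bulk_walk]
    · refine hg.loc _ _ _ _ ?_ hh
      intro s hs e he
      have h1 := hnear s hs
      have e1 : sd v (D.walk F (k + s)).1 = H984H.sd v (D.walk F (k + s)).1 := rfl
      rw [hcong s hs, ← bulk_walk] at he
      rw [e1, H984H.det_sd_eq] at h1
      generalize (D.walk F (k + s)).1 = w at h1 he
      have hin : e ∈ RE b (b + 4 * L) c (c + 4 * L) := by
        obtain ⟨x, y, _ | _⟩ := e
        · rw [mem_RE_false] at he ⊢
          omega
        · rw [mem_RE_true] at he ⊢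
          omega
      rw [Finset.mem_coe, Finset.mem_coe, Finset.mem_inter]
      exact ⟨fun h => h.1, fun h => ⟨h, hin⟩⟩

end Pool.Agent.J4H99.PK
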