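import Pool.Agent.J4H99.PK.TrialD

/-!
Project PK: the probability of the trial (adaptation of `Pool.Agent.Y995.FS.FastPr`).
-/

set_option autoImplicit false

namespace Pool.Agent.J4H99.PK

open H974 Finset H342P H984P H984N TH992.T Pool.Agent.Y995.FS

theorem UO_HL {X Y : ℤ} {a m : ℕ} (ha : 1 ≤ a) (ham : a ≤ m) {e : Edg} (he : e ∈ UO X Y a m)
    (h : dl e ∈ HL' X Y a m) : False := by
  have ha' : (1 : ℤ) ≤ a := by exact_mod_cast ha
  have ham' : (a : ℤ) ≤ m := by exact_mod_cast ham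
  have h1 := UO_pos ha ham he
  obtain ⟨x, y, _ | _⟩ := e
  · simp only [HL', dl_f, Finset.mem_union, mem_RE_true] at h
    simp only at h1
    omega
  · simp only [HL', dl_t, Finset.mem_union, mem_RE_false] at h
    simp only at h1
    omega

theorem UD_HL {X Y : ℤ} {a m : ℕ} (ha : 1 ≤ a) (ham : a ≤ m) {e : Edg} (he : dl e ∈ UD X Y a m)
    (h : e ∈ HL X Y a m) : False := by
  have ha' : (1 : ℤ) ≤ a := by exact_mod_cast ha
  have ham' : (a : ℤ) ≤ m := by exact_mod_cast ham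
  have h1 := UD_pos ha ham he
  obtain ⟨x, y, _ | _⟩ := e
  · simp only [HL, Finset.mem_union, mem_RE_false] at h
    simp only at h1
    omega
  · simp only [HL, Finset.mem_union, mem_RE_true] at h
    simp only at h1
    omega

/-- edges of the dual half circuit -/
noncomputable def UD0 (X Y : ℤ) (a m : ℕ) : Finset Edg := (UD X Y a m).map dl.symm.toEmbedding

theorem mem_UD0 {X Y : ℤ} {a m : ℕ} {e : Edg} : e ∈ UD0 X Y a m ↔ dl e ∈ UD X Y a m := by
  unfold UD0
  simp only [Finset.mem_map, Equiv.coe_toEmbedding]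
  constructor
  · rintro ⟨e', h, rfl⟩
    rw [Equiv.apply_symm_apply]
    exact h
  · intro h
    exact ⟨dl e, h, Equiv.symm_apply_apply _ _⟩

theorem UD0_RB {X Y : ℤ} {a m : ℕ} (ha : 1 ≤ a) (ham : a ≤ m) :
    UD0 X Y a m ⊆ Pool.Agent.Y995.FS.RB X Y m := by
  intro e he
  exact UD_RB ha ham (mem_UD0.1 he)

theorem UO_UD0 {X Y : ℤ} {a m : ℕ} (ha : 1 ≤ a) (ham : a ≤ m) :
    Disjoint (UO X Y a m) (UD0 X Y a m) := by
  rw [Finset.disjoint_left]
  intro e h1 h2
  have ha' : (1 : ℤ) ≤ a := by exact_mod_cast ha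
  have a1 := UO_pos ha ham h1
  have a2 := UD_pos ha ham (mem_UD0.1 h2)
  omega

theorem NB_U {X Y : ℤ} {a m : ℕ} (ha : 1 ≤ a) (ham : a ≤ m) :
    Disjoint (NB (X + 32 * m, Y) a) (UO X Y a m ∪ UD0 X Y a m) := by
  rw [Finset.disjoint_left]
  intro e h1 h2
  have ha' : (1 : ℤ) ≤ a := by exact_mod_cast ha
  have ham' : (a : ℤ) ≤ m := by exact_mod_cast ham
  have a0 : (X + 32 * m - 13 * a ≤ e.1 ∧ e.1 ≤ X + 32 * m + 14 * a) ∧
      (Y - 13 * a ≤ e.2.1 ∧ e.2.1 ≤ Y + 14 * a) := by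
    unfold NB at h1
    obtain ⟨x, y, _ | _⟩ := e
    · simp only [mem_RE_false] at h1
      simp only
      omega
    · simp only [mem_RE_true] at h1
      simp only
      omega
  rw [mem_union] at h2
  rcases h2 with h2 | h2
  · have a1 := UO_pos ha ham h2
    omega
  · have a2 := UD_pos ha ham (mem_UD0.1 h2)
    omega

theorem EO_loc {X Y : ℤ} {a m : ℕ} (F : Finset Edg) :
    EO X Y a m (↑F : Set Edg) ↔ EO X Y a m (↑(F ∩ UO X Y a m) : Set Edg) := by
  constructor
  · refine EO_mono ?_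
    intro e he heF
    exact Finset.mem_coe.2 (mem_inter.2 ⟨Finset.mem_coe.1 heF, he⟩)
  · refine EO_mono ?_
    intro e he heF
    exact Finset.mem_coe.2 (mem_inter.1 (Finset.mem_coe.1 heF)).1

theorem ED_loc {X Y : ℤ} {a m : ℕ} (F : Finset Edg) :
    ED X Y a m (↑F : Set Edg) ↔ ED X Y a m (↑(F ∩ UD0 X Y a m) : Set Edg) := by
  constructor
  · refine ED_mono ?_
    intro e he heF
    exact Finset.mem_coe.2 (mem_inter.1 (Finset.mem_coe.1 heF)).1
  · refine ED_mono ?_
    intro e he heF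
    exact Finset.mem_coe.2 (mem_inter.2 ⟨Finset.mem_coe.1 heF, mem_UD0.2 he⟩)

theorem ra_loc {X Y : ℤ} {a m : ℕ} (ha : 1 ≤ a) (F : Finset Edg) :
    (∃ v ∈ ctr (X + 32 * m, Y) a, RA v a (↑F : Set Edg)) ↔
      ∃ v ∈ ctr (X + 32 * m, Y) a, RA v a (↑(F ∩ NB (X + 32 * m, Y) a) : Set Edg) := by
  have hloc : ∀ F G : Finset Edg, (∀ e ∈ NB (X + 32 * m, Y) a, (e ∈ F ↔ e ∈ G)) →
      (∃ v ∈ ctr (X + 32 * m, Y) a, RA v a (↑F : Set Edg)) →
      ∃ v ∈ ctr (X + 32 * m, Y) a, RA v a (↑G : Set Edg) := by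
    rintro F G h ⟨v, hv, hR⟩
    have hvb := ctr_b hv
    refine ⟨v, hv, RA_mono' ?_ ?_ hR⟩
    · intro e he heF
      refine Finset.mem_coe.2 ((h e ?_).1 (Finset.mem_coe.1 heF))
      unfold PR at he
      unfold NB
      exact RE_sub_RE (by simp only; omega) (by simp only; omega) (by simp only; omega)
        (by simp only; omega) he
    · intro e he heF
      refine Finset.mem_coe.2 ((h e ?_).2 (Finset.mem_coe.1 heF))
      have ha' : (1 : ℤ) ≤ a := by exact_mod_cast ha
      obtain ⟨x, y, _ | _⟩ := e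
      · simp only [DR, dl_f, mem_RE_true] at he
        simp only [NB, mem_RE_false]
        omega
      · simp only [DR, dl_t, mem_RE_false] at he
        simp only [NB, mem_RE_true]
        omega
  constructor
  · refine hloc _ _ fun e he => ?_
    rw [mem_inter]
    exact ⟨fun h => ⟨h, he⟩, fun h => h.1⟩
  · refine hloc _ _ fun e he => ?_
    rw [mem_inter]
    exact ⟨fun h => h.1, fun h => ⟨h, he⟩⟩

/-- The probability of the trial. -/
theorem trH {c C : ℝ} (hc : 0 < c) (hC : 0 < C) (hL : LowA c (1/4)) (hU : TwoUp C (1/4)) :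
    ∃ θ K2 : ℝ, 0 < θ ∧ 1 ≤ K2 ∧ ∀ a m kk : ℕ, 1 ≤ a → a ≤ m → m ≤ a * kk → 1 ≤ kk →
      ∀ (S : Finset Edg) (A y0 : ℤ),
        TrQ S A y0 m (Qh a m kk (θ * kk * (a : ℝ) ^ (7/4 : ℝ))) (Real.exp (-(K2 * kk))) := by
  classical
  obtain ⟨M, hM1, hM⟩ := mom_xw hC hU
  have hM0 : 0 < M := by linarith
  obtain ⟨c30, hc30, hra⟩ := nra_prob (c := c) (C := C) (s := 1/4) (t := 1/4) hc hC (by norm_num)
    (by norm_num) (by norm_num) le_rfl hL hU
  obtain ⟨c3, hc3d⟩ : ∃ c3 : ℝ, c3 = c30 * (q0 ^ 3 * q0 ^ 3) := ⟨_, rfl⟩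
  have hc3 : 0 < c3 := by
    rw [hc3d]
    have := q0_pos
    positivity
  have hlM : 0 ≤ Real.log M := Real.log_nonneg hM1
  have hlq : Real.log q0 ≤ 0 := Real.log_nonpos q0_pos.le q0_le
  -- constants
  obtain ⟨L3, hL3⟩ : ∃ L3 : ℝ, L3 = |Real.log c3| := ⟨_, rfl⟩
  have hL30 : 0 ≤ L3 := by rw [hL3]; exact abs_nonneg _
  have hL3' : Real.exp (-L3) ≤ c3 := by
    rw [← Real.exp_log hc3]
    refine Real.exp_le_exp.mpr ?_
    rw [hL3]
    exact neg_abs_le _
  obtain ⟨θ0, hθ0⟩ : ∃ θ0 : ℝ, θ0 = 952 * Real.log M - 16 * Real.log q0 + L3 + 3 := ⟨_, rfl⟩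
  refine ⟨18 * θ0, -16 * Real.log q0 + L3 + 1, by linarith, by linarith, ?_⟩
  intro a m kk ha ham hmk hkk S A y0 k F0 X Y T hF0 hk hst hA hBl hent hEk hkE
  have ha0 : (0 : ℝ) < a := by exact_mod_cast ha
  have hm1 : 1 ≤ m := ha.trans ham
  have hamz : (a : ℤ) ≤ m := by exact_mod_cast ham
  have hkk1 : (1 : ℝ) ≤ kk := by exact_mod_cast hkk
  -- the base event with the arms
  have key := trialG (n := 2 * kk) (N := fun G => (∃ v ∈ ctr (X + 32 * m, Y) a, RA v a ↑G) ∧
      (EO X Y a m (↑G : Set Edg) ∧ ED X Y a m (↑G : Set Edg)))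
    ha ham (by nlinarith) hF0 hk hst (by omega) hBl hent hEk hkE (by
      rintro F G h1 h2 ⟨⟨v, hv, hR⟩, hEO, hED⟩
      refine ⟨⟨v, hv, RA_mono' ?_ ?_ hR⟩, EO_mono ?_ hEO, ED_mono ?_ hED⟩
      · intro e he heF
        by_contra hcon
        exact PR_HL ha ham hv he (h1 e (Finset.mem_coe.1 heF)
          (fun h => hcon (Finset.mem_coe.2 h)))
      · intro e he heG
        by_contra hcon
        exact DR_HL ha ham hv he (h2 e (Finset.mem_coe.1 heG)
          (fun h => hcon (Finset.mem_coe.2 h)))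
      · intro e he heF
        by_contra hcon
        exact UO_HL ha ham he (h1 e (Finset.mem_coe.1 heF) (fun h => hcon (Finset.mem_coe.2 h)))
      · intro e he heG
        by_contra hcon
        exact UD_HL ha ham he (h2 e (Finset.mem_coe.1 heG) (fun h => hcon (Finset.mem_coe.2 h))))
  -- fresh edges
  have fresh : ∀ e ∈ Pool.Agent.Y995.FS.RB X Y m, e ∉ k := by
    intro e he hek
    have h1 := hkE e hek (RB_Bl he)
    have h2 := (exm_loc hst h1).2.1
    have h3 : X ≤ e.1 := by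
      obtain ⟨x, y, _ | _⟩ := e
      · rw [Pool.Agent.Y995.FS.RB, mem_RE_false] at he; exact he.1
      · rw [Pool.Agent.Y995.FS.RB, mem_RE_true] at he; exact he.1
    omega
  have hRB : Pool.Agent.Y995.FS.RB X Y m ⊆ S \ k := by
    intro e he
    rw [mem_sdiff]
    exact ⟨hBl (RB_Bl he), fresh e he⟩
  have hNB : NB (X + 32 * m, Y) a ⊆ S \ k := by
    refine Finset.Subset.trans ?_ hRB
    unfold NB Pool.Agent.Y995.FS.RB
    exact RE_sub_RE (by simp only; omega) (by simp only; omega) (by simp only; omega)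
      (by simp only; omega)
  -- probability of the arms
  have hlocA : ∀ F : Finset Edg, ((∃ v ∈ ctr (X + 32 * m, Y) a, RA v a ↑F) ↔
      ∃ v ∈ ctr (X + 32 * m, Y) a, RA v a ↑(F ∩ NB (X + 32 * m, Y) a)) := ra_loc ha
  have hp0 : c30 ≤ Pr (fun _ => (1/2:ℝ)) (S \ k)
      (fun G => ∃ v ∈ ctr (X + 32 * m, Y) a, RA v a ↑G) := by
    have h1 := hra (X + 32 * m, Y) a ha
    have e1 : ((a:ℝ)) ^ (-(2 * (1/4:ℝ) - 2 * (1/4))) = 1 := by
      rw [show (-(2 * (1/4:ℝ) - 2 * (1/4))) = 0 by norm_num, Real.rpow_zero]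
    rw [e1, mul_one] at h1
    have h2 : Pr (fun _ => (1/2:ℝ)) (NB (X + 32 * m, Y) a)
        (fun G => ∃ v ∈ ctr (X + 32 * m, Y) a, RA v a ↑G) =
        Pr (fun _ => (1/2:ℝ)) (S \ k)
        (fun G => ∃ v ∈ ctr (X + 32 * m, Y) a, RA v a ↑G) := by
      symm
      refine Pr_local hNB fun F _ => ?_
      have hloc : ∀ F G : Finset Edg, (∀ e ∈ NB (X + 32 * m, Y) a, (e ∈ F ↔ e ∈ G)) →
          (∃ v ∈ ctr (X + 32 * m, Y) a, RA v a ↑F) →
          ∃ v ∈ ctr (X + 32 * m, Y) a, RA v a ↑G := by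
        rintro F G h ⟨v, hv, hR⟩
        have hvb := ctr_b hv
        refine ⟨v, hv, RA_mono' ?_ ?_ hR⟩
        · intro e he heF
          refine Finset.mem_coe.2 ((h e ?_).1 (Finset.mem_coe.1 heF))
          unfold PR at he
          unfold NB
          exact RE_sub_RE (by simp only; omega) (by simp only; omega) (by simp only; omega)
            (by simp only; omega) he
        · intro e he heF
          refine Finset.mem_coe.2 ((h e ?_).2 (Finset.mem_coe.1 heF))
          have ha' : (1 : ℤ) ≤ a := by exact_mod_cast ha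
          obtain ⟨x, y, _ | _⟩ := e
          · simp only [DR, dl_f, mem_RE_true] at he
            simp only [NB, mem_RE_false]
            omega
          · simp only [DR, dl_t, mem_RE_false] at he
            simp only [NB, mem_RE_true]
            omega
      constructor
      · refine hloc _ _ fun e he => ?_
        rw [mem_inter]
        exact ⟨fun h => ⟨h, he⟩, fun h => h.1⟩
      · refine hloc _ _ fun e he => ?_
        rw [mem_inter]
        exact ⟨fun h => h.1, fun h => ⟨h, he⟩⟩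
    rw [← h2]
    refine h1.trans (Pr_mono two_ok fun G _ hG => ?_)
    have h3 : (0 : ℝ) < (nRA (X + 32 * m, Y) a (↑G) : ℝ) :=
      lt_of_lt_of_le (by positivity) hG
    have h4 : 0 < nRA (X + 32 * m, Y) a (↑G) := by exact_mod_cast h3
    unfold nRA at h4
    obtain ⟨v, hv⟩ := Finset.card_pos.1 h4
    rw [mem_filter] at hv
    exact ⟨v, hv.1, hv.2⟩
  have hp1 : c3 ≤ Pr (fun _ => (1/2:ℝ)) (S \ k)
      (fun G => (∃ v ∈ ctr (X + 32 * m, Y) a, RA v a ↑G) ∧
        (EO X Y a m (↑G : Set Edg) ∧ ED X Y a m (↑G : Set Edg))) := by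
    have hc := circ_pr (X := X) (Y := Y) ha ham hRB
    have i1 := Pr_indep (p := fun _ : Edg => (1/2:ℝ)) (U := S \ k) (S := UO X Y a m)
      (T := UD0 X Y a m) ((UO_RB ha ham).trans hRB) ((UD0_RB ha ham).trans hRB) (UO_UD0 ha ham)
      (A := fun G => EO X Y a m (↑G : Set Edg)) (B := fun G => ED X Y a m (↑G : Set Edg))
      (fun F _ => EO_loc F) (fun F _ => ED_loc F)
    have i2 := Pr_indep (p := fun _ : Edg => (1/2:ℝ)) (U := S \ k) (S := NB (X + 32 * m, Y) a)
      (T := UO X Y a m ∪ UD0 X Y a m) hNB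
      (union_subset ((UO_RB ha ham).trans hRB) ((UD0_RB ha ham).trans hRB)) (NB_U ha ham)
      (A := fun G => ∃ v ∈ ctr (X + 32 * m, Y) a, RA v a ↑G)
      (B := fun G => EO X Y a m (↑G : Set Edg) ∧ ED X Y a m (↑G : Set Edg))
      (fun F _ => hlocA F) (fun F _ => by
        constructor
        · rintro ⟨h1, h2⟩
          refine ⟨EO_mono ?_ h1, ED_mono ?_ h2⟩
          · intro e he heF
            exact Finset.mem_coe.2 (mem_inter.2 ⟨Finset.mem_coe.1 heF, mem_union_left _ he⟩)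
          · intro e he heF
            exact Finset.mem_coe.2 (mem_inter.1 (Finset.mem_coe.1 heF)).1
        · rintro ⟨h1, h2⟩
          refine ⟨EO_mono ?_ h1, ED_mono ?_ h2⟩
          · intro e he heF
            exact Finset.mem_coe.2 (mem_inter.1 (Finset.mem_coe.1 heF)).1
          · intro e he heF
            exact Finset.mem_coe.2 (mem_inter.2 ⟨Finset.mem_coe.1 heF,
              mem_union_right _ (mem_UD0.2 he)⟩))
    rw [i2, i1, hc3d]
    have hq : 0 ≤ q0 ^ 3 := pow_nonneg q0_pos.le _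
    exact mul_le_mul hp0 (mul_le_mul hc.1 hc.2 hq (hq.trans hc.1)) (mul_nonneg hq hq)
      (hc30.le.trans hp0)
  -- the count
  have hcn := cn_pr hM1 hC hU hM (X := X) (Y := Y) (a := a) (m := m) (kk := kk) ha hRB
    (θ0 * kk)
  -- combination
  obtain ⟨Ab, hAb⟩ : ∃ Ab : Finset Edg → Prop, Ab = fun G : Finset Edg =>
    ((∃ v ∈ ctr (X + 32 * m, Y) a, RA v a (↑G : Set Edg)) ∧
      (EO X Y a m (↑G : Set Edg) ∧ ED X Y a m (↑G : Set Edg))) ∧
        (BaseL A y0 X Y T a m (↑((F0 ∩ k) ∪ G)) ∧ BaseU A y0 X Y T a m (↑((F0 ∩ k) ∪ G))) :=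
    ⟨_, rfl⟩
  obtain ⟨Bb, hBb⟩ : ∃ Bb : Finset Edg → Prop, Bb = fun G : Finset Edg =>
    18 * (θ0 * kk) * (a : ℝ) ^ (7/4 : ℝ) ≤ Cn X Y a m kk (↑G : Set Edg) := ⟨_, rfl⟩
  rw [← hAb] at key
  rw [← hBb] at hcn
  have s6 : Pr (fun _ => (1/2:ℝ)) (S \ k) Ab - Pr (fun _ => (1/2:ℝ)) (S \ k) Bb ≤
      Pr (fun _ => (1/2:ℝ)) (S \ k) (fun G =>
        Qh a m kk (18 * θ0 * kk * (a : ℝ) ^ (7/4 : ℝ)) A y0 X Y T (↑((F0 ∩ k) ∪ G))) := by
    unfold Pr
    rw [← Ex_sub]
    refine Ex_mono two_ok fun G hG => ?_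
    have hmem : ∀ e ∈ Pool.Agent.Y995.FS.RB X Y m, (e ∈ (↑((F0 ∩ k) ∪ G) : Set Edg) ↔ e ∈ (↑G : Set Edg)) := by
      intro e he
      rw [Finset.mem_coe, Finset.mem_coe, mem_union, mem_inter]
      exact ⟨fun h => h.elim (fun h => absurd h.2 (fresh e he)) id, Or.inr⟩
    by_cases h1 : Ab G
    · by_cases h2 : Bb G
      · rw [ind_of h1, ind_of h2]
        have := ind_nonneg (Qh a m kk (18 * θ0 * kk * (a : ℝ) ^ (7/4 : ℝ)) A y0 X Y T
          (↑((F0 ∩ k) ∪ G)))
        linarith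
      · have h3 : Qh a m kk (18 * θ0 * kk * (a : ℝ) ^ (7/4 : ℝ)) A y0 X Y T
            (↑((F0 ∩ k) ∪ G)) := by
          rw [hAb] at h1
          rw [hBb] at h2
          obtain ⟨⟨⟨v, hv, hR⟩, hEO, hED⟩, h4⟩ := h1
          refine ⟨⟨h4, ⟨v, hv, ?_⟩, ?_⟩, EO_mono ?_ hEO, ED_mono ?_ hED⟩
          · have hNBm : ∀ e ∈ NB (X + 32 * m, Y) a,
                (e ∈ (↑((F0 ∩ k) ∪ G) : Set Edg) ↔ e ∈ (↑G : Set Edg)) := by
              intro e he
              have := (mem_sdiff.1 (hNB he)).2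
              rw [Finset.mem_coe, Finset.mem_coe, mem_union, mem_inter]
              exact ⟨fun h => h.elim (fun h => absurd h.2 this) id, Or.inr⟩
            have hvb := ctr_b hv
            refine RA_mono' ?_ ?_ hR
            · intro e he heF
              refine (hNBm e ?_).2 heF
              unfold PR at he
              unfold NB
              exact RE_sub_RE (by simp only; omega) (by simp only; omega) (by simp only; omega)
                (by simp only; omega) he
            · intro e he heF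
              refine (hNBm e ?_).1 heF
              have ha' : (1 : ℤ) ≤ a := by exact_mod_cast ha
              obtain ⟨x, y, _ | _⟩ := e
              · simp only [DR, dl_f, mem_RE_true] at he
                simp only [NB, mem_RE_false]
                omega
              · simp only [DR, dl_t, mem_RE_false] at he
                simp only [NB, mem_RE_true]
                omega
          · rw [cn_congr hmem]
            have e9 : 18 * θ0 * kk * (a : ℝ) ^ (7/4 : ℝ) = 18 * (θ0 * kk) * (a : ℝ) ^ (7/4 : ℝ) := by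
              ring
            rw [e9]
            exact (not_le.1 h2).le
          · intro e he heG
            exact (hmem e (UO_RB ha ham he)).2 heG
          · intro e he heG
            exact (hmem e (UD_RB ha ham he)).1 heG
        rw [ind_of h1, ind_of h3]
        have := ind_nonneg (Bb G)
        linarith
    · rw [ind_not_of h1]
      have h2 := ind_nonneg (Qh a m kk (18 * θ0 * kk * (a : ℝ) ^ (7/4 : ℝ)) A y0 X Y T
          (↑((F0 ∩ k) ∪ G)))
      have h3 := ind_nonneg (Bb G)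
      linarith
  refine le_trans ?_ s6
  have h7 : Real.exp (16 * Real.log q0 * kk - L3 * kk) ≤
      Pr (fun _ => (1/2:ℝ)) (S \ k) Ab := by
    refine le_trans ?_ key
    have e : q0 ^ (2 * (2 * kk) + 4) * q0 ^ (2 * (2 * kk) + 4) =
        Real.exp (((8 * kk + 8 : ℕ) : ℝ) * Real.log q0) := by
      rw [← pow_add, Real.exp_nat_mul, Real.exp_log q0_pos]
      congr 1
      ring
    rw [e]
    have h8 : Real.exp (16 * Real.log q0 * kk) ≤
        Real.exp (((8 * kk + 8 : ℕ) : ℝ) * Real.log q0) := by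
      refine Real.exp_le_exp.mpr ?_
      push_cast
      nlinarith
    have h9 : Real.exp (-(L3 * kk)) ≤ Pr (fun _ => (1/2:ℝ)) (S \ k)
      (fun G => (∃ v ∈ ctr (X + 32 * m, Y) a, RA v a ↑G) ∧
        (EO X Y a m (↑G : Set Edg) ∧ ED X Y a m (↑G : Set Edg))) := by
      refine le_trans ?_ (hL3'.trans hp1)
      refine Real.exp_le_exp.mpr ?_
      nlinarith
    calc Real.exp (16 * Real.log q0 * kk - L3 * kk) =
        Real.exp (16 * Real.log q0 * kk) * Real.exp (-(L3 * kk)) := by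
          rw [← Real.exp_add]; congr 1
      _ ≤ _ := mul_le_mul h8 h9 (Real.exp_pos _).le (Real.exp_pos _).le
  have h8 : Pr (fun _ => (1/2:ℝ)) (S \ k) Bb ≤
      1 / 2 * Real.exp (16 * Real.log q0 * kk - L3 * kk) := by
    refine hcn.trans ?_
    have e : M ^ (952 * kk) = Real.exp (952 * Real.log M * kk) := by
      have e2 : 952 * Real.log M * kk = ((952 * kk : ℕ) : ℝ) * Real.log M := by
        push_cast; ring
      rw [e2, Real.exp_nat_mul, Real.exp_log hM0]
    rw [e, ← Real.exp_add]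
    have e3 : -(θ0 * kk) + 952 * Real.log M * kk =
        (16 * Real.log q0 * kk - L3 * kk) + -(3 * kk) := by rw [hθ0]; ring
    rw [e3, Real.exp_add]
    have h9 : Real.exp (-(3 * (kk : ℝ))) ≤ Real.exp (-3) :=
      Real.exp_le_exp.mpr (by linarith)
    have h10 : 9 * Real.exp (-3) ≤ 1 / 2 := by
      have h11 : (18 : ℝ) ≤ Real.exp 3 := by
        have h12 : Real.exp 3 = Real.exp 1 ^ 3 := by rw [← Real.exp_nat_mul]; norm_num
        have h13 := Real.exp_one_gt_d9
        rw [h12]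
        have h14 : (2.7 : ℝ) ^ 3 ≤ Real.exp 1 ^ 3 := pow_le_pow_left₀ (by norm_num) (by linarith) 3
        norm_num at h14 ⊢
        linarith
      rw [Real.exp_neg, ← div_eq_mul_inv, div_le_div_iff₀ (Real.exp_pos _) (by norm_num)]
      linarith
    have h15 := Real.exp_pos (16 * Real.log q0 * kk - L3 * kk)
    nlinarith
  have h9 : Real.exp (-((-16 * Real.log q0 + L3 + 1) * kk)) ≤
      1 / 2 * Real.exp (16 * Real.log q0 * kk - L3 * kk) := by
    have e1 : -((-16 * Real.log q0 + L3 + 1) * (kk : ℝ)) =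
        (16 * Real.log q0 * kk - L3 * kk) + -(kk : ℝ) := by ring
    rw [e1, Real.exp_add]
    have h10 : Real.exp (-(kk : ℝ)) ≤ 1 / 2 := by
      have h11 : Real.exp (-(kk : ℝ)) ≤ Real.exp (-1) := Real.exp_le_exp.mpr (by linarith)
      have h12 := Real.exp_neg_one_lt_d9
      linarith
    have h15 := Real.exp_pos (16 * Real.log q0 * kk - L3 * kk)
    nlinarith
  linarith

end Pool.Agent.J4H99.PK
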