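import Pool.Agent.Y41.EV.ManyP
import Pool.Agent.J4H99.PK.TrialP
import Pool.Agent.J4H99.PK.BlkH

/-!
Project PK: long pieces of the path contain many good pairs (adaptation of
`Pool.Agent.Y41.EV.{ManyD, ManyP}`).
-/

set_option autoImplicit false

namespace Pool.Agent.J4H99.PK

open H974 Finset H342P H984P H984N TH992.L Y994.MC Y994.MD Pool.Agent.Y995.FS
open Pool.Agent.Y995.HG Pool.Agent.Y985.ME

/-- `N` disjoint pairs `(i, j)`, `k ≤ i ≤ j ≤ l`, of displacement at least `20 m`, of duration at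
most `M` and with at most `M` corners with two arms near the starting point. -/
def LPairsH (D : Dm) (F : Finset Edg) (m : ℕ) (M : ℝ) (N k l : ℕ) : Prop :=
  ∃ Z : Finset (ℕ × ℕ), N ≤ Z.card ∧
    (∀ z ∈ Z, ∀ z' ∈ Z, z ≠ z' → z.2 < z'.1 ∨ z'.2 < z.1) ∧
    ∀ z ∈ Z, k ≤ z.1 ∧ z.1 ≤ z.2 ∧ z.2 ≤ l ∧
      20 * (m : ℤ) ≤ sd (D.walk F z.1).1 (D.walk F z.2).1 ∧ ((z.2 - z.1 : ℕ) : ℝ) ≤ M ∧
      ((nst m (D.walk F z.1).1 ↑F).card : ℝ) ≤ M

/-- A long piece in the bulk with few good pairs. -/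
def FewH (D : Dm) (L : ℤ) (W m N : ℕ) (K1 M : ℝ) (F : Finset Edg) : Prop :=
  ∃ k l : ℕ, k ≤ l ∧ l ≤ D.len F ∧ (∀ t, k ≤ t → t ≤ l → 4 * L ≤ D.bd (D.walk F t).1) ∧
    (W : ℝ) ^ (7/4 : ℝ) * (K1 * (98 * N)) < ((l - k + 1 : ℕ) : ℝ) ∧
    ¬ LPairsH D F m M N k l

/-- All long pieces contain many good pairs. -/
def S_MANYH : Prop := ∀ c C : ℝ, 0 < c → 0 < C → LowA c (1/4) → TwoUp C (1/4) →
  ∃ θ K2 A1 K1 : ℝ, 0 < θ ∧ 1 ≤ K2 ∧ 1 ≤ A1 ∧ 0 < K1 ∧ ∀ m a kk : ℕ, 1 ≤ a → a ≤ m →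
    m ≤ a * kk → 1 ≤ kk → 5 ≤ m → ∃ (W : ℕ) (L : ℤ), (W : ℤ) = 2 * L ∧ 60 * (m : ℤ) ≤ L ∧
      (W : ℝ) ≤ A1 * (m * Real.exp (2 * (K2 * kk))) ∧
      ∀ D : Dm, D.Ok → ∀ N : ℕ, 36 ≤ N →
        P D.edges (FewH D L W m N K1 (θ * kk * (a : ℝ) ^ (7/4 : ℝ))) ≤
          ((SB D W).card : ℝ) * (20 * (1/2) ^ N)

open Classical in
/-- Outside the exceptional events a piece of the path contains many fast pairs. -/
theorem manyH_det {M : ℝ} {m : ℕ} {D : Dm} (hD : D.Ok) {F : Finset Edg} (hF : F ⊆ D.edges)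
    {R L : ℤ} {W : ℕ} (hW : (W : ℤ) = 2 * L) (hR : 1 ≤ R) (hRL : 3 * R + 60 * m ≤ L)
    {N0 Nm : ℕ} (hNm : D.len F + 1 ≤ Nm) {k l : ℕ} (hkl : k ≤ l) (hl : l ≤ D.len F)
    (hbd : ∀ t, k ≤ t → t ≤ l → 4 * L ≤ D.bd (D.walk F t).1)
    (hn : ¬ HolesB D W (BdH (gH m M) R L D) N0 Nm (Y994.MC.bk W (D.walk F k).1) F)
    (hA : 36 ≤ (vb D W F k l).card) (hA2 : N0 ≤ (vb D W F k l).card) :
    ∃ Z : Finset (ℕ × ℕ), (vb D W F k l).card ≤ 98 * Z.card ∧
      (∀ z ∈ Z, ∀ z' ∈ Z, z ≠ z' → z.2 < z'.1 ∨ z'.2 < z.1) ∧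
      ∀ z ∈ Z, k ≤ z.1 ∧ z.1 ≤ z.2 ∧ z.2 ≤ l ∧
        20 * (m : ℤ) ≤ sd (D.walk F z.1).1 (D.walk F z.2).1 ∧ ((z.2 - z.1 : ℕ) : ℝ) ≤ M ∧
        ((nst m (D.walk F z.1).1 ↑F).card : ℝ) ≤ M := by
  have hL0 : 0 < L := by omega
  have hW1 : 1 ≤ W := by
    have : (0 : ℤ) < W := by omega
    exact_mod_cast this
  have hW' : (1 : ℤ) ≤ W := by exact_mod_cast hW1
  have hg := gH_good m M
  set g := gH m M with hgdef
  set A := vb D W F k l with hAdef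
  set Bb := A.filter (fun q => BdH g R L D q F) with hBd
  set G := A.filter (fun q => ¬ BdH g R L D q F) with hG
  have c2 : Bb.card + G.card = A.card := card_filter_add_card_filter_not _
  have c4 : 4 * Bb.card ≤ max A.card N0 := by
    obtain ⟨c, hc⟩ := TH992.L.pigeon (le_refl Bb.card)
    by_contra hcon
    push Not at hcon
    apply hn
    obtain ⟨h2, h3⟩ := vb_AS (D := D) (F := F) hW1 hkl
    have h4 := vb_card (D := D) (F := F) (W := W) (k := k) hl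
    rw [← hAdef] at h2 h3 h4
    refine ⟨A.card, mem_range.mpr ?_, A, h3, rfl, Bb.filter (fun q => TH992.L.cls q = c), ?_,
      ⟨?_, ?_, ?_⟩, ?_⟩
    · omega
    · rw [mem_powerset]
      intro q hq
      exact (mem_filter.mp (mem_filter.mp hq).1).1
    · intro q hq r hr
      rw [(mem_filter.mp hq).2, (mem_filter.mp hr).2]
    · intro q hq
      exact vb_Bks hD hF hW1 (mem_filter.mp (mem_filter.mp hq).1).1
    · omega
    · intro q hq
      exact (mem_filter.mp (mem_filter.mp hq).1).2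
  set ql := Y994.MC.bk W (D.walk F l).1 with hql
  set G1 := G \ TH992.L.nb9 ql with hG1
  have c5 : G.card ≤ G1.card + 9 := by
    have h1 := card_le_card_sdiff_add_card (s := G) (t := TH992.L.nb9 ql)
    rw [TH992.L.card_nb9] at h1
    exact h1
  have c6 : A.card ≤ 2 * G1.card := by omega
  obtain ⟨c, hc⟩ := TH992.L.pigeon (le_refl G1.card)
  set G2 := G1.filter (fun q => TH992.L.cls q = c) with hG2
  -- the pairs
  have hz : ∀ q ∈ G2, ∃ z : ℕ × ℕ, (∃ u : Vtx, Y994.MC.bk (2 * L) u = q ∧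
      ∀ r, z.1 ≤ r → r ≤ z.2 → sd u (D.walk F r).1 ≤ R + 1) ∧
      k ≤ z.1 ∧ z.1 ≤ z.2 ∧ z.2 ≤ l ∧
        20 * (m : ℤ) ≤ sd (D.walk F z.1).1 (D.walk F z.2).1 ∧ ((z.2 - z.1 : ℕ) : ℝ) ≤ M ∧
        ((nst m (D.walk F z.1).1 ↑F).card : ℝ) ≤ M := by
    intro q hq
    have hq1 := (mem_filter.mp hq).1
    rw [hG1, mem_sdiff, hG, mem_filter] at hq1
    obtain ⟨⟨hqA, hqB⟩, hqn⟩ := hq1
    rw [hAdef] at hqA
    unfold vb at hqA
    rw [mem_vset] at hqA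
    obtain ⟨τ, t1, t2, t3⟩ := hqA
    have hfar : (W:ℤ) ≤ sd (D.walk F τ).1 (D.walk F l).1 := by
      by_contra hcon
      push Not at hcon
      apply hqn
      rw [TH992.L.mem_nb9]
      have h5 := bk_step hW' hcon.le
      rw [t3, ← hql] at h5
      refine le_trans (le_of_eq (H984H.det_sd_comm _ _)) h5
    rw [hW] at t3
    obtain ⟨t, ht, ⟨i, j, g1, g2, g3, g4, g5⟩, hin⟩ := good_blockH hg hR (by omega) (F := F) t2
      (hbd τ t1 t2) t3 (far_of_sd hfar (by omega)) hqB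
    refine ⟨(τ + i, τ + j), ⟨(D.walk F τ).1, t3, ?_⟩, ?_, ?_, ?_, g3, ?_, g5⟩
    · intro r hr1 hr2
      simp only at hr1 hr2
      have h6 := hin (r - τ) (by omega)
      rwa [Nat.add_sub_cancel' (by omega)] at h6
    · simp only
      omega
    · simp only
      omega
    · simp only
      omega
    · simp only
      rw [Nat.add_sub_add_left]
      exact g4
  choose! zf hzf using hz
  have hcommon : ∀ q ∈ G2, ∀ q' ∈ G2, q ≠ q' → (zf q).2 < (zf q').1 ∨ (zf q').2 < (zf q).1 := by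
    intro q hq q' hq' hne
    obtain ⟨⟨u, hu1, hu2⟩, a1, a2, -⟩ := hzf q hq
    obtain ⟨⟨u', hu1', hu2'⟩, b1, b2, -⟩ := hzf q' hq'
    have h7 : (7 : ℤ) ≤ sd q q' := TH992.L.cls_far (by
      rw [(mem_filter.mp hq).2, (mem_filter.mp hq').2]) hne
    have h8 := blocks_far hL0 hu1 hu1' h7
    by_contra hcon
    push Not at hcon
    obtain ⟨r, hr⟩ : ∃ r, r = max (zf q).1 (zf q').1 := ⟨_, rfl⟩
    have r1 := hu2 r (by omega) (by omega)
    have r2 := hu2' r (by omega) (by omega)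
    have t1 : sd u u' ≤ sd u (D.walk F r).1 + sd (D.walk F r).1 u' := H984H.det_sd_tri _ _ _
    have t3 : sd (D.walk F r).1 u' = sd u' (D.walk F r).1 := H984H.det_sd_comm _ _
    generalize sd u u' = x1 at *
    generalize sd u (D.walk F r).1 = x2 at *
    generalize sd (D.walk F r).1 u' = x3 at *
    generalize sd u' (D.walk F r).1 = x4 at *
    clear hn hbd hc c6 c5 c4 c2 hA hA2 hNm hu2 hu2' hr hcon
    omega
  refine ⟨G2.image zf, ?_, ?_, ?_⟩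
  · rw [card_image_of_injOn]
    · omega
    · intro q hq q' hq' h
      by_contra hne
      have h1 := hcommon q hq q' hq' hne
      obtain ⟨-, -, a2, -⟩ := hzf q hq
      obtain ⟨-, -, b2, -⟩ := hzf q' hq'
      rw [h] at h1 a2
      omega
  · intro z hz z' hz' hne
    rw [mem_image] at hz hz'
    obtain ⟨q, hq, rfl⟩ := hz
    obtain ⟨q', hq', rfl⟩ := hz'
    exact hcommon q hq q' hq' (fun h => hne (by rw [h]))
  · intro z hz
    rw [mem_image] at hz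
    obtain ⟨q, hq, rfl⟩ := hz
    exact (hzf q hq).2

theorem manyh : S_MANYH := by
  classical
  intro c C hc hC hL hU
  obtain ⟨θ, K3, hθ, hK3, htr⟩ := trH hc hC hL hU
  obtain ⟨C1, hC1, hlow⟩ := lowH
  obtain ⟨Γ, hΓ, htri⟩ := trials (η := (1/648) ^ 196) hC1 (by positivity)
  obtain ⟨K1, hK1, hheavy⟩ := heavy_pr hC hU
  refine ⟨θ, K3, 2700 * Γ, K1, hθ, hK3, by linarith, hK1, ?_⟩
  intro m a kk ha ham hmk hkk hm5
  obtain ⟨Kt, hKt2, hKt, hbd⟩ := htri (K3 * (kk:ℝ)) (by positivity)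
  obtain ⟨R, hR⟩ : ∃ R : ℤ, R = 121 * m * Kt + m + 2 := ⟨_, rfl⟩
  obtain ⟨L, hLd⟩ : ∃ L : ℤ, L = 3 * R + 60 * m := ⟨_, rfl⟩
  have hm5z : (5 : ℤ) ≤ m := by exact_mod_cast hm5
  have hmK : (0 : ℤ) ≤ 121 * m * Kt := by positivity
  have hL0 : 0 < L := by omega
  obtain ⟨W, hWd⟩ : ∃ W : ℕ, W = (2 * L).toNat := ⟨_, rfl⟩
  have hW : (W : ℤ) = 2 * L := by omega
  have hW1 : 1 ≤ W := by omega
  obtain ⟨n, hnd⟩ : ∃ n : ℕ, n = (4 * L).toNat := ⟨_, rfl⟩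
  have hn : (n : ℤ) = 4 * L := by omega
  have hm0 : (0 : ℝ) < m := by
    have : 0 < m := by omega
    exact_mod_cast this
  have hm5r : (5 : ℝ) ≤ m := by exact_mod_cast hm5
  have hKt2r : (2 : ℝ) ≤ Kt := by exact_mod_cast hKt2
  have hmKt : (m : ℝ) * 2 ≤ m * Kt := mul_le_mul_of_nonneg_left hKt2r hm0.le
  have hLr : (L : ℝ) = 363 * (m * Kt) + 63 * m + 6 := by
    rw [hLd, hR]; push_cast; ring
  have hWr : (W : ℝ) = 2 * (L : ℝ) := by exact_mod_cast hW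
  have hnr : (n : ℝ) = 4 * (L : ℝ) := by exact_mod_cast hn
  obtain ⟨M, hM⟩ : ∃ M : ℝ, M = θ * kk * (a : ℝ) ^ (7/4 : ℝ) := ⟨_, rfl⟩
  have hkk0 : (0 : ℝ) < kk := by
    have : 0 < kk := by omega
    exact_mod_cast this
  rw [← hM]
  have hg := gH_good m M
  have hlw := hlow m (Qh a m kk M) (gH m M) hg n m Kt (Real.exp (-(K3 * (kk:ℝ)))) R hm5
    (by omega) (Real.exp_le_one_iff.mpr (by
      have : 0 ≤ K3 * (kk:ℝ) := by positivity
      linarith)) (Qh_loc ha ham) (Qh_det ha ham hmk)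
    (fun b' c' A y0 => by rw [hM]; exact htr a m kk ha ham hmk hkk _ A y0) (by rw [hR])
  have hsmall : C1 * ((n:ℝ) / m + 1) ^ 2 * (1 - Real.exp (-(K3 * (kk:ℝ)))) ^ (Kt - 1) ≤
      (1/648) ^ 196 := by
    refine le_trans ?_ hbd
    have h1 : (n:ℝ) / m + 1 ≤ 1710 * Kt := by
      have h2 : (n:ℝ) / m ≤ 1452 * Kt + 257 := by
        rw [div_le_iff₀ hm0, hnr, hLr]
        nlinarith
      linarith
    have h0 : 0 ≤ (n:ℝ) / m + 1 := by positivity
    have h2 : ((n:ℝ) / m + 1) ^ 2 ≤ (1710 * (Kt : ℝ)) ^ 2 := pow_le_pow_left₀ h0 h1 2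
    have h3 : Real.exp (-(K3 * (kk:ℝ))) ≤ 1 := by
      rw [Real.exp_le_one_iff]
      have : 0 ≤ K3 * (kk:ℝ) := by positivity
      linarith
    exact mul_le_mul_of_nonneg_right (mul_le_mul_of_nonneg_left h2 hC1.le)
      (pow_nonneg (by linarith) _)
  refine ⟨W, L, hW, by omega, ?_, ?_⟩
  · rw [hWr, hLr]
    have h1 : (m : ℝ) * Kt ≤ m * (3 * Γ * Real.exp (2 * (K3 * (kk:ℝ)))) :=
      mul_le_mul_of_nonneg_left hKt hm0.le
    calc 2 * (363 * ((m : ℝ) * Kt) + 63 * m + 6) ≤ 900 * (m * Kt) := by nlinarith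
      _ ≤ 900 * (m * (3 * Γ * Real.exp (2 * (K3 * (kk:ℝ))))) :=
          mul_le_mul_of_nonneg_left h1 (by norm_num)
      _ = _ := by ring
  · intro D hD N hN
    have hbf : BF D W 0 (BdH (gH m M) R L D) :=
      bdH_BF hg hW hL0 hn hLd (hlw.trans hsmall)
    obtain ⟨Nm, hNm⟩ := len_bdd D
    have hWr0 : (0:ℝ) < (W:ℝ) := by exact_mod_cast hW1
    have hWp : (0:ℝ) < (W:ℝ) ^ (7/4 : ℝ) := Real.rpow_pos_of_pos hWr0 _
    have hdet : ∀ F ⊆ D.edges, FewH D L W m N K1 M F → ∃ q ∈ SB D W,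
        Heavy D W K1 N Nm q F ∨ HolesB D W (BdH (gH m M) R L D) N Nm q F := by
      intro F hF hfew
      by_contra hcon
      push Not at hcon
      obtain ⟨k, l, hkl, hl, hbulk, hlong, hno⟩ := hfew
      obtain ⟨hn1, hn2⟩ := hcon _ (bk_SB hD hF hW1 k)
      have hNm' := hNm F hF
      have h1 := up_det hD hF hW1 (K := K1) (N0 := N) hNm' hkl hl hn1
      have h2 : 98 * N < max (vb D W F k l).card N := by
        have h3 := lt_of_lt_of_le hlong h1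
        have h4 := lt_of_mul_lt_mul_left h3 hWp.le
        have h5 := lt_of_mul_lt_mul_left h4 hK1.le
        exact_mod_cast h5
      have h3 : 98 * N < (vb D W F k l).card := by omega
      obtain ⟨Z, z1, z2, z3⟩ := manyH_det hD hF hW (by omega : 1 ≤ R) (by omega) hNm' hkl hl hbulk
        hn2 (by omega) (by omega)
      exact hno ⟨Z, by omega, z2, z3⟩
    refine (Pr_mono two_ok hdet).trans ?_
    refine (Pr_exists_le two_ok _ _ _).trans ?_
    refine (sum_le_card_nsmul _ _ (20 * (1/2) ^ N) fun q _ => ?_).trans ?_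
    · refine (Pr_or_le two_ok _ _ _).trans ?_
      have h1 := hheavy D W hW1 N Nm q
      have h2 := holesB_pr hW1 hbf N Nm q
      unfold P at h1
      linarith
    · rw [nsmul_eq_mul]

end Pool.Agent.J4H99.PK
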