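import Pool.Agent.H984R3.Per.Defs
import Pool.Agent.H974R2.Circ
import Pool.Agent.H974R2.RSW2

/-!
Project PK: an open circuit blocks closed dual paths, and conversely.
-/

set_option autoImplicit false

namespace Pool.Agent.J4H99.PK

open H974 Finset H342P H984P

/-- An open left-right crossing blocks dual top-bottom paths. -/
theorem cutD_TB {F : Set Edg} {a b c d y y' : ℤ} (hcd : c ≤ d)
    (hy' : c ≤ y' ∧ y' ≤ d) (h1 : Reach (F ∩ ↑(LRE a b c d)) (a, y) (b, y')) {G : Set Edg}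
    (hG : ∀ e ∈ G, e ∉ F ∧ (a ≤ (dsrc e).1 ∧ (dsrc e).1 ≤ b - 1) ∧
      (a ≤ (dtgt e).1 ∧ (dtgt e).1 ≤ b - 1)) {u v : Vtx} (h : DReach G u v)
    (hu : u.2 ≤ c - 1) (hv : d ≤ v.2) : False := by
  have hr' := reach_dl.2 h
  obtain ⟨x1, x2, hx1, hx2, h3, -⟩ := sub_TB (a := a) (b := b - 1) (c := c - 1) (d := d)
    (by omega) (by
      rintro x y ⟨e, h, he⟩ _ _
      have he' : e = dl.symm (x, y, false) := by rw [← he]; simp
      rw [dls_f] at he'
      subst he'
      have := hG _ h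
      simp only [dsrc_true, dtgt_mk] at this
      omega) (by
      rintro x y ⟨e, h, he⟩ _ _
      have he' : e = dl.symm (x, y, true) := by rw [← he]; simp
      rw [dls_t] at he'
      subst he'
      have := hG _ h
      simp only [dsrc_false, dtgt_mk] at this
      omega) hr' (by omega) hv
  have h4 : DReach (Fᶜ ∩ ↑(LRE a b c d)) (x1, c - 1) (x2, d) := by
    rw [← reach_dl]
    refine h3.mono ?_
    rintro e' ⟨⟨e, h, he⟩, h'⟩
    refine ⟨e, ⟨(hG e h).1, ?_⟩, he⟩
    rw [← he] at h'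
    obtain ⟨x, y, _ | _⟩ := e
    · simp only [mem_coe, dl_f, mem_TBE_true] at h'
      simp only [mem_coe, mem_LRE_false]
      omega
    · simp only [mem_coe, dl_t, mem_TBE_false] at h'
      simp only [mem_coe, mem_LRE_true]
      omega
  exact no_both (F := F) hcd hy' (by omega) h1 h4

/-- An open top-bottom crossing blocks dual left-right paths. -/
theorem cutD_LR {F : Set Edg} {a b c d x x' : ℤ} (hab : a ≤ b)
    (hx' : a ≤ x' ∧ x' ≤ b) (h1 : Reach (F ∩ ↑(TBE a b c d)) (x, c) (x', d)) {G : Set Edg}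
    (hG : ∀ e ∈ G, e ∉ F ∧ (c ≤ (dsrc e).2 ∧ (dsrc e).2 ≤ d - 1) ∧
      (c ≤ (dtgt e).2 ∧ (dtgt e).2 ≤ d - 1)) {u v : Vtx} (h : DReach G u v)
    (hu : u.1 ≤ a - 1) (hv : b ≤ v.1) : False := by
  have hr' := reach_dl.2 h
  obtain ⟨y1, y2, hy1, hy2, h3, -⟩ := sub_LR (a := a - 1) (b := b) (c := c) (d := d - 1)
    (by omega) (by
      rintro x y ⟨e, h, he⟩ _ _
      have he' : e = dl.symm (x, y, true) := by rw [← he]; simp
      rw [dls_t] at he'
      subst he'
      have := hG _ h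
      simp only [dsrc_false, dtgt_mk] at this
      omega) (by
      rintro x y ⟨e, h, he⟩ _ _
      have he' : e = dl.symm (x, y, false) := by rw [← he]; simp
      rw [dls_f] at he'
      subst he'
      have := hG _ h
      simp only [dsrc_true, dtgt_mk] at this
      omega) hr' (by omega) hv
  have h4 : DReach (Fᶜ ∩ ↑(TBE a b c d)) (a - 1, y1) (b, y2) := by
    rw [← reach_dl]
    refine h3.mono ?_
    rintro e' ⟨⟨e, h, he⟩, h'⟩
    refine ⟨e, ⟨(hG e h).1, ?_⟩, he⟩
    rw [← he] at h'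
    obtain ⟨x, y, _ | _⟩ := e
    · simp only [mem_coe, dl_f, mem_LRE_true] at h'
      simp only [mem_coe, mem_TBE_false]
      omega
    · simp only [mem_coe, dl_t, mem_LRE_false] at h'
      simp only [mem_coe, mem_TBE_true]
      omega
  exact no_both_TB (F := F) hab hx' (by omega) h1 h4

/-- A closed dual left-right crossing blocks open top-bottom paths. -/
theorem cutP_TB {F : Set Edg} {P Q c d yc yb : ℤ} (hPQ : P + 1 ≤ Q)
    (hcd : c ≤ d) (hyc : c ≤ yc ∧ yc ≤ d)
    (hU : DReach (dE (LRE P Q c d) \ F) (P, yc) (Q, yb)) {G : Set Edg}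
    (hG : ∀ e ∈ G, e ∈ F ∧ (P + 1 ≤ (src e).1 ∧ (src e).1 ≤ Q) ∧
      (P + 1 ≤ (tgt e).1 ∧ (tgt e).1 ≤ Q)) {u v : Vtx} (h : Reach G u v)
    (hu : u.2 ≤ c) (hv : d + 1 ≤ v.2) : False := by
  obtain ⟨x1, x2, hx1, hx2, h3, -⟩ := sub_TB (a := P + 1) (b := Q) (c := c) (d := d + 1)
    (by omega) (by
      rintro x y h _ _
      have := hG _ h
      simp only [src_mk, tgt_false] at this
      omega) (by
      rintro x y h _ _
      have := hG _ h
      simp only [src_mk, tgt_true] at this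
      omega) h hu (by omega)
  refine no_both_TB (F := F) (a := P + 1) (b := Q) (c := c) (d := d + 1) (y := yc) (y' := yb)
    hPQ hx2 (by omega) (h3.mono ?_) ?_
  · rintro e ⟨h, h'⟩
    exact ⟨(hG e h).1, h'⟩
  · have e1 : P + 1 - 1 = P := by ring
    rw [e1]
    refine hU.mono ?_
    rintro ⟨x, y, _ | _⟩ ⟨h, h'⟩
    · refine ⟨h', ?_⟩
      simp only [dE, Set.mem_ofPred_eq, dl_f, mem_LRE_true] at h
      simp only [mem_coe, mem_TBE_false]
      omega
    · refine ⟨h', ?_⟩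
      simp only [dE, Set.mem_ofPred_eq, dl_t, mem_LRE_false] at h
      simp only [mem_coe, mem_TBE_true]
      omega

/-- A closed dual top-bottom crossing blocks open left-right paths. -/
theorem cutP_LR {F : Set Edg} {a b P Q xc xb : ℤ} (hPQ : P + 1 ≤ Q)
    (hab : a ≤ b) (hxc : a ≤ xc ∧ xc ≤ b)
    (hU : DReach (dE (TBE a b P Q) \ F) (xc, P) (xb, Q)) {G : Set Edg}
    (hG : ∀ e ∈ G, e ∈ F ∧ (P + 1 ≤ (src e).2 ∧ (src e).2 ≤ Q) ∧
      (P + 1 ≤ (tgt e).2 ∧ (tgt e).2 ≤ Q)) {u v : Vtx} (h : Reach G u v)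
    (hu : u.1 ≤ a) (hv : b + 1 ≤ v.1) : False := by
  obtain ⟨y1, y2, hy1, hy2, h3, -⟩ := sub_LR (a := a) (b := b + 1) (c := P + 1) (d := Q)
    (by omega) (by
      rintro x y h _ _
      have := hG _ h
      simp only [src_mk, tgt_true] at this
      omega) (by
      rintro x y h _ _
      have := hG _ h
      simp only [src_mk, tgt_false] at this
      omega) h hu (by omega)
  refine no_both (F := F) (a := a) (b := b + 1) (c := P + 1) (d := Q) (x := xc) (x' := xb)
    hPQ hy2 (by omega) (h3.mono ?_) ?_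
  · rintro e ⟨h, h'⟩
    exact ⟨(hG e h).1, h'⟩
  · have e1 : P + 1 - 1 = P := by ring
    rw [e1]
    refine hU.mono ?_
    rintro ⟨x, y, _ | _⟩ ⟨h, h'⟩
    · refine ⟨h', ?_⟩
      simp only [dE, Set.mem_ofPred_eq, dl_f, mem_TBE_true] at h
      simp only [mem_coe, mem_LRE_false]
      omega
    · refine ⟨h', ?_⟩
      simp only [dE, Set.mem_ofPred_eq, dl_t, mem_TBE_false] at h
      simp only [mem_coe, mem_LRE_true]
      omega

end Pool.Agent.J4H99.PK
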