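import Pool.Agent.Y995.TP.Cantor

/-!
Project PK: countable intersections of limsup sets (adaptation of `Pool.Agent.Y995.TP.Cantor`).
-/

set_option autoImplicit false
set_option linter.unusedVariables false

namespace Pool.Agent.J4H99.PK

open MeasureTheory Filter Topology
open Pool.Agent.Y995.TP (Ubi cost step_ex)
open scoped ENNReal NNReal

theorem no_cover_m {s : ℝ} (hs : 0 < s) {A : ℕ → ℕ → Set ℝ} {a b : ℝ} (hab : a < b)
    (h : ∀ i, Ubi s (A i) a b) {z d : ℕ → ℝ} (hd : ∀ n, 0 < d n)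
    (hcost : cost s z d (Set.Icc a b) ≤ ENNReal.ofReal ((b - a) ^ s / 18)) :
    ∃ p : ℝ, (p ∈ Set.Icc a b ∧ ∀ i, ∃ᶠ j in atTop, p ∈ A i j) ∧
      ∀ n, p ∉ Set.Icc (z n) (z n + d n) := by
  classical
  obtain ⟨Inv, hInv⟩ : ∃ Inv : ℝ × ℝ × ℕ → Prop, Inv = fun q => a ≤ q.1 ∧ q.1 < q.2.1 ∧ q.2.1 ≤ b ∧
    cost s z d (Set.Icc q.1 q.2.1) ≤ ENNReal.ofReal ((q.2.1 - q.1) ^ s / 18) := ⟨_, rfl⟩
  have hInv' : ∀ q, Inv q → a ≤ q.1 ∧ q.1 < q.2.1 ∧ q.2.1 ≤ b ∧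
    cost s z d (Set.Icc q.1 q.2.1) ≤ ENNReal.ofReal ((q.2.1 - q.1) ^ s / 18) := by
    intro q hq
    rw [hInv] at hq
    exact hq
  have hstep : ∀ (i : ℕ) (q : {q // Inv q}), ∃ q' : {q // Inv q}, q.1.2.2 < q'.1.2.2 ∧
      q.1.1 ≤ q'.1.1 ∧
      q'.1.2.1 ≤ q.1.2.1 ∧ 2 * (q'.1.2.1 - q'.1.1) ≤ q.1.2.1 - q.1.1 ∧
      Set.Icc q'.1.1 q'.1.2.1 ⊆ A i q'.1.2.2 := by
    rintro i ⟨⟨x, y, j⟩, hq⟩
    have hq' := hq
    rw [hInv] at hq'
    obtain ⟨h1, h2, h3, h4⟩ := hq'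
    obtain ⟨j', x', y', g1, g2, g3, g4, g5, g6, g7⟩ := step_ex hs (h i) hd h1 h2 h3 h4 (j + 1)
    refine ⟨⟨(x', y', j'), ?_⟩, ?_, g2, g4, g5, g6⟩
    · rw [hInv]
      exact ⟨h1.trans g2, g3, g4.trans h3, g7⟩
    · show j < j'
      omega
  choose nx hn1 hn2 hn3 hn4 hn5 using hstep
  have h0 : Inv (a, b, 0) := by
    rw [hInv]
    exact ⟨le_rfl, hab, le_rfl, hcost⟩
  obtain ⟨S, hS0', hSn⟩ : ∃ S : ℕ → {q // Inv q}, S 0 = ⟨(a, b, 0), h0⟩ ∧
      ∀ n, S (n + 1) = nx (Nat.unpair n).1 (S n) :=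
    ⟨fun n => Nat.rec ⟨(a, b, 0), h0⟩ (fun n q => nx (Nat.unpair n).1 q) n, rfl, fun n => rfl⟩
  have hS0 : (S 0).1 = (a, b, 0) := by rw [hS0']
  have hprop : ∀ n, Inv (S n).1 := fun n => (S n).2
  have hx : Monotone (fun n => (S n).1.1) := monotone_nat_of_le_succ fun n => by
    rw [hSn]; exact hn2 _ (S n)
  have hy : Antitone (fun n => (S n).1.2.1) := antitone_nat_of_succ_le fun n => by
    rw [hSn]; exact hn3 _ (S n)
  have hj : StrictMono (fun n => (S n).1.2.2) := strictMono_nat_of_lt_succ fun n => by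
    rw [hSn]; exact hn1 _ (S n)
  have hlt : ∀ n, (S n).1.1 < (S n).1.2.1 := fun n => (hInv' _ (hprop n)).2.1
  have hxy : ∀ m n, (S m).1.1 ≤ (S n).1.2.1 := by
    intro m n
    have h1 : (S m).1.1 ≤ (S (max m n)).1.1 := hx (le_max_left _ _)
    have h2 : (S (max m n)).1.2.1 ≤ (S n).1.2.1 := hy (le_max_right _ _)
    exact h1.trans ((hlt _).le.trans h2)
  obtain ⟨p, hp⟩ : ∃ p : ℝ, p = ⨆ n, (S n).1.1 := ⟨_, rfl⟩
  have hbdd : BddAbove (Set.range fun n => (S n).1.1) := ⟨(S 0).1.2.1, by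
    rintro _ ⟨m, rfl⟩
    exact hxy m 0⟩
  have hpm : ∀ n, p ∈ Set.Icc (S n).1.1 (S n).1.2.1 := by
    intro n
    constructor
    · rw [hp]; exact le_ciSup hbdd n
    · rw [hp]; exact ciSup_le fun m => hxy m n
  have hlen : ∀ n, (S n).1.2.1 - (S n).1.1 ≤ (b - a) / 2 ^ n := by
    intro n
    induction n with
    | zero => rw [hS0]; simp
    | succ n ih =>
      have h1 := hn4 (Nat.unpair n).1 (S n)
      rw [← hSn] at h1
      have h2 : (b - a) / 2 ^ (n + 1) = (b - a) / 2 ^ n / 2 := by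
        rw [pow_succ]; field_simp
      rw [h2]
      linarith
  refine ⟨p, ⟨?_, fun i => ?_⟩, fun m hm => ?_⟩
  · have := hpm 0
    rw [hS0] at this
    exact this
  · rw [frequently_atTop]
    intro N
    obtain ⟨n, hn⟩ : ∃ n, n = Nat.pair i N := ⟨_, rfl⟩
    have hnN : N ≤ n := by rw [hn]; exact Nat.right_le_pair i N
    have hni : (Nat.unpair n).1 = i := by rw [hn, Nat.unpair_pair]
    refine ⟨(S (n + 1)).1.2.2, ?_, ?_⟩
    · have h1 : n + 1 ≤ (S (n + 1)).1.2.2 := hj.id_le (n + 1)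
      omega
    · have h1 := hn5 (Nat.unpair n).1 (S n)
      rw [← hSn, hni] at h1
      exact h1 (hpm (n + 1))
  · obtain ⟨n, hn⟩ : ∃ n : ℕ, (b - a) / 2 ^ n < d m := by
      obtain ⟨n, hn⟩ := pow_unbounded_of_one_lt ((b - a) / d m) (by norm_num : (1:ℝ) < 2)
      refine ⟨n, ?_⟩
      rw [div_lt_iff₀ (by positivity)]
      rwa [div_lt_iff₀ (hd m), mul_comm] at hn
    obtain ⟨-, h2, -, h3⟩ := hInv' _ (hprop n)
    have h4 : ENNReal.ofReal (d m ^ s) ≤ cost s z d (Set.Icc (S n).1.1 (S n).1.2.1) := by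
      unfold cost
      refine le_trans ?_ (ENNReal.le_tsum m)
      rw [if_pos ⟨p, hpm n, hm⟩]
    have h5 := h4.trans h3
    have hl0 : 0 < (S n).1.2.1 - (S n).1.1 := by linarith
    rw [ENNReal.ofReal_le_ofReal_iff (by positivity)] at h5
    have h6 : d m ^ s ≤ ((S n).1.2.1 - (S n).1.1) ^ s := by
      have : 0 ≤ ((S n).1.2.1 - (S n).1.1) ^ s := by positivity
      linarith
    have h7 : d m ≤ (S n).1.2.1 - (S n).1.1 := (Real.rpow_le_rpow_iff (hd m).le hl0.le hs).1 h6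
    have := hlen n
    linarith

theorem cantor_m {s : ℝ} (hs : 0 < s) (hs1 : s ≤ 1) {A : ℕ → ℕ → Set ℝ} {a b : ℝ} (hab : a < b)
    (h : ∀ i, Ubi s (A i) a b) :
    ENNReal.ofReal s ≤ dimH {x | x ∈ Set.Icc a b ∧ ∀ i, ∃ᶠ j in atTop, x ∈ A i j} := by
  classical
  obtain ⟨E, hE⟩ : ∃ E : Set ℝ, E = {x | x ∈ Set.Icc a b ∧ ∀ i, ∃ᶠ j in atTop, x ∈ A i j} :=
    ⟨_, rfl⟩
  rw [← hE]
  refine le_dimH_of_hausdorffMeasure_ne_zero (d := s.toNNReal) fun h0 => ?_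
  rw [Real.coe_toNNReal s hs.le] at h0
  obtain ⟨c0, hc0⟩ : ∃ c0 : ℝ, c0 = (b - a) ^ s / 60 := ⟨_, rfl⟩
  have hba : 0 < (b - a) ^ s := Real.rpow_pos_of_pos (by linarith) _
  have hc00 : 0 < c0 := by rw [hc0]; positivity
  have h1 : (⨅ (t : ℕ → Set ℝ) (_ : E ⊆ ⋃ n, t n) (_ : ∀ n, Metric.ediam (t n) ≤ 1),
      ∑' n, ⨆ _ : (t n).Nonempty, Metric.ediam (t n) ^ s) < ENNReal.ofReal c0 := by
    have h2 := le_iSup₂ (f := fun (r : ℝ≥0∞) (_ : 0 < r) =>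
      ⨅ (t : ℕ → Set ℝ) (_ : E ⊆ ⋃ n, t n) (_ : ∀ n, Metric.ediam (t n) ≤ r),
      ∑' n, ⨆ _ : (t n).Nonempty, Metric.ediam (t n) ^ s) 1 one_pos
    rw [← Measure.hausdorffMeasure_apply, h0] at h2
    exact lt_of_le_of_lt h2 (ENNReal.ofReal_pos.mpr hc00)
  rw [iInf_lt_iff] at h1
  obtain ⟨t, h1⟩ := h1
  rw [iInf_lt_iff] at h1
  obtain ⟨hcov, h1⟩ := h1
  rw [iInf_lt_iff] at h1
  obtain ⟨hdi, hsum⟩ := h1
  obtain ⟨D, hD⟩ : ∃ D : ℕ → ℝ, D = fun n => (Metric.ediam (t n)).toReal := ⟨_, rfl⟩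
  have hD0 : ∀ n, 0 ≤ D n := fun n => by rw [hD]; exact ENNReal.toReal_nonneg
  have hfin : ∀ n, Metric.ediam (t n) ≠ ⊤ := fun n =>
    ne_top_of_le_ne_top ENNReal.one_ne_top (hdi n)
  obtain ⟨pt, hpt⟩ : ∃ pt : ℕ → ℝ, ∀ n, ∀ x ∈ t n, |x - pt n| ≤ D n := by
    have : ∀ n, ∃ q : ℝ, ∀ x ∈ t n, |x - q| ≤ D n := by
      intro n
      rcases (t n).eq_empty_or_nonempty with h2 | ⟨q, hq⟩
      · exact ⟨0, fun x hx => by rw [h2] at hx; exact absurd hx (Set.notMem_empty _)⟩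
      · refine ⟨q, fun x hx => ?_⟩
        have h2 : edist x q ≤ Metric.ediam (t n) := Metric.edist_le_ediam_of_mem hx hq
        have h3 := ENNReal.toReal_mono (hfin n) h2
        rw [← Real.dist_eq, dist_edist, hD]
        exact h3
    choose pt hpt using this
    exact ⟨pt, hpt⟩
  obtain ⟨e, he⟩ : ∃ e : ℕ → ℝ, e = fun n => (c0 * (1/2) ^ (n + 1)) ^ (1 / s) := ⟨_, rfl⟩
  have he0 : ∀ n, 0 < e n := fun n => by rw [he]; positivity
  have hes : ∀ n, e n ^ s = c0 * (1/2) ^ (n + 1) := fun n => by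
    rw [he]
    simp only
    rw [← Real.rpow_mul (by positivity), one_div_mul_cancel hs.ne', Real.rpow_one]
  obtain ⟨z, hz⟩ : ∃ z : ℕ → ℝ, z = fun n => pt n - D n := ⟨_, rfl⟩
  obtain ⟨d, hd⟩ : ∃ d : ℕ → ℝ, d = fun n => 2 * D n + e n := ⟨_, rfl⟩
  have hd0 : ∀ n, 0 < d n := fun n => by
    rw [hd]
    have := hD0 n
    have := he0 n
    simp only
    linarith
  have hterm : ∀ n, ENNReal.ofReal (d n ^ s) ≤
      2 * (⨆ _ : (t n).Nonempty, Metric.ediam (t n) ^ s) + ENNReal.ofReal (c0 * (1/2) ^ (n + 1)) := by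
    intro n
    have h2 : d n ^ s ≤ 2 * D n ^ s + e n ^ s := by
      rw [hd]
      refine (Real.rpow_add_le_add_rpow (by have := hD0 n; positivity) (he0 n).le hs.le
        hs1).trans ?_
      have h3 : (2 * D n) ^ s ≤ 2 * D n ^ s := by
        rw [Real.mul_rpow (by norm_num) (hD0 n)]
        refine mul_le_mul_of_nonneg_right ?_ (Real.rpow_nonneg (hD0 n) _)
        calc (2:ℝ) ^ s ≤ 2 ^ (1:ℝ) := Real.rpow_le_rpow_of_exponent_le (by norm_num) hs1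
          _ = 2 := Real.rpow_one 2
      linarith
    refine (ENNReal.ofReal_le_ofReal h2).trans ?_
    rw [ENNReal.ofReal_add (by have := Real.rpow_nonneg (hD0 n) s; positivity)
      (Real.rpow_nonneg (he0 n).le _), hes]
    refine add_le_add ?_ le_rfl
    rw [ENNReal.ofReal_mul (by norm_num)]
    have e2 : ENNReal.ofReal 2 = 2 := by norm_num
    rw [e2]
    refine mul_le_mul_right ?_ _
    rcases (t n).eq_empty_or_nonempty with h3 | h3
    · have h4 : D n = 0 := by rw [hD]; simp only; rw [h3, Metric.ediam_empty]; rfl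
      rw [h4, Real.zero_rpow hs.ne', ENNReal.ofReal_zero]
      exact zero_le
    · rw [ciSup_pos h3, ← ENNReal.ofReal_rpow_of_nonneg (hD0 n) hs.le, hD]
      simp only
      rw [ENNReal.ofReal_toReal (hfin n)]
  have hcost : cost s z d (Set.Icc a b) ≤ ENNReal.ofReal ((b - a) ^ s / 18) := by
    have h2 : cost s z d (Set.Icc a b) ≤ ∑' n, ENNReal.ofReal (d n ^ s) := by
      unfold cost
      refine ENNReal.tsum_le_tsum fun n => ?_
      split_ifs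
      · exact le_rfl
      · exact zero_le
    refine h2.trans ((ENNReal.tsum_le_tsum hterm).trans ?_)
    rw [ENNReal.tsum_add, ENNReal.tsum_mul_left]
    have h3 : ∑' n, ENNReal.ofReal (c0 * (1/2) ^ (n + 1)) = ENNReal.ofReal c0 := by
      have h4 : HasSum (fun n : ℕ => c0 * ((1:ℝ)/2) ^ (n + 1)) c0 := by
        have h5 : HasSum (fun n : ℕ => ((1:ℝ)/2) ^ (n + 1)) 1 := by
          have h6 := (hasSum_geometric_two).mul_left (1/2 : ℝ)
          have e3 : (1/2 : ℝ) * 2 = 1 := by norm_num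
          rw [e3] at h6
          refine h6.congr_fun ?_ |> fun x => x
          intro n
          rw [pow_succ]; ring
        have h6 := h5.mul_left c0
        rwa [mul_one] at h6
      rw [← ENNReal.ofReal_tsum_of_nonneg (fun n => by positivity) h4.summable, h4.tsum_eq]
    rw [h3]
    have h4 : 2 * (∑' n, ⨆ _ : (t n).Nonempty, Metric.ediam (t n) ^ s) ≤
        2 * ENNReal.ofReal c0 := mul_le_mul_right hsum.le _
    refine (add_le_add h4 le_rfl).trans ?_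
    have e2 : (2 : ℝ≥0∞) = ENNReal.ofReal 2 := by norm_num
    rw [e2, ← ENNReal.ofReal_mul (by norm_num), ← ENNReal.ofReal_add (by positivity) hc00.le]
    refine ENNReal.ofReal_le_ofReal ?_
    rw [hc0]
    linarith
  obtain ⟨p, hp1, hp2⟩ := no_cover_m hs hab h hd0 hcost
  have hpE : p ∈ E := by rw [hE]; exact hp1
  obtain ⟨n, hn⟩ := Set.mem_iUnion.1 (hcov hpE)
  have h2 := hpt n p hn
  rw [abs_le] at h2
  refine hp2 n ?_
  rw [hz, hd]
  have := he0 n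
  constructor
  · simp only; linarith
  · simp only; linarith

end Pool.Agent.J4H99.PK
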