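import Pool.Agent.Y995.FS.FastPr
import Pool.Agent.J4H99.PK.LowH
import Pool.Agent.H984R3.Per.UpPi

/-!
Project PK: the property of the trials: a fast piece whose starting point has few corners with two
arms nearby.
-/

set_option autoImplicit false

namespace Pool.Agent.J4H99.PK

open H974 Finset H342P H984P H984N TH992.T Pool.Agent.Y995.FS

/-- vertices at distance at most `8 m` from `x` -/
noncomputable def bx (m : ℕ) (x : Vtx) : Finset Vtx :=
  Finset.Icc (x.1 - 8 * m) (x.1 + 8 * m) ×ˢ Finset.Icc (x.2 - 8 * m) (x.2 + 8 * m)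

open Classical in
/-- the corners near `x` with two arms to distance `40 m` -/
noncomputable def nst (m : ℕ) (x : Vtx) (F : Set Edg) : Finset St :=
  (bx m x ×ˢ (Finset.univ : Finset Q4)).filter (fun σ => Two σ.1 (face σ) (40 * m) F)

theorem mem_nst {m : ℕ} {x : Vtx} {F : Set Edg} {σ : St} :
    σ ∈ nst m x F ↔ ((x.1 - 8 * m ≤ σ.1.1 ∧ σ.1.1 ≤ x.1 + 8 * m) ∧
      (x.2 - 8 * m ≤ σ.1.2 ∧ σ.1.2 ≤ x.2 + 8 * m)) ∧ Two σ.1 (face σ) (40 * m) F := by
  classical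
  unfold nst bx
  rw [mem_filter, mem_product, mem_product, mem_Icc, mem_Icc]
  simp

/-- A fast piece (extent at least `20 m` in at most `N` steps) whose starting point has at most `N`
corners with two arms nearby. -/
def gH (m : ℕ) (N : ℝ) (F : Set Edg) (x : ℕ → Vtx) (t : ℕ) : Prop :=
  ∃ i j, i ≤ j ∧ j ≤ t ∧ 20 * (m : ℤ) ≤ sd (x i) (x j) ∧ ((j - i : ℕ) : ℝ) ≤ N ∧
    ((nst m (x i) F).card : ℝ) ≤ N

theorem rot_two {u f : Vtx} {m : ℤ} {F : Finset Edg} :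
    Two (rV u) (rF f) m (↑(rM F) : Set Edg) ↔ Two u f m (↑F : Set Edg) := by
  unfold Two
  constructor
  · rintro ⟨⟨w, hw, hr⟩, g, hg, hd⟩
    refine ⟨⟨rV.symm w, ?_, ?_⟩, rF.symm g, ?_, ?_⟩
    · unfold Far at hw ⊢
      simp only [rV, Equiv.coe_fn_mk, Equiv.coe_fn_symm_mk] at hw ⊢
      omega
    · rw [← rot_reach, Equiv.apply_symm_apply]
      exact hr
    · unfold FarF inF at hg ⊢
      simp only [rV, rF, Equiv.coe_fn_mk, Equiv.coe_fn_symm_mk] at hg ⊢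
      omega
    · rw [← rot_dreach, Equiv.apply_symm_apply]
      exact hd
  · rintro ⟨⟨w, hw, hr⟩, g, hg, hd⟩
    refine ⟨⟨rV w, ?_, rot_reach.2 hr⟩, rF g, ?_, rot_dreach.2 hd⟩
    · unfold Far at hw ⊢
      simp only [rV, Equiv.coe_fn_mk] at hw ⊢
      omega
    · unfold FarF inF at hg ⊢
      simp only [rV, rF, Equiv.coe_fn_mk] at hg ⊢
      omega

theorem rS_inj : Function.Injective rS := by
  rintro ⟨v, q⟩ ⟨v', q'⟩ h
  simp only [rS, Prod.mk.injEq] at h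
  obtain ⟨h1, h2⟩ := h
  refine Prod.ext (rV.injective h1) ?_
  cases q <;> cases q' <;> simp_all [rQ]

theorem nst_rot (m : ℕ) (x : Vtx) (F : Finset Edg) :
    (nst m x (↑F : Set Edg)).card ≤ (nst m (rV x) (↑(rM F) : Set Edg)).card := by
  refine card_le_card_of_injOn rS ?_ rS_inj.injOn
  intro σ hσ
  rw [Finset.mem_coe, mem_nst] at hσ ⊢
  obtain ⟨h1, h2⟩ := hσ
  refine ⟨?_, ?_⟩
  · simp only [rS, rV, Equiv.coe_fn_mk]
    omega
  · rw [rot_face]
    exact rot_two.2 h2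

theorem trl_two {u f : Vtx} {m b c : ℤ} {F : Finset Edg} (h : Two u f m (↑F : Set Edg)) :
    Two (u.1 + b, u.2 + c) (f.1 + b, f.2 + c) m (↑((trl b c).mp F) : Set Edg) := by
  obtain ⟨⟨w, hw1, hw2⟩, g, hg1, hg2⟩ := h
  rw [LSym.coe_mp]
  refine ⟨⟨(trl b c).ψ w, ?_, ?_⟩, (g.1 + b, g.2 + c), ?_, ?_⟩
  · obtain ⟨x, y⟩ := w
    simp only [Far, trl, Equiv.coe_fn_mk] at hw1 ⊢
    omega
  · have h1 := (trl b c).reach hw2
    have h2 : (trl b c).ψ u = (u.1 + b, u.2 + c) := by simp [trl]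
    rw [h2] at h1
    exact h1
  · unfold FarF inF at hg1 ⊢
    simp only
    omega
  · exact p22_dreach b c hg2

theorem nst_trl (m : ℕ) (x : Vtx) (b c : ℤ) (F : Finset Edg) :
    (nst m x (↑F : Set Edg)).card ≤
      (nst m (x.1 + b, x.2 + c) (↑((trl b c).mp F) : Set Edg)).card := by
  refine card_le_card_of_injOn (bulk_tS b c) ?_ ?_
  · intro σ hσ
    rw [Finset.mem_coe, mem_nst] at hσ ⊢
    obtain ⟨h1, h2⟩ := hσ
    refine ⟨?_, ?_⟩
    · simp only [bulk_tS]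
      omega
    · have e : face (bulk_tS b c σ) = ((face σ).1 + b, (face σ).2 + c) := by
        obtain ⟨⟨x, y⟩, q⟩ := σ
        cases q <;> simp only [bulk_tS, face] <;> (congr 1; try ring) <;> ring
      rw [e]
      exact trl_two h2
  · rintro ⟨⟨x1, x2⟩, q⟩ _ ⟨⟨y1, y2⟩, q'⟩ _ h
    simp only [bulk_tS, Prod.mk.injEq, add_left_inj] at h
    obtain ⟨⟨h1, h2⟩, h3⟩ := h
    rw [h1, h2, h3]

theorem nst_congr {m : ℕ} {x : Vtx} {F G : Set Edg}
    (h : ∀ e ∈ RE (x.1 - 48 * m) (x.1 + 48 * m) (x.2 - 48 * m) (x.2 + 48 * m), (e ∈ F ↔ e ∈ G)) :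
    nst m x F = nst m x G := by
  ext σ
  rw [mem_nst, mem_nst]
  refine and_congr_right fun hσ => ?_
  refine two_congr (by positivity) fun e he => h e ?_
  refine RE_sub_RE ?_ ?_ ?_ ?_ he <;> omega

theorem gH_good (m : ℕ) (N : ℝ) : FGood m (gH m N) where
  congr F x x' t h := by
    rintro ⟨i, j, h1, h2, h3, h4, h5⟩
    refine ⟨i, j, h1, h2, ?_, h4, ?_⟩
    · rw [← h i (by omega), ← h j h2]
      exact h3
    · rw [← h i (by omega)]
      exact h5
  mono F x s0 t' t h := by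
    rintro ⟨i, j, h1, h2, h3, h4, h5⟩
    refine ⟨i + s0, j + s0, by omega, by omega, h3, ?_, h5⟩
    rw [Nat.add_sub_add_right]
    exact h4
  rot F x t := by
    rintro ⟨i, j, h1, h2, h3, h4, h5⟩
    rw [sd_rV] at h3
    refine ⟨i, j, h1, h2, h3, h4, le_trans ?_ h5⟩
    exact_mod_cast nst_rot m (x i) F
  trl F x t b c := by
    rintro ⟨i, j, h1, h2, h3, h4, h5⟩
    rw [sd_trl] at h3
    refine ⟨i, j, h1, h2, h3, h4, le_trans ?_ h5⟩
    exact_mod_cast nst_trl m (x i) b c F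
  loc F G x t h := by
    rintro ⟨i, j, h1, h2, h3, h4, h5⟩
    refine ⟨i, j, h1, h2, h3, h4, ?_⟩
    rw [← nst_congr (h i (by omega))]
    exact h5

end Pool.Agent.J4H99.PK
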