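import Pool.Agent.J4H99.PK.Block
import Pool.Agent.J4H99.PK.HDef

/-!
Project PK: the two half circuits around the tube, and the number of corners with two arms near the
middle of the tube.
-/

set_option autoImplicit false

namespace Pool.Agent.J4H99.PK

open H974 Finset H342P H984P H984N TH992.T Pool.Agent.Y995.FS

/-- Open half circuit below the tube. -/
def EO (X Y : ℤ) (a m : ℕ) (F : Set Edg) : Prop :=
  (∃ y y' : ℤ, (Y - 28 * m ≤ y ∧ y ≤ Y - 20 * m) ∧ (Y - 28 * m ≤ y' ∧ y' ≤ Y - 20 * m) ∧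
    Reach (F ∩ ↑(LRE (X + 9 * m) (X + 55 * m) (Y - 28 * m) (Y - 20 * m)))
      (X + 9 * m, y) (X + 55 * m, y')) ∧
  (∃ x x' : ℤ, (X + 10 * m ≤ x ∧ x ≤ X + 18 * m) ∧ (X + 10 * m ≤ x' ∧ x' ≤ X + 18 * m) ∧
    Reach (F ∩ ↑(TBE (X + 10 * m) (X + 18 * m) (Y - 29 * m) (Y - 3 * a)))
      (x, Y - 29 * m) (x', Y - 3 * a)) ∧
  ∃ x x' : ℤ, (X + 47 * m ≤ x ∧ x ≤ X + 54 * m) ∧ (X + 47 * m ≤ x' ∧ x' ≤ X + 54 * m) ∧
    Reach (F ∩ ↑(TBE (X + 47 * m) (X + 54 * m) (Y - 29 * m) (Y - 3 * a)))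
      (x, Y - 29 * m) (x', Y - 3 * a)

/-- Closed dual half circuit above the tube. -/
def ED (X Y : ℤ) (a m : ℕ) (F : Set Edg) : Prop :=
  (∃ y y' : ℤ, (Y + 20 * m ≤ y ∧ y ≤ Y + 28 * m) ∧ (Y + 20 * m ≤ y' ∧ y' ≤ Y + 28 * m) ∧
    DReach (dE (LRE (X + 9 * m) (X + 55 * m) (Y + 20 * m) (Y + 28 * m)) \ F)
      (X + 9 * m, y) (X + 55 * m, y')) ∧
  (∃ x x' : ℤ, (X + 10 * m ≤ x ∧ x ≤ X + 18 * m) ∧ (X + 10 * m ≤ x' ∧ x' ≤ X + 18 * m) ∧
    DReach (dE (TBE (X + 10 * m) (X + 18 * m) (Y + 3 * a) (Y + 29 * m)) \ F)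
      (x, Y + 3 * a) (x', Y + 29 * m)) ∧
  ∃ x x' : ℤ, (X + 47 * m ≤ x ∧ x ≤ X + 54 * m) ∧ (X + 47 * m ≤ x' ∧ x' ≤ X + 54 * m) ∧
    DReach (dE (TBE (X + 47 * m) (X + 54 * m) (Y + 3 * a) (Y + 29 * m)) \ F)
      (x, Y + 3 * a) (x', Y + 29 * m)

/-- No dual arm leaves the region below the tube. -/
theorem blockD {X Y : ℤ} {a m : ℕ} (ha : 1 ≤ a) (ham : a ≤ m) {F : Set Edg} {yb yc : ℤ}
    (hyb : Y - 8 * a ≤ yb ∧ yb ≤ Y - 4 * a)
    (hT : Reach (F ∩ ↑(LSm X Y a m)) (X + 8 * a, yc) (X + 56 * m, yb)) (hE : EO X Y a m F)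
    {f g : Vtx} (hf1 : X + 18 * m ≤ f.1 ∧ f.1 ≤ X + 47 * m - 1)
    (hf2 : Y - 20 * m ≤ f.2 ∧ f.2 ≤ Y - 8 * a - 1)
    (hg : g.1 ≤ X + 10 * m - 1 ∨ X + 54 * m ≤ g.1 ∨ g.2 ≤ Y - 28 * m - 1 ∨ Y - 4 * a ≤ g.2)
    (h : DReach Fᶜ f g) : False := by
  have ha' : (1 : ℤ) ≤ a := by exact_mod_cast ha
  have ham' : (a : ℤ) ≤ m := by exact_mod_cast ham
  obtain ⟨⟨y, y', hy, hy', hB⟩, ⟨x, x', hx, hx', hL⟩, ⟨z, z', hz, hz', hR⟩⟩ := hE
  obtain ⟨w, hw, hwb, hwr⟩ := first_exit (G := dl '' Fᶜ) (a := X + 10 * m - 1) (b := X + 54 * m)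
    (c := Y - 28 * m - 1) (d := Y - 4 * a) (u := f) (v := g)
    (by unfold inR; omega) (reach_dl.2 h) hg
  unfold inR at hw
  -- the dual path in the box
  obtain ⟨G, hG⟩ : ∃ G : Set Edg, G = {e | e ∉ F ∧ dl e ∈ RE (X + 10 * m - 1) (X + 54 * m)
    (Y - 28 * m - 1) (Y - 4 * a)} := ⟨_, rfl⟩
  have hd : DReach G f w := by
    rw [← reach_dl]
    refine hwr.mono ?_
    rintro e ⟨⟨e', h1, rfl⟩, h2⟩
    exact ⟨e', by rw [hG]; exact ⟨h1, h2⟩, rfl⟩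
  have hGb : ∀ e ∈ G, e ∉ F ∧ ((X + 10 * m - 1 ≤ (dsrc e).1 ∧ (dsrc e).1 ≤ X + 54 * m) ∧
      (X + 10 * m - 1 ≤ (dtgt e).1 ∧ (dtgt e).1 ≤ X + 54 * m)) ∧
      ((Y - 28 * m - 1 ≤ (dsrc e).2 ∧ (dsrc e).2 ≤ Y - 4 * a) ∧
      (Y - 28 * m - 1 ≤ (dtgt e).2 ∧ (dtgt e).2 ≤ Y - 4 * a)) := by
    intro e he
    rw [hG] at he
    obtain ⟨h1, h2⟩ := he
    refine ⟨h1, ?_⟩
    obtain ⟨p, q, _ | _⟩ := e
    · rw [dl_f, mem_RE_true] at h2
      simp only [dsrc_false, dtgt_mk]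
      omega
    · rw [dl_t, mem_RE_false] at h2
      simp only [dsrc_true, dtgt_mk]
      omega
  rcases hwb with h1 | h1 | h1 | h1
  · -- left
    refine cutD_LR (a := X + 10 * m) (b := X + 18 * m) (c := Y - 29 * m) (d := Y - 3 * a) (by omega)
      hx' hL (G := G) ?_ hd.symm (by omega) (by omega)
    intro e he
    have := hGb e he
    refine ⟨this.1, ?_⟩
    omega
  · -- right
    refine cutD_LR (a := X + 47 * m) (b := X + 54 * m) (c := Y - 29 * m) (d := Y - 3 * a) (by omega)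
      hz' hR (G := G) ?_ hd (by omega) (by omega)
    intro e he
    have := hGb e he
    refine ⟨this.1, ?_⟩
    omega
  · -- bottom
    refine cutD_TB (a := X + 9 * m) (b := X + 55 * m) (c := Y - 28 * m) (d := Y - 20 * m) (by omega)
      hy' hB (G := G) ?_ hd.symm (by omega) (by omega)
    intro e he
    have := hGb e he
    refine ⟨this.1, ?_⟩
    omega
  · -- top
    refine cutD_TB (a := X + 8 * a) (b := X + 56 * m) (c := Y - 8 * a) (d := Y - 4 * a) (by omega)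
      hyb hT (G := G) ?_ hd (by omega) (by omega)
    intro e he
    have := hGb e he
    refine ⟨this.1, ?_⟩
    omega

/-- No open arm leaves the region above the tube. -/
theorem blockP {X Y : ℤ} {a m : ℕ} (ha : 1 ≤ a) (ham : a ≤ m) {F : Set Edg} {yb yc : ℤ}
    (hyc : Y + 4 * a ≤ yc ∧ yc ≤ Y + 8 * a)
    (hT : DReach (dE (USm X Y a m) \ F) (X + 8 * a, yc) (X + 56 * m, yb)) (hE : ED X Y a m F)
    {f g : Vtx} (hf1 : X + 18 * m + 1 ≤ f.1 ∧ f.1 ≤ X + 47 * m)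
    (hf2 : Y + 8 * a + 1 ≤ f.2 ∧ f.2 ≤ Y + 20 * m)
    (hg : g.1 ≤ X + 10 * m ∨ X + 54 * m + 1 ≤ g.1 ∨ g.2 ≤ Y + 4 * a ∨ Y + 28 * m + 1 ≤ g.2)
    (h : Reach F f g) : False := by
  have ha' : (1 : ℤ) ≤ a := by exact_mod_cast ha
  have ham' : (a : ℤ) ≤ m := by exact_mod_cast ham
  obtain ⟨⟨y, y', hy, hy', hB⟩, ⟨x, x', hx, hx', hL⟩, ⟨z, z', hz, hz', hR⟩⟩ := hE
  obtain ⟨w, hw, hwb, hd⟩ := first_exit (G := F) (a := X + 10 * m) (b := X + 54 * m + 1)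
    (c := Y + 4 * a) (d := Y + 28 * m + 1) (u := f) (v := g)
    (by unfold inR; omega) h hg
  unfold inR at hw
  have hGb : ∀ e ∈ F ∩ ↑(RE (X + 10 * m) (X + 54 * m + 1) (Y + 4 * a) (Y + 28 * m + 1)),
      e ∈ F ∧ ((X + 10 * m ≤ (src e).1 ∧ (src e).1 ≤ X + 54 * m + 1) ∧
      (X + 10 * m ≤ (tgt e).1 ∧ (tgt e).1 ≤ X + 54 * m + 1)) ∧
      ((Y + 4 * a ≤ (src e).2 ∧ (src e).2 ≤ Y + 28 * m + 1) ∧
      (Y + 4 * a ≤ (tgt e).2 ∧ (tgt e).2 ≤ Y + 28 * m + 1)) := by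
    rintro e ⟨h1, h2⟩
    refine ⟨h1, ?_⟩
    rw [Finset.mem_coe] at h2
    obtain ⟨p, q, _ | _⟩ := e
    · rw [mem_RE_false] at h2
      simp only [src_mk, tgt_false]
      omega
    · rw [mem_RE_true] at h2
      simp only [src_mk, tgt_true]
      omega
  rcases hwb with h1 | h1 | h1 | h1
  · -- left
    refine cutP_LR (a := X + 10 * m) (b := X + 18 * m) (P := Y + 3 * a) (Q := Y + 29 * m) (by omega)
      (by omega) hx hL ?_ hd.symm (by omega) (by omega)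
    intro e he
    have := hGb e he
    refine ⟨this.1, ?_⟩
    omega
  · -- right
    refine cutP_LR (a := X + 47 * m) (b := X + 54 * m) (P := Y + 3 * a) (Q := Y + 29 * m) (by omega)
      (by omega) hz hR ?_ hd (by omega) (by omega)
    intro e he
    have := hGb e he
    refine ⟨this.1, ?_⟩
    omega
  · -- bottom
    refine cutP_TB (P := X + 8 * a) (Q := X + 56 * m) (c := Y + 4 * a) (d := Y + 8 * a) (by omega)
      (by omega) hyc hT ?_ hd.symm (by omega) (by omega)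
    intro e he
    have := hGb e he
    refine ⟨this.1, ?_⟩
    omega
  · -- top
    refine cutP_TB (P := X + 9 * m) (Q := X + 55 * m) (c := Y + 20 * m) (d := Y + 28 * m) (by omega)
      (by omega) hy hB ?_ hd (by omega) (by omega)
    intro e he
    have := hGb e he
    refine ⟨this.1, ?_⟩
    omega

/-- Near the middle of the tube all corners with two arms are in the tube. -/
theorem nst_le {X Y : ℤ} {A y0 : ℤ} {T a m kk : ℕ} (ha : 1 ≤ a) (ham : a ≤ m)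
    (hmk : m ≤ a * kk) {F : Set Edg}
    (hL : BaseL A y0 X Y T a m F) (hU : BaseU A y0 X Y T a m F)
    (hEO : EO X Y a m F) (hED : ED X Y a m F) {x : Vtx}
    (hx : (X + 32 * m - a ≤ x.1 ∧ x.1 ≤ X + 32 * m + a + 1) ∧ (Y - a ≤ x.2 ∧ x.2 ≤ Y + a)) :
    ((nst m x F).card : ℝ) ≤ Cn X Y a m kk F := by
  classical
  have ha' : (1 : ℤ) ≤ a := by exact_mod_cast ha
  have ham' : (a : ℤ) ≤ m := by exact_mod_cast ham
  obtain ⟨yb, yc, hyb, hyc, hR1, -⟩ := hL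
  obtain ⟨ub, uc, hub, huc, hR2, -⟩ := hU
  have hstrip : ∀ σ ∈ nst m x F, Y - 8 * a ≤ σ.1.2 ∧ σ.1.2 ≤ Y + 8 * a := by
    intro σ hσ
    rw [mem_nst] at hσ
    obtain ⟨⟨h1, h2⟩, ⟨⟨w, hw, hr⟩, g, hg, hd⟩⟩ := hσ
    have hfc := face_col σ
    unfold Far at hw
    unfold FarF inF at hg
    constructor
    · by_contra hcon
      refine blockD ha ham hyb hR1 hEO (f := face σ) (g := g) (by omega) (by omega) ?_ hd
      by_contra hcon2
      apply hg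
      omega
    · by_contra hcon
      exact blockP ha ham huc hR2 hED (f := σ.1) (g := w) (by omega) (by omega) (by omega) hr
  obtain ⟨W, hW⟩ : ∃ W : Finset Vtx, W = Finset.Icc (X + 8 * a) (X + 56 * m) ×ˢ
    Finset.Icc (Y - 8 * a) (Y + 8 * a) := ⟨_, rfl⟩
  have hWm : ∀ v : Vtx, v ∈ W ↔ (X + 8 * a ≤ v.1 ∧ v.1 ≤ X + 56 * m) ∧
      (Y - 8 * a ≤ v.2 ∧ v.2 ≤ Y + 8 * a) := by
    intro v
    rw [hW, mem_product, mem_Icc, mem_Icc]
  refine le_trans ?_ (cn_ge (Y := Y) (X := X) ha hmk (F := F)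
    (W := (nst m x F).image Prod.fst) (fun v hv => by
      rw [mem_image] at hv
      obtain ⟨σ, hσ, rfl⟩ := hv
      have h1 := hstrip σ hσ
      rw [mem_nst] at hσ
      omega))
  have h1 : ∀ v ∈ (nst m x F).image Prod.fst, xw (RB X Y m) a v F =
      ∑ q : Q4, ind (Two v (face (v, q)) a F) := by
    intro v hv
    rw [mem_image] at hv
    obtain ⟨σ, hσ, rfl⟩ := hv
    have h1 := hstrip σ hσ
    rw [mem_nst] at hσ
    unfold xw
    rw [if_pos]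
    unfold Pool.Agent.Y995.FS.RB
    exact RE_sub_RE (by omega) (by omega) (by omega) (by omega)
  rw [sum_congr rfl h1]
  obtain ⟨P, hP⟩ : ∃ P : St → Prop, P = fun σ => Two σ.1 (face σ) a F := ⟨_, rfl⟩
  have h2 : ∑ v ∈ (nst m x F).image Prod.fst, ∑ q : Q4, ind (Two v (face (v, q)) a F) =
      (((((nst m x F).image Prod.fst) ×ˢ (Finset.univ : Finset Q4)).filter P).card : ℝ) := by
    rw [← sum_product' (f := fun v q => ind (Two v (face (v, q)) a F)), card_filter]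
    push_cast
    refine sum_congr rfl fun σ _ => ?_
    rw [hP]
    obtain ⟨v, q⟩ := σ
    by_cases h : Two v (face (v, q)) a F
    · rw [ind_of h, if_pos h]
    · rw [ind_not_of h, if_neg h]
  rw [h2]
  have h3 : nst m x F ⊆ ((((nst m x F).image Prod.fst) ×ˢ (Finset.univ : Finset Q4)).filter P) := by
    intro σ hσ
    rw [mem_filter, mem_product, hP]
    refine ⟨⟨mem_image_of_mem _ hσ, mem_univ _⟩, ?_⟩
    rw [mem_nst] at hσ
    exact two_anti (by omega) hσ.2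
  exact_mod_cast card_le_card h3

end Pool.Agent.J4H99.PK
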