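import Pool.Agent.J4H99.PK.Circ

/-!
Project PK: locality and probability of the half circuits.
-/

set_option autoImplicit false

namespace Pool.Agent.J4H99.PK

open H974 Finset H342P H984P H984N TH992.T Pool.Agent.Y995.FS

/-- edges of the open half circuit -/
noncomputable def UO (X Y : ℤ) (a m : ℕ) : Finset Edg :=
  LRE (X + 9 * m) (X + 55 * m) (Y - 28 * m) (Y - 20 * m) ∪
    (TBE (X + 10 * m) (X + 18 * m) (Y - 29 * m) (Y - 3 * a) ∪
      TBE (X + 47 * m) (X + 54 * m) (Y - 29 * m) (Y - 3 * a))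

/-- edges of the dual half circuit, in the lattice of faces -/
noncomputable def UD (X Y : ℤ) (a m : ℕ) : Finset Edg :=
  LRE (X + 9 * m) (X + 55 * m) (Y + 20 * m) (Y + 28 * m) ∪
    (TBE (X + 10 * m) (X + 18 * m) (Y + 3 * a) (Y + 29 * m) ∪
      TBE (X + 47 * m) (X + 54 * m) (Y + 3 * a) (Y + 29 * m))

theorem EO_mono {X Y : ℤ} {a m : ℕ} {F G : Set Edg} (h : ∀ e ∈ UO X Y a m, e ∈ F → e ∈ G)
    (hE : EO X Y a m F) : EO X Y a m G := by
  obtain ⟨⟨y, y', hy, hy', hB⟩, ⟨x, x', hx, hx', hL⟩, ⟨z, z', hz, hz', hR⟩⟩ := hE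
  refine ⟨⟨y, y', hy, hy', hB.mono ?_⟩, ⟨x, x', hx, hx', hL.mono ?_⟩, ⟨z, z', hz, hz', hR.mono ?_⟩⟩
  · rintro e ⟨h1, h2⟩
    exact ⟨h e (by unfold UO; rw [mem_union]; exact Or.inl h2) h1, h2⟩
  · rintro e ⟨h1, h2⟩
    exact ⟨h e (by unfold UO; rw [mem_union, mem_union]; exact Or.inr (Or.inl h2)) h1, h2⟩
  · rintro e ⟨h1, h2⟩
    exact ⟨h e (by unfold UO; rw [mem_union, mem_union]; exact Or.inr (Or.inr h2)) h1, h2⟩

theorem ED_mono {X Y : ℤ} {a m : ℕ} {F G : Set Edg} (h : ∀ e, dl e ∈ UD X Y a m → e ∈ G → e ∈ F)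
    (hE : ED X Y a m F) : ED X Y a m G := by
  obtain ⟨⟨y, y', hy, hy', hB⟩, ⟨x, x', hx, hx', hL⟩, ⟨z, z', hz, hz', hR⟩⟩ := hE
  refine ⟨⟨y, y', hy, hy', hB.mono ?_⟩, ⟨x, x', hx, hx', hL.mono ?_⟩, ⟨z, z', hz, hz', hR.mono ?_⟩⟩
  · rintro e ⟨h1, h2⟩
    exact ⟨h1, fun hG => h2 (h e (by unfold UD; rw [mem_union]; exact Or.inl h1) hG)⟩
  · rintro e ⟨h1, h2⟩
    exact ⟨h1, fun hG => h2 (h e (by
      unfold UD; rw [mem_union, mem_union]; exact Or.inr (Or.inl h1)) hG)⟩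
  · rintro e ⟨h1, h2⟩
    exact ⟨h1, fun hG => h2 (h e (by
      unfold UD; rw [mem_union, mem_union]; exact Or.inr (Or.inr h1)) hG)⟩

theorem UO_pos {X Y : ℤ} {a m : ℕ} (ha : 1 ≤ a) (ham : a ≤ m) {e : Edg} (he : e ∈ UO X Y a m) :
    (X + 9 * m ≤ e.1 ∧ e.1 ≤ X + 55 * m) ∧ (Y - 29 * m ≤ e.2.1 ∧ e.2.1 ≤ Y - 3 * a) ∧
      (e.2.1 ≤ Y - 20 * m ∨ e.1 ≤ X + 18 * m ∨ X + 47 * m ≤ e.1) := by
  have ha' : (1 : ℤ) ≤ a := by exact_mod_cast ha
  have ham' : (a : ℤ) ≤ m := by exact_mod_cast ham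
  obtain ⟨x, y, _ | _⟩ := e
  · simp only [UO, Finset.mem_union, mem_LRE_false, mem_TBE_false] at he
    simp only
    omega
  · simp only [UO, Finset.mem_union, mem_LRE_true, mem_TBE_true] at he
    simp only
    omega

theorem UD_pos {X Y : ℤ} {a m : ℕ} (ha : 1 ≤ a) (ham : a ≤ m) {e : Edg}
    (he : dl e ∈ UD X Y a m) :
    (X + 9 * m ≤ e.1 ∧ e.1 ≤ X + 56 * m) ∧ (Y + 3 * a ≤ e.2.1 ∧ e.2.1 ≤ Y + 30 * m) ∧
      (Y + 20 * m ≤ e.2.1 ∨ e.1 ≤ X + 18 * m ∨ X + 47 * m ≤ e.1) := by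
  have ha' : (1 : ℤ) ≤ a := by exact_mod_cast ha
  have ham' : (a : ℤ) ≤ m := by exact_mod_cast ham
  obtain ⟨x, y, _ | _⟩ := e
  · simp only [UD, Finset.mem_union, dl_f, mem_LRE_true, mem_TBE_true] at he
    simp only
    omega
  · simp only [UD, Finset.mem_union, dl_t, mem_LRE_false, mem_TBE_false] at he
    simp only
    omega

theorem UO_RB {X Y : ℤ} {a m : ℕ} (ha : 1 ≤ a) (ham : a ≤ m) :
    UO X Y a m ⊆ Pool.Agent.Y995.FS.RB X Y m := by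
  have ha' : (1 : ℤ) ≤ a := by exact_mod_cast ha
  have ham' : (a : ℤ) ≤ m := by exact_mod_cast ham
  intro e he
  have h := UO_pos ha ham he
  unfold Pool.Agent.Y995.FS.RB
  obtain ⟨x, y, _ | _⟩ := e
  · rw [mem_RE_false]; simp only at h; omega
  · rw [mem_RE_true]; simp only at h; omega

theorem UD_RB {X Y : ℤ} {a m : ℕ} (ha : 1 ≤ a) (ham : a ≤ m) {e : Edg}
    (he : dl e ∈ UD X Y a m) : e ∈ Pool.Agent.Y995.FS.RB X Y m := by
  have ha' : (1 : ℤ) ≤ a := by exact_mod_cast ha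
  have ham' : (a : ℤ) ≤ m := by exact_mod_cast ham
  have h := UD_pos ha ham he
  unfold Pool.Agent.Y995.FS.RB
  obtain ⟨x, y, _ | _⟩ := e
  · rw [mem_RE_false]; simp only at h; omega
  · rw [mem_RE_true]; simp only at h; omega

/-- three increasing events -/
theorem three {κ : ℝ} (hκ : 0 ≤ κ) {S : Finset Edg} {A B C : Finset Edg → Prop}
    (iA : IncrE S A) (iB : IncrE S B) (iC : IncrE S C)
    (hA : κ ≤ Pr (fun _ => (1/2:ℝ)) S A) (hB : κ ≤ Pr (fun _ => (1/2:ℝ)) S B)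
    (hC : κ ≤ Pr (fun _ => (1/2:ℝ)) S C) :
    κ ^ 3 ≤ Pr (fun _ => (1/2:ℝ)) S (fun F => A F ∧ (B F ∧ C F)) := by
  have ok : Ok (fun _ : Edg => (1/2:ℝ)) := okq (by norm_num) (by norm_num)
  have h1 := Pr_harris ok iB iC
  have h3 := Pr_harris ok (A := A) (B := fun F => B F ∧ C F) iA
    (fun F G h h' hF => ⟨iB F G h h' hF.1, iC F G h h' hF.2⟩)
  have h4 : κ * κ ≤ Pr (fun _ => (1/2:ℝ)) S (fun F => B F ∧ C F) :=
    (mul_le_mul hB hC hκ (hκ.trans hB)).trans h1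
  have h5 : κ * (κ * κ) ≤ _ :=
    (mul_le_mul hA h4 (mul_nonneg hκ hκ) (hκ.trans hA)).trans h3
  calc κ ^ 3 = κ * (κ * κ) := by ring
    _ ≤ _ := h5

theorem circ_pr {X Y : ℤ} {a m : ℕ} {S : Finset Edg} (ha : 1 ≤ a) (ham : a ≤ m)
    (hS : Pool.Agent.Y995.FS.RB X Y m ⊆ S) :
    q0 ^ 3 ≤ Pr (fun _ => (1/2:ℝ)) S (fun G => EO X Y a m (↑G : Set Edg)) ∧
    q0 ^ 3 ≤ Pr (fun _ => (1/2:ℝ)) S (fun G => ED X Y a m (↑G : Set Edg)) := by
  have h0 : (0:ℝ) ≤ 1/2 := by norm_num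
  have h1 : (1/2:ℝ) ≤ 1 := by norm_num
  have ok : Ok (fun _ : Edg => (1/2:ℝ)) := okq (by norm_num) (by norm_num)
  have ha' : (1:ℤ) ≤ a := by exact_mod_cast ha
  have ham' : (a:ℤ) ≤ m := by exact_mod_cast ham
  have key : ∀ w h : ℤ, 0 < w → w ≤ 112 * m → 7 * m ≤ h → q0 ≤ hh (1/2) w h := by
    intro w h hw hw2 hh2
    refine (H12S.WH.main (h := 7 * (m:ℤ)) (by omega)).trans ?_
    exact hh_mono h0 h1 hw (by omega) hh2
  have kLR : ∀ (U : Finset Edg) (p q r s : ℤ), LRE p q r s ⊆ U → 0 < q - p → q - p ≤ 112 * m →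
      7 * m ≤ s - r → q0 ≤ Pr (fun _ => (1/2:ℝ)) U (LRc p q r s) := by
    intro U p q r s hU h2 h3 h4
    rw [pr_LRc _ hU]
    exact key _ _ h2 h3 h4
  have kTB : ∀ (U : Finset Edg) (p q r s : ℤ), TBE p q r s ⊆ U → 0 < s - r → s - r ≤ 112 * m →
      7 * m ≤ q - p → q0 ≤ Pr (fun _ => (1/2:ℝ)) U (TBc p q r s) := by
    intro U p q r s hU h2 h3 h4
    rw [pr_TBc _ hU]
    exact key _ _ h2 h3 h4
  have hUO := (UO_RB (X := X) (Y := Y) ha ham).trans hS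
  have hUD : UD X Y a m ⊆ dmp S := by
    intro e he
    rw [mem_dmp]
    refine hS (UD_RB ha ham ?_)
    rw [Equiv.apply_symm_apply]
    exact he
  constructor
  · exact three q0_pos.le (LRc_incr _ _ _ _ _) (TBc_incr _ _ _ _ _) (TBc_incr _ _ _ _ _)
      (kLR S _ _ _ _ (fun e he => hUO (by unfold UO; rw [mem_union]; exact Or.inl he))
        (by omega) (by omega) (by omega))
      (kTB S _ _ _ _ (fun e he => hUO (by
        unfold UO; rw [mem_union, mem_union]; exact Or.inr (Or.inl he)))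
        (by omega) (by omega) (by omega))
      (kTB S _ _ _ _ (fun e he => hUO (by
        unfold UO; rw [mem_union, mem_union]; exact Or.inr (Or.inr he)))
        (by omega) (by omega) (by omega))
  · have e := H12S.pr_dual (q := 1/2) S (fun H =>
      LRc (X + 9 * m) (X + 55 * m) (Y + 20 * m) (Y + 28 * m) H ∧
      (TBc (X + 10 * m) (X + 18 * m) (Y + 3 * a) (Y + 29 * m) H ∧
        TBc (X + 47 * m) (X + 54 * m) (Y + 3 * a) (Y + 29 * m) H))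
    have e1 : (1:ℝ) - 1/2 = 1/2 := by norm_num
    rw [e1] at e
    unfold H12S.PQ at e
    have h3 := three (S := dmp S) q0_pos.le (LRc_incr (dmp S) (X + 9 * m) (X + 55 * m) (Y + 20 * m)
      (Y + 28 * m))
      (TBc_incr (dmp S) (X + 10 * m) (X + 18 * m) (Y + 3 * a) (Y + 29 * m))
      (TBc_incr (dmp S) (X + 47 * m) (X + 54 * m) (Y + 3 * a) (Y + 29 * m))
      (kLR (dmp S) _ _ _ _ (fun e he => hUD (by unfold UD; rw [mem_union]; exact Or.inl he))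
        (by omega) (by omega) (by omega))
      (kTB (dmp S) _ _ _ _ (fun e he => hUD (by
        unfold UD; rw [mem_union, mem_union]; exact Or.inr (Or.inl he)))
        (by omega) (by omega) (by omega))
      (kTB (dmp S) _ _ _ _ (fun e he => hUD (by
        unfold UD; rw [mem_union, mem_union]; exact Or.inr (Or.inr he)))
        (by omega) (by omega) (by omega))
    rw [← e] at h3
    refine h3.trans (Pr_mono ok ?_)
    rintro G _ ⟨⟨y, y', hy, hy', hB⟩, ⟨x, x', hx, hx', hL⟩, ⟨z, z', hz, hz', hR⟩⟩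
    exact ⟨⟨y, y', hy, hy', reach_dl.1 (hB.mono dmp_sub)⟩,
      ⟨x, x', hx, hx', reach_dl.1 (hL.mono dmp_sub)⟩,
      ⟨z, z', hz, hz', reach_dl.1 (hR.mono dmp_sub)⟩⟩

end Pool.Agent.J4H99.PK
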