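import Pool.Agent.J4H99.PK.Lip

/-!
Project PK: the times which are fast, slow, thick and thin at once.
-/

set_option autoImplicit false
set_option linter.unusedVariables false

namespace Pool.Agent.J4H99.PK

open H974 Finset H342P H984P H984N Pool.Agent.Y995.FS Pool.Agent.Y995.HG
open MeasureTheory Filter Topology
open scoped ENNReal NNReal
open Pool.Agent.Y995.TP (Ft Th fast_top thick_times bulk_arc Ubi)
open Pool.Agent.R965.ST (Sl slow_times)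

/-- large intersections -/
theorem lip_inter {R : Rect} {p : X} (hcl : ∀ s : unitInterval, p.1 s ∈ closure R.D)
    (hdim : ∀ s t : unitInterval, s < t → dimH (p.1 '' Set.Icc s t) = 7 / 4)
    {x : ℝ} (hx0 : 0 < x) (hx1 : x ≤ 1) {E : ℕ → Set unitInterval} (hE : ∀ i, LIP R p x (E i))
    {s t : unitInterval} (hst : s < t) :
    ENNReal.ofReal x ≤ dimH (Set.Icc s t ∩ ⋂ i, E i) := by
  obtain ⟨a, b, i, e1, e2, e3, e4⟩ := bulk_arc hcl hdim hst
  have h1 : ∀ n, ∃ A : ℕ → Set ℝ, Ubi x A a b ∧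
      ∀ u : unitInterval, a ≤ u → u ≤ b → (∃ᶠ j in atTop, (u : ℝ) ∈ A j) → u ∈ E n :=
    fun n => hE n i a b e4
  choose A h2 h3 using h1
  refine (cantor_m hx0 hx1 (show (a:ℝ) < b from e2) h2).trans ?_
  have hsub : {y : ℝ | y ∈ Set.Icc (a:ℝ) b ∧ ∀ n, ∃ᶠ j in atTop, y ∈ A n j} ⊆
      Subtype.val '' (Set.Icc s t ∩ ⋂ i, E i) := by
    rintro y ⟨hy1, hy2⟩
    have hya : a ≤ (⟨y, a.2.1.trans hy1.1, hy1.2.trans b.2.2⟩ : unitInterval) := hy1.1
    have hyb : (⟨y, a.2.1.trans hy1.1, hy1.2.trans b.2.2⟩ : unitInterval) ≤ b := hy1.2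
    refine ⟨⟨y, a.2.1.trans hy1.1, hy1.2.trans b.2.2⟩, ⟨⟨e1.trans hya, hyb.trans e3⟩, ?_⟩, rfl⟩
    rw [Set.mem_iInter]
    intro n
    exact h3 n _ hya hyb (hy2 n)
  refine (dimH_mono hsub).trans (le_of_eq ?_)
  exact isometry_subtype_coe.dimH_image _

/-- the largest of the four codimensions -/
noncomputable def cod (α β γ θ : ℝ) : ℝ :=
  max (max (α ^ (7/3 : ℝ)) (1 / β ^ 14)) (max (γ ^ 8) (1 / θ ^ (4/3 : ℝ)))

theorem ofReal_min {x y : ℝ} {z : ℝ≥0∞} (h1 : z ≤ ENNReal.ofReal x) (h2 : z ≤ ENNReal.ofReal y) :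
    z ≤ ENNReal.ofReal (min x y) := by
  rcases le_total x y with h | h
  · rwa [min_eq_left h]
  · rwa [min_eq_right h]

theorem inter_top : ∃ c C α0 β0 γ0 θ0 : ℝ, 0 < c ∧ 0 < C ∧ 0 < α0 ∧ 0 < β0 ∧ 0 < γ0 ∧ 0 < θ0 ∧
    C * cod α0 β0 γ0 θ0 < 1 ∧ ∀ R : Rect,
    (∀ δ : ℕ → ℝ, (∀ i, 0 < δ i) → Tendsto δ atTop (𝓝 0) →
      ∃ φ : ℕ → ℕ, StrictMono φ ∧ ∃ μ : ProbabilityMeasure X,
        Tendsto (fun i => R.law (δ (φ i))) atTop (𝓝 μ)) ∧
    ∀ δ : ℕ → ℝ, (∀ i, 0 < δ i) → Tendsto δ atTop (𝓝 0) → ∀ μ : ProbabilityMeasure X,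
      Tendsto (fun i => R.law (δ i)) atTop (𝓝 μ) →
      ∀ᵐ p ∂(μ : Measure X), 0 < p.2 ∧ (∀ E : Set unitInterval, dimH (p.1 '' E) = 7 / 4 * dimH E) ∧
        ∀ α β γ θ : ℝ, 0 < α → α ≤ α0 → β0 ≤ β → 0 < γ → γ ≤ γ0 → θ0 ≤ θ →
          ∀ s t : unitInterval, s < t →
            ENNReal.ofReal (1 - C * cod α β γ θ) ≤
              dimH (Set.Icc s t ∩ (Ft α p ∩ Sl β p ∩ (Th γ p ∩ Thin θ p))) ∧
            dimH (Set.Icc s t ∩ (Ft α p ∩ Sl β p ∩ (Th γ p ∩ Thin θ p))) ≤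
              ENNReal.ofReal (1 - c * cod α β γ θ) := by
  obtain ⟨⟨c, hc, hL⟩, ⟨C, hC, hU⟩, C2, hC2, hA⟩ := Pool.Agent.Y985.ME.inputs
  obtain ⟨c1, C1, t1, hc1, hC1, ht1, -, hfast⟩ := fast_top
  obtain ⟨c2, C2', t2, hc2, hC2', ht2, -, hslow⟩ := slow_times
  obtain ⟨c3, C3, t3, hc3, hC3, ht3, -, hthick⟩ := thick_times
  obtain ⟨c4, C4, t4, _, _, hc4, hC4, ht4, -, -, -, hthin⟩ := thin_top
  obtain ⟨K1, s1, hK1, hs1, hl1⟩ := lip_fast
  obtain ⟨K2, s2, hK2, hs2, hl2⟩ := lip_slow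
  obtain ⟨K3, s3, hK3, hs3, hl3⟩ := lip_thick
  obtain ⟨K4, s4, hK4, hs4, hl4⟩ := lip_thin
  obtain ⟨K, hK⟩ : ∃ K : ℝ, K = max (max K1 K2) (max K3 K4) := ⟨_, rfl⟩
  have k1 : K1 ≤ K := by rw [hK]; exact (le_max_left _ _).trans (le_max_left _ _)
  have k2 : K2 ≤ K := by rw [hK]; exact (le_max_right _ _).trans (le_max_left _ _)
  have k3 : K3 ≤ K := by rw [hK]; exact (le_max_left _ _).trans (le_max_right _ _)
  have k4 : K4 ≤ K := by rw [hK]; exact (le_max_right _ _).trans (le_max_right _ _)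
  have hK0 : 0 < K := lt_of_lt_of_le hK1 k1
  obtain ⟨k, hk⟩ : ∃ k : ℝ, k = min (min c1 c2) (min c3 c4) := ⟨_, rfl⟩
  have m1 : k ≤ c1 := by rw [hk]; exact (min_le_left _ _).trans (min_le_left _ _)
  have m2 : k ≤ c2 := by rw [hk]; exact (min_le_left _ _).trans (min_le_right _ _)
  have m3 : k ≤ c3 := by rw [hk]; exact (min_le_right _ _).trans (min_le_left _ _)
  have m4 : k ≤ c4 := by rw [hk]; exact (min_le_right _ _).trans (min_le_right _ _)
  have hk0 : 0 < k := by rw [hk]; exact lt_min (lt_min hc1 hc2) (lt_min hc3 hc4)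
  obtain ⟨e, he⟩ : ∃ e : ℝ, e = 1 / (2 * K) := ⟨_, rfl⟩
  have he0 : 0 < e := by rw [he]; positivity
  have hKe : K * e = 1 / 2 := by rw [he]; field_simp
  obtain ⟨α0, hα0⟩ : ∃ α0 : ℝ, α0 = min (min t1 s1) (e ^ (3/7 : ℝ)) := ⟨_, rfl⟩
  obtain ⟨β0, hβ0⟩ : ∃ β0 : ℝ, β0 = max (max t2 s2) ((1 / e) ^ (1/14 : ℝ)) := ⟨_, rfl⟩
  obtain ⟨γ0, hγ0⟩ : ∃ γ0 : ℝ, γ0 = min (min t3 s3) (e ^ (1/8 : ℝ)) := ⟨_, rfl⟩
  obtain ⟨θ0, hθ0⟩ : ∃ θ0 : ℝ, θ0 = max (max t4 s4) ((1 / e) ^ (3/4 : ℝ)) := ⟨_, rfl⟩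
  have α1 : α0 ≤ t1 := by rw [hα0]; exact (min_le_left _ _).trans (min_le_left _ _)
  have α2 : α0 ≤ s1 := by rw [hα0]; exact (min_le_left _ _).trans (min_le_right _ _)
  have α3 : α0 ≤ e ^ (3/7 : ℝ) := by rw [hα0]; exact min_le_right _ _
  have αp : 0 < α0 := by rw [hα0]; exact lt_min (lt_min ht1 hs1) (by positivity)
  have β1 : t2 ≤ β0 := by rw [hβ0]; exact (le_max_left _ _).trans (le_max_left _ _)
  have β2 : s2 ≤ β0 := by rw [hβ0]; exact (le_max_right _ _).trans (le_max_left _ _)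
  have β3 : (1 / e) ^ (1/14 : ℝ) ≤ β0 := by rw [hβ0]; exact le_max_right _ _
  have βp : 0 < β0 := lt_of_lt_of_le ht2 β1
  have γ1 : γ0 ≤ t3 := by rw [hγ0]; exact (min_le_left _ _).trans (min_le_left _ _)
  have γ2 : γ0 ≤ s3 := by rw [hγ0]; exact (min_le_left _ _).trans (min_le_right _ _)
  have γ3 : γ0 ≤ e ^ (1/8 : ℝ) := by rw [hγ0]; exact min_le_right _ _
  have γp : 0 < γ0 := by rw [hγ0]; exact lt_min (lt_min ht3 hs3) (by positivity)
  have θ1 : t4 ≤ θ0 := by rw [hθ0]; exact (le_max_left _ _).trans (le_max_left _ _)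
  have θ2 : s4 ≤ θ0 := by rw [hθ0]; exact (le_max_right _ _).trans (le_max_left _ _)
  have θ3 : (1 / e) ^ (3/4 : ℝ) ≤ θ0 := by rw [hθ0]; exact le_max_right _ _
  have θp : 0 < θ0 := lt_of_lt_of_le ht4 θ1
  have hcod : ∀ α β γ θ : ℝ, 0 < α → α ≤ α0 → β0 ≤ β → 0 < γ → γ ≤ γ0 → θ0 ≤ θ →
      cod α β γ θ ≤ e := by
    intro α β γ θ h1 h2 h3 h4 h5 h6
    have hβp : 0 < β := lt_of_lt_of_le βp h3
    have hθp : 0 < θ := lt_of_lt_of_le θp h6
    unfold cod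
    refine max_le (max_le ?_ ?_) (max_le ?_ ?_)
    · have h7 := Real.rpow_le_rpow h1.le (h2.trans α3) (show (0:ℝ) ≤ 7/3 by norm_num)
      rw [← Real.rpow_mul he0.le] at h7
      norm_num at h7 ⊢
      exact h7
    · have h7 := Real.rpow_le_rpow (by positivity) (β3.trans h3) (show (0:ℝ) ≤ 14 by norm_num)
      rw [← Real.rpow_mul (by positivity)] at h7
      norm_num at h7
      rw [div_le_iff₀ (by positivity)]
      rw [inv_le_iff_one_le_mul₀ he0] at h7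
      linarith
    · have h7 := Real.rpow_le_rpow h4.le (h5.trans γ3) (show (0:ℝ) ≤ 8 by norm_num)
      rw [← Real.rpow_mul he0.le] at h7
      norm_num at h7
      exact h7
    · have h7 := Real.rpow_le_rpow (by positivity) (θ3.trans h6) (show (0:ℝ) ≤ 4/3 by norm_num)
      rw [← Real.rpow_mul (by positivity)] at h7
      norm_num at h7
      rw [div_le_iff₀ (by positivity)]
      rw [inv_le_iff_one_le_mul₀ he0] at h7
      norm_num
      linarith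
  refine ⟨k, K, α0, β0, γ0, θ0, hk0, hK0, αp, βp, γp, θp, ?_, fun R => ?_⟩
  · have h1 := mul_le_mul_of_nonneg_left (hcod α0 β0 γ0 θ0 αp le_rfl le_rfl γp le_rfl le_rfl) hK0.le
    linarith
  obtain ⟨hf1, hf2⟩ := hfast R
  refine ⟨hf1, fun δ hδ hlim μ hμ => ?_⟩
  filter_upwards [hf2 δ hδ hlim μ hμ, (hslow R).2 δ hδ hlim μ hμ, (hthick R).2 δ hδ hlim μ hμ,
    (hthin R).2 δ hδ hlim μ hμ, hl1 R δ hδ hlim μ hμ, hl2 R δ hδ hlim μ hμ,
    hl3 R δ hδ hlim μ hμ, hl4 R δ hδ hlim μ hμ,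
    (final_of hc hC hL hU hC2 hA R).2.2 δ hδ hlim μ hμ]
    with p g1 g2 g3 g4 g5 g6 g7 g8 g9
  refine ⟨g1.1, g1.2.1, fun α β γ θ h1 h2 h3 h4 h5 h6 s t hst => ?_⟩
  have hβp : 0 < β := lt_of_lt_of_le βp h3
  have hθp : 0 < θ := lt_of_lt_of_le θp h6
  have hco := hcod α β γ θ h1 h2 h3 h4 h5 h6
  obtain ⟨M, hM⟩ : ∃ M : ℝ, M = cod α β γ θ := ⟨_, rfl⟩
  rw [← hM] at hco ⊢
  have M1 : α ^ (7/3 : ℝ) ≤ M := by
    rw [hM]; unfold cod; exact (le_max_left _ _).trans (le_max_left _ _)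
  have M2 : 1 / β ^ 14 ≤ M := by
    rw [hM]; unfold cod; exact (le_max_right _ _).trans (le_max_left _ _)
  have M3 : γ ^ 8 ≤ M := by
    rw [hM]; unfold cod; exact (le_max_left _ _).trans (le_max_right _ _)
  have M4 : 1 / θ ^ (4/3 : ℝ) ≤ M := by
    rw [hM]; unfold cod; exact (le_max_right _ _).trans (le_max_right _ _)
  have hM0 : 0 < M := lt_of_lt_of_le (by positivity) M1
  have hKM : K * M ≤ 1 / 2 := by
    have := mul_le_mul_of_nonneg_left hco hK0.le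
    linarith
  have n1 : K1 * α ^ (7/3 : ℝ) ≤ K * M := mul_le_mul k1 M1 (by positivity) hK0.le
  have n2 : K2 / β ^ 14 ≤ K * M := by
    have := mul_le_mul k2 M2 (by positivity) hK0.le
    rwa [mul_one_div] at this
  have n3 : K3 * γ ^ 8 ≤ K * M := mul_le_mul k3 M3 (by positivity) hK0.le
  have n4 : K4 / θ ^ (4/3 : ℝ) ≤ K * M := by
    have := mul_le_mul k4 M4 (by positivity) hK0.le
    rwa [mul_one_div] at this
  constructor
  · have l1 := (g5 α h1 (h2.trans α2) (by linarith)).mono (s' := 1 - K * M) (by linarith)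
      (by linarith)
    have l2 := (g6 β (β2.trans h3) (by linarith)).mono (s' := 1 - K * M) (by linarith)
      (by linarith)
    have l3 := (g7 γ h4 (h5.trans γ2) (by linarith)).mono (s' := 1 - K * M) (by linarith)
      (by linarith)
    have l4 := (g8 θ (θ2.trans h6) (by linarith)).mono (s' := 1 - K * M) (by linarith)
      (by linarith)
    obtain ⟨E, hE⟩ : ∃ E : ℕ → Set unitInterval, E = fun i =>
      match i with
      | 0 => Ft α p
      | 1 => Sl β p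
      | 2 => Th γ p
      | _ => Thin θ p := ⟨_, rfl⟩
    have hl : ∀ i, LIP R p (1 - K * M) (E i) := by
      intro i
      rw [hE]
      match i with
      | 0 => exact l1
      | 1 => exact l2
      | 2 => exact l3
      | (_ + 3) => exact l4
    have h7 := lip_inter g9.2.2.2.1 g9.2.2.2.2.2 (x := 1 - K * M) (by linarith)
      (by have : 0 < K * M := by positivity
          linarith) hl hst
    refine h7.trans (dimH_mono ?_)
    refine Set.inter_subset_inter_right _ fun u hu => ?_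
    rw [Set.mem_iInter] at hu
    have u0 := hu 0
    have u1 := hu 1
    have u2 := hu 2
    have u3 := hu 3
    rw [hE] at u0 u1 u2 u3
    exact ⟨⟨u0, u1⟩, ⟨u2, u3⟩⟩
  · have r1 : dimH (Set.Icc s t ∩ (Ft α p ∩ Sl β p ∩ (Th γ p ∩ Thin θ p))) ≤
        ENNReal.ofReal (1 - c1 * α ^ (7/3 : ℝ)) :=
      (dimH_mono fun u hu => hu.2.1.1).trans (g1.2.2 α h1 (h2.trans α1)).1
    have r2 : dimH (Set.Icc s t ∩ (Ft α p ∩ Sl β p ∩ (Th γ p ∩ Thin θ p))) ≤
        ENNReal.ofReal (1 - c2 / β ^ 14) :=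
      (dimH_mono fun u hu => hu.2.1.2).trans (g2.2.2 β (β1.trans h3)).1
    have r3 : dimH (Set.Icc s t ∩ (Ft α p ∩ Sl β p ∩ (Th γ p ∩ Thin θ p))) ≤
        ENNReal.ofReal (1 - c3 * γ ^ 8) :=
      (dimH_mono fun u hu => hu.2.2.1).trans (g3.2.2 γ h4 (h5.trans γ1)).1
    have r4 : dimH (Set.Icc s t ∩ (Ft α p ∩ Sl β p ∩ (Th γ p ∩ Thin θ p))) ≤
        ENNReal.ofReal (1 - c4 / θ ^ (4/3 : ℝ)) :=
      (dimH_mono fun u hu => hu.2.2.2).trans (g4.2.2.2.2 θ (θ1.trans h6)).1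
    have r := ofReal_min (ofReal_min r1 r2) (ofReal_min r3 r4)
    refine r.trans (ENNReal.ofReal_le_ofReal ?_)
    have q1 : k * α ^ (7/3 : ℝ) ≤ c1 * α ^ (7/3 : ℝ) :=
      mul_le_mul_of_nonneg_right m1 (by positivity)
    have q2 : k * (1 / β ^ 14) ≤ c2 / β ^ 14 := by
      have := mul_le_mul_of_nonneg_right m2 (show 0 ≤ 1 / β ^ 14 by positivity)
      rwa [mul_one_div c2] at this
    have q3 : k * γ ^ 8 ≤ c3 * γ ^ 8 := mul_le_mul_of_nonneg_right m3 (by positivity)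
    have q4 : k * (1 / θ ^ (4/3 : ℝ)) ≤ c4 / θ ^ (4/3 : ℝ) := by
      have := mul_le_mul_of_nonneg_right m4 (show 0 ≤ 1 / θ ^ (4/3 : ℝ) by positivity)
      rwa [mul_one_div c4] at this
    have hle : k * M ≤ max (max (c1 * α ^ (7/3 : ℝ)) (c2 / β ^ 14))
        (max (c3 * γ ^ 8) (c4 / θ ^ (4/3 : ℝ))) := by
      rw [hM]
      unfold cod
      rw [mul_max_of_nonneg _ _ hk0.le, mul_max_of_nonneg _ _ hk0.le,
        mul_max_of_nonneg _ _ hk0.le]
      exact max_le_max (max_le_max q1 q2) (max_le_max q3 q4)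
    rcases max_choice (max (c1 * α ^ (7/3 : ℝ)) (c2 / β ^ 14))
        (max (c3 * γ ^ 8) (c4 / θ ^ (4/3 : ℝ))) with h7 | h7
    · rcases max_choice (c1 * α ^ (7/3 : ℝ)) (c2 / β ^ 14) with h8 | h8
      · rw [h7, h8] at hle
        exact (min_le_left _ _).trans ((min_le_left _ _).trans (by linarith))
      · rw [h7, h8] at hle
        exact (min_le_left _ _).trans ((min_le_right _ _).trans (by linarith))
    · rcases max_choice (c3 * γ ^ 8) (c4 / θ ^ (4/3 : ℝ)) with h8 | h8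
      · rw [h7, h8] at hle
        exact (min_le_right _ _).trans ((min_le_left _ _).trans (by linarith))
      · rw [h7, h8] at hle
        exact (min_le_right _ _).trans ((min_le_right _ _).trans (by linarith))

end Pool.Agent.J4H99.PK
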