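import Pool.Agent.J4H99.PK.BadGM
import Pool.Agent.Y758.EV.LatV

/-!
Project PK: few good pairs: probability at mesh `δ` (adaptation of `Pool.Agent.Y758.EV.LatV`).
-/

set_option autoImplicit false
set_option linter.unusedVariables false
set_option maxHeartbeats 4000000

namespace Pool.Agent.J4H99.PK

open H974 Finset H342P H984P H984N Y994.MC Pool.Agent.Y985.ME Pool.Agent.Y884.ME
open Pool.Agent.Y995.FS Pool.Agent.Y995.HG MeasureTheory Filter Topology Pool.Agent.Y41.EV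

/-- Conclusion for one rectangle. -/
def LatH (θ K2 A0 : ℝ) (R : Rect) (A : ℝ) : Prop :=
  ∀ (kk N : ℕ) (w ρ : ℝ), 1 ≤ kk → 36 ≤ N → 0 < w → w ≤ 1/2 →
    A0 * (w * Real.exp (2 * (K2 * (kk:ℝ)))) ≤ ρ → ∃ δ1 : ℝ, 0 < δ1 ∧
    ∀ δ : ℝ, 0 < δ → δ ≤ δ1 →
      R.prob δ (fun F => (R.curve δ F, R.time δ F) ∈ BadG R ρ w
        (θ * ((kk : ℝ) ^ (-(3/4) : ℝ) * w ^ (7/4 : ℝ)))
        (A0 * ((w * Real.exp (2 * (K2 * (kk:ℝ)))) ^ (7/4 : ℝ) * N)) N) ≤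
        A / w ^ 2 * (1/2) ^ N

theorem lath (c C : ℝ) (hc : 0 < c) (hC : 0 < C) (hL : LowA c (1/4)) (hU : TwoUp C (1/4)) :
    ∃ θ K2 A0 : ℝ, 0 < θ ∧ 1 ≤ K2 ∧ 1 ≤ A0 ∧ ∀ R : Rect, ∃ A : ℝ, 0 < A ∧
      LatH θ K2 A0 R A := by
  obtain ⟨θ, K2, A1, K1, hθ, hK2, hA1, hK1, hpr⟩ := manyh c C hc hC hL hU
  obtain ⟨A0, hA0⟩ : ∃ A0 : ℝ, A0 = max A1 (A1 ^ (7/4 : ℝ) * K1 * 98 + 2) := ⟨_, rfl⟩
  have hA01 : A1 ≤ A0 := by rw [hA0]; exact le_max_left _ _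
  have hA02 : A1 ^ (7/4 : ℝ) * K1 * 98 + 2 ≤ A0 := by rw [hA0]; exact le_max_right _ _
  refine ⟨θ, K2, A0, hθ, hK2, hA1.trans hA01, fun R => ?_⟩
  obtain ⟨κs, S, δs, -, hS, hδs, -, hsh⟩ := R.shape
  refine ⟨20 * (S + 1) ^ 2, by positivity, ?_⟩
  intro kk N w ρ hkk1 hN hw0 hw1 hρ
  obtain ⟨EE, hEE⟩ : ∃ EE : ℝ, EE = Real.exp (2 * (K2 * (kk:ℝ))) := ⟨_, rfl⟩
  have hEE1 : 1 ≤ EE := by rw [hEE]; exact Real.one_le_exp (by positivity)
  have hEE0 : 0 < EE := by linarith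
  rw [← hEE] at hρ ⊢
  have hjR : (1 : ℝ) ≤ kk := by exact_mod_cast hkk1
  have hj0 : (0 : ℝ) < kk := by linarith
  have hNR : (36 : ℝ) ≤ N := by exact_mod_cast hN
  refine ⟨min δs (w / (100 * kk)), lt_min hδs (by positivity), fun δ hδ hδ' => ?_⟩
  have hδa : δ ≤ δs := hδ'.trans (min_le_left _ _)
  have hδ2 : δ ≤ w / (100 * kk) := hδ'.trans (min_le_right _ _)
  have hδ3 : 100 * kk * δ ≤ w := by
    rw [le_div_iff₀ (by positivity)] at hδ2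
    linarith
  have hδ4 : 100 * δ ≤ w := by
    have h1 : 100 * 1 * δ ≤ 100 * kk * δ :=
      mul_le_mul_of_nonneg_right (mul_le_mul_of_nonneg_left hjR (by norm_num)) hδ.le
    linarith
  obtain ⟨m, hm⟩ : ∃ m : ℕ, m = ⌈w / (10 * δ)⌉₊ := ⟨_, rfl⟩
  have hm1 : w / (10 * δ) ≤ m := by rw [hm]; exact Nat.le_ceil _
  have hm2 : (m : ℝ) < w / (10 * δ) + 1 := by
    rw [hm]; exact Nat.ceil_lt_add_one (by positivity)
  rw [div_le_iff₀ (by positivity)] at hm1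
  have hm3 : m * (10 * δ) ≤ w + 10 * δ := by
    have h := mul_lt_mul_of_pos_right hm2 (show 0 < 10 * δ by positivity)
    rw [add_mul, div_mul_cancel₀ _ (by positivity)] at h
    linarith
  have hm4 : (kk : ℝ) ≤ m := by
    have : (kk : ℝ) * (10 * δ) ≤ m * (10 * δ) := by linarith
    exact le_of_mul_le_mul_right this (by positivity)
  have hm5 : (5 : ℝ) ≤ m := by
    have : (5 : ℝ) * (10 * δ) ≤ m * (10 * δ) := by linarith
    exact le_of_mul_le_mul_right this (by positivity)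
  have hm5' : 5 ≤ m := by exact_mod_cast hm5
  have hjm : kk ≤ m := by exact_mod_cast hm4
  have hm0 : (0 : ℝ) < m := by linarith
  have hmδ : m * δ ≤ w / 9 := by linarith
  obtain ⟨a, ha⟩ : ∃ a : ℕ, a = (m + kk - 1) / kk := ⟨_, rfl⟩
  have ha1 : 1 ≤ a := by
    rw [ha, Nat.one_le_div_iff (by omega)]
    omega
  have hmaj : m ≤ a * kk := by
    have h2 := Nat.lt_div_mul_add (a := m + kk - 1) (b := kk) (by omega)
    rw [← ha] at h2
    omega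
  have haj : a * kk ≤ m + kk - 1 := by rw [ha]; exact Nat.div_mul_le_self _ _
  have ham : a ≤ m := by
    by_contra hcon
    push Not at hcon
    have h2 : (m + 1) * kk ≤ a * kk := Nat.mul_le_mul_right _ hcon
    have h3 : (m + 1) * kk = m * kk + kk := by ring
    have h4 : m * 1 ≤ m * kk := Nat.mul_le_mul_left _ hkk1
    omega
  have ha2 : (a : ℝ) * kk ≤ 2 * m := by
    have : a * kk ≤ 2 * m := by omega
    exact_mod_cast this
  have ha0 : (0 : ℝ) < a := by exact_mod_cast ha1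
  obtain ⟨M, hM⟩ : ∃ M : ℝ, M = θ * kk * (a : ℝ) ^ (7/4 : ℝ) := ⟨_, rfl⟩
  have hτ : M * δ ^ (7/4 : ℝ) ≤ θ * ((kk : ℝ) ^ (-(3/4) : ℝ) * w ^ (7/4 : ℝ)) := by
    rw [hM]
    have h2 : (a : ℝ) * δ ≤ w / kk := by
      rw [le_div_iff₀ hj0]
      have h1 : (a : ℝ) * kk * δ ≤ 2 * m * δ := mul_le_mul_of_nonneg_right ha2 hδ.le
      have h3 : (a : ℝ) * δ * kk = (a : ℝ) * kk * δ := by ring
      have h4 : 2 * m * δ = 2 * (m * δ) := by ring
      rw [h3]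
      linarith
    have h3 : ((a : ℝ) * δ) ^ (7/4 : ℝ) ≤ (w / kk) ^ (7/4 : ℝ) :=
      Real.rpow_le_rpow (by positivity) h2 (by norm_num)
    rw [Real.mul_rpow ha0.le hδ.le, Real.div_rpow hw0.le hj0.le] at h3
    have h4 : (kk : ℝ) * (w ^ (7/4 : ℝ) / (kk : ℝ) ^ (7/4 : ℝ)) =
        (kk : ℝ) ^ (-(3/4) : ℝ) * w ^ (7/4 : ℝ) := by
      have e : (kk : ℝ) ^ (7/4 : ℝ) = (kk : ℝ) * (kk : ℝ) ^ (3/4 : ℝ) := by
        rw [show (7/4 : ℝ) = 1 + 3/4 by norm_num, Real.rpow_add hj0, Real.rpow_one]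
      rw [e, Real.rpow_neg hj0.le]
      have := Real.rpow_pos_of_pos hj0 (3/4 : ℝ)
      field_simp
    calc θ * kk * (a : ℝ) ^ (7/4 : ℝ) * δ ^ (7/4 : ℝ)
        = θ * (kk * ((a : ℝ) ^ (7/4 : ℝ) * δ ^ (7/4 : ℝ))) := by ring
      _ ≤ θ * (kk * (w ^ (7/4 : ℝ) / (kk : ℝ) ^ (7/4 : ℝ))) :=
          mul_le_mul_of_nonneg_left (mul_le_mul_of_nonneg_left h3 hj0.le) hθ.le
      _ = _ := by rw [h4]
  obtain ⟨W, L, hW, hLm, hWA, hpr2⟩ := hpr m a kk ha1 ham hmaj hkk1 hm5'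
  have hWm : 120 * m ≤ W := by
    have h2 : (120 : ℤ) * m ≤ W := by omega
    exact_mod_cast h2
  have hW1 : 1 ≤ W := by omega
  have hW0 : (0 : ℝ) < W := by exact_mod_cast hW1
  have hWL : (W : ℝ) = 2 * (L : ℝ) := by exact_mod_cast hW
  rw [← hEE] at hWA
  have hshape := hsh δ hδ hδa
  have hok := hshape.ok
  have hbd := hpr2 (R.dm δ) hok N hN
  rw [← hM] at hbd
  have hWδ : (W : ℝ) * δ ≤ A1 * (w * EE) / 9 := by
    have h2 : (W : ℝ) * δ ≤ A1 * (m * EE) * δ := mul_le_mul_of_nonneg_right hWA hδ.le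
    have h3 : A1 * (m * EE) * δ = (A1 * EE) * (m * δ) := by ring
    have h4 : (A1 * EE) * (m * δ) ≤ (A1 * EE) * (w / 9) :=
      mul_le_mul_of_nonneg_left hmδ (by positivity)
    calc (W : ℝ) * δ ≤ (A1 * EE) * (m * δ) := by linarith
      _ ≤ (A1 * EE) * (w / 9) := h4
      _ = _ := by ring
  have hwE : w ≤ w * EE := le_mul_of_one_le_right hw0.le hEE1
  have hwE0 : 0 < w * EE := by positivity
  have hAw : w * EE ≤ A1 * (w * EE) := le_mul_of_one_le_left hwE0.le hA1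
  have hAw2 : A1 * (w * EE) ≤ A0 * (w * EE) := mul_le_mul_of_nonneg_right hA01 hwE0.le
  refine le_trans (Pr_mono (okq (by norm_num) (by norm_num)) (B := FewH (R.dm δ) L W m N K1 M)
    (fun F hFs hF => ?_)) (hbd.trans ?_)
  · refine badgm R δ ρ w _ _ M K1 m N W L F hδ hw0 ?_ hτ hK1 ?_ ?_ hok hFs (by omega) hLm hF
    · have e : δ * (20 * (m : ℝ) - 1/2) = 2 * (m * (10 * δ)) - δ / 2 := by ring
      rw [e]
      linarith
    · have e : δ * (4 * (L : ℝ)) = 2 * (W * δ) := by rw [hWL]; ring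
      rw [e]
      linarith
    · have h2 : (W : ℝ) ^ (7/4 : ℝ) * δ ^ (7/4 : ℝ) ≤ A1 ^ (7/4 : ℝ) * (w * EE) ^ (7/4 : ℝ) := by
        rw [← Real.mul_rpow hW0.le hδ.le, ← Real.mul_rpow (by linarith) hwE0.le]
        exact Real.rpow_le_rpow (by positivity) (by linarith) (by norm_num)
      have h3 : δ ^ (7/4 : ℝ) ≤ (w * EE) ^ (7/4 : ℝ) :=
        Real.rpow_le_rpow hδ.le (by linarith) (by norm_num)
      have h5 : 0 < (w * EE) ^ (7/4 : ℝ) := by positivity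
      calc ((W : ℝ) ^ (7/4 : ℝ) * (K1 * (98 * N)) + 2) * δ ^ (7/4 : ℝ)
          = (W : ℝ) ^ (7/4 : ℝ) * δ ^ (7/4 : ℝ) * (K1 * (98 * N)) + 2 * δ ^ (7/4 : ℝ) := by ring
        _ ≤ A1 ^ (7/4 : ℝ) * (w * EE) ^ (7/4 : ℝ) * (K1 * (98 * N)) +
            2 * (w * EE) ^ (7/4 : ℝ) :=
            add_le_add (mul_le_mul_of_nonneg_right h2 (by positivity)) (by linarith)
        _ ≤ A1 ^ (7/4 : ℝ) * (w * EE) ^ (7/4 : ℝ) * (K1 * (98 * N)) +
            2 * (w * EE) ^ (7/4 : ℝ) * N :=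
            add_le_add le_rfl (le_mul_of_one_le_right (by positivity) (by linarith))
        _ = (A1 ^ (7/4 : ℝ) * K1 * 98 + 2) * ((w * EE) ^ (7/4 : ℝ) * N) := by ring
        _ ≤ A0 * ((w * EE) ^ (7/4 : ℝ) * N) := mul_le_mul_of_nonneg_right hA02 (by positivity)
  · have h2 := (SB_card hok hW1 hshape.w_le hshape.h_le).1
    have h3 : S / δ / W + 2 ≤ (S + 1) / w := by
      have h4 : S / δ / W ≤ S / w := by
        rw [div_div]
        refine div_le_div_of_nonneg_left hS.le (by positivity) ?_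
        have h5 : 120 * (m : ℝ) ≤ W := by exact_mod_cast hWm
        have h6 : δ * (120 * (m : ℝ)) ≤ δ * W := mul_le_mul_of_nonneg_left h5 hδ.le
        linarith
      have h6 : 2 ≤ 1 / w := by rw [le_div_iff₀ hw0]; linarith
      have e : (S + 1) / w = S / w + 1 / w := add_div _ _ _
      linarith
    have h7 : (0:ℝ) ≤ S / δ / W + 2 := by positivity
    have h4 : ((SB (R.dm δ) W).card : ℝ) ≤ ((S + 1) / w) ^ 2 :=
      h2.trans (pow_le_pow_left₀ h7 h3 2)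
    calc ((SB (R.dm δ) W).card : ℝ) * (20 * (1/2) ^ N) ≤ ((S + 1) / w) ^ 2 * (20 * (1/2) ^ N) :=
          mul_le_mul_of_nonneg_right h4 (by positivity)
      _ = 20 * (S + 1) ^ 2 / w ^ 2 * (1/2) ^ N := by rw [div_pow]; ring

end Pool.Agent.J4H99.PK
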