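import Pool.Agent.J4H99.PK.ThinTop
import Pool.Agent.J4H99.PK.Cant
import Pool.Agent.R965.ST.Top

/-!
Project PK: fast, slow, thick and thin times contain limsup sets of ubiquitous sets.
-/

set_option autoImplicit false
set_option linter.unusedVariables false

namespace Pool.Agent.J4H99.PK

open H974 Finset H342P H984P H984N Pool.Agent.Y995.FS Pool.Agent.Y995.HG
open MeasureTheory Filter Topology
open scoped ENNReal NNReal

/-- The set `E` of times contains the limsup of ubiquitous sets, in all arcs in the bulk. -/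
def LIP (R : Rect) (p : X) (s : ℝ) (E : Set unitInterval) : Prop :=
  ∀ (i : ℕ) (a b : unitInterval),
    (∀ u : unitInterval, a ≤ u → u ≤ b → 1 / ((i : ℝ) + 1) < dep R (p.1 u)) →
    ∃ A : ℕ → Set ℝ, Pool.Agent.Y995.TP.Ubi s A a b ∧
      ∀ u : unitInterval, a ≤ u → u ≤ b → (∃ᶠ j in atTop, (u : ℝ) ∈ A j) → u ∈ E

theorem LIP.mono {R : Rect} {p : X} {s s' : ℝ} {E : Set unitInterval} (h : LIP R p s E)
    (hs : s' ≤ s) (hs' : 0 ≤ s') : LIP R p s' E := by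
  intro i a b hdep
  obtain ⟨A, h1, h2⟩ := h i a b hdep
  exact ⟨A, ubi_mono hs hs' h1, h2⟩

section fast
open Pool.Agent.Y41.EV (BadV S_BADVO LatV)
open Pool.Agent.Y995.TP (kf kf_ge tf tf_pos hf hf_pos hf_lim wEF_lim pr_small Ft Fk ubi_fast
  fast_of)

theorem lip_fast : ∃ C θ0 : ℝ, 0 < C ∧ 0 < θ0 ∧ ∀ R : Rect, ∀ δ : ℕ → ℝ, (∀ i, 0 < δ i) →
    Tendsto δ atTop (𝓝 0) → ∀ μ : ProbabilityMeasure X,
      Tendsto (fun i => R.law (δ i)) atTop (𝓝 μ) → ∀ᵐ p ∂(μ : Measure X),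
        ∀ θ : ℝ, 0 < θ → θ ≤ θ0 → C * θ ^ (7/3 : ℝ) ≤ 1 → LIP R p (1 - C * θ ^ (7/3 : ℝ)) (Ft θ p) := by
  obtain ⟨⟨c, hc, hL⟩, ⟨C, hC, hU⟩, C2, hC2, hA⟩ := Pool.Agent.Y985.ME.inputs
  obtain ⟨θ1, K, A0, hθ1, hK, hA0, hlat⟩ := Pool.Agent.Y758.EV.latv Pool.Agent.Y41.EV.manyp
    Pool.Agent.Z864.EV.badvm c C hc hC hL hU
  have hopen : S_BADVO := Pool.Agent.Y287.EV.badvo
  have hA00 : 0 < A0 := by linarith
  obtain ⟨q0, hq0⟩ : ∃ q0 : ℝ, q0 = 1 / (48 * K) := ⟨_, rfl⟩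
  have hq0p : 0 < q0 := by rw [hq0]; positivity
  have hKq0 : K * q0 ≤ 1 / 48 := by
    rw [hq0]
    refine le_of_eq ?_
    field_simp
  have hq01 : q0 ≤ 1 := by
    rw [hq0, div_le_one (by positivity)]
    linarith
  obtain ⟨D, hD⟩ : ∃ D : ℝ, D = 4 * θ1 ^ (4/7 : ℝ) := ⟨_, rfl⟩
  have hD0 : 0 < D := by rw [hD]; positivity
  obtain ⟨θ0, hθ0⟩ : ∃ θ0 : ℝ, θ0 = q0 ^ (3/7 : ℝ) / D := ⟨_, rfl⟩
  have hθ00 : 0 < θ0 := by rw [hθ0]; positivity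
  have hpow : ∀ θ : ℝ, 0 < θ → θ ≤ θ0 → (D * θ) ^ (7/3 : ℝ) ≤ q0 := by
    intro θ h1 h2
    have h3 : D * θ ≤ q0 ^ (3/7 : ℝ) := by
      rw [hθ0, le_div_iff₀ hD0] at h2
      linarith
    have h4 := Real.rpow_le_rpow (by positivity) h3 (show (0:ℝ) ≤ 7/3 by norm_num)
    rw [← Real.rpow_mul hq0p.le] at h4
    norm_num at h4 ⊢
    exact h4
  refine ⟨12 * K * D ^ (7/3 : ℝ), θ0, by positivity, hθ00, fun R δ hδ hlim μ hμ => ?_⟩
  obtain ⟨A, hA1, hlatR⟩ := hlat R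
  have hbc : ∀ᵐ p ∂(μ : Measure X), ∀ n k : ℕ, ∀ᶠ j : ℕ in atTop,
      p ∉ BadV R (1 / ((k : ℝ) + 1)) ((1/2) ^ j) (tf θ1 (q0 * (1/2) ^ n) j)
        (hf K A0 (q0 * (1/2) ^ n) j) (6 * j + 36) := by
    rw [ae_all_iff]
    intro n
    obtain ⟨q, hq⟩ : ∃ q : ℝ, q = q0 * (1/2) ^ n := ⟨_, rfl⟩
    rw [← hq]
    have hqp : 0 < q := by rw [hq]; positivity
    have hKq : K * q ≤ 1 / 48 := by
      have h4 : ((1:ℝ)/2) ^ n ≤ 1 := pow_le_one₀ (by norm_num) (by norm_num)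
      have h5 : q ≤ q0 := by rw [hq]; nlinarith
      have h6 := mul_le_mul_of_nonneg_left h5 (show 0 ≤ K by linarith)
      linarith
    exact bc R (K := 1) le_rfl (B := fun ρ j => BadV R ρ ((1/2) ^ j) (tf θ1 q j) (hf K A0 q j)
      (6 * j + 36)) (fun ρ j => hopen R _ _ _ _ _)
      (fun ρ hρ => by
        have h1 : ∀ᶠ j : ℕ in atTop, 1 ≤ j ∧
            A0 * (((1:ℝ)/2) ^ j * Real.exp (2 * (K * ((kf q j : ℕ) : ℝ)))) ≤ ρ := by
          refine (eventually_ge_atTop 1).and ?_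
          have h2 := (wEF_lim hK hqp hKq).const_mul A0
          rw [mul_zero] at h2
          exact h2.eventually (ge_mem_nhds hρ)
        rw [eventually_atTop] at h1
        obtain ⟨j1, hj1⟩ := h1
        refine ⟨A, j1, hA1, fun j hj => ?_⟩
        obtain ⟨g1, g3⟩ := hj1 j hj
        have hw1 : ((1:ℝ)/2) ^ j ≤ 1/2 := by
          have : ((1:ℝ)/2) ^ j ≤ (1/2) ^ 1 := pow_le_pow_of_le_one (by norm_num) (by norm_num) g1
          simpa using this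
        obtain ⟨δ1, hδ1, h4⟩ := hlatR (kf q j) (6 * j + 36) ((1/2) ^ j) ρ (kf_ge q j)
          (by omega) (by positivity) hw1 g3
        refine ⟨δ1, hδ1, fun δ hδ hδ' => ?_⟩
        exact (h4 δ hδ hδ').trans (pr_small hA1 j))
      hδ hlim hμ
  filter_upwards [(final_of hc hC hL hU hC2 hA R).2.2 δ hδ hlim μ hμ, hbc] with p g1 g2 θ hθ hθ' hCθ
  obtain ⟨hp0, -, -, -, hhol, -⟩ := g1
  obtain ⟨n, hn1, hn2⟩ := exists_nat_pow_near_of_lt_one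
    (show 0 < (D * θ) ^ (7/3 : ℝ) / q0 by positivity)
    (by rw [div_le_one hq0p]; exact hpow θ hθ hθ') (show (0:ℝ) < 1/2 by norm_num) (by norm_num)
  obtain ⟨q, hq⟩ : ∃ q : ℝ, q = q0 * (1/2) ^ n := ⟨_, rfl⟩
  have hq0' : 0 < q := by rw [hq]; positivity
  have hqq0 : q ≤ q0 := by
    have : ((1:ℝ)/2) ^ n ≤ 1 := pow_le_one₀ (by norm_num) (by norm_num)
    rw [hq]
    nlinarith
  have hKq : K * q ≤ 1 / 48 := by
    have h6 := mul_le_mul_of_nonneg_left hqq0 (show 0 ≤ K by linarith)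
    linarith
  have hx1 : (D * θ) ^ (7/3 : ℝ) ≤ q := by
    rw [div_le_iff₀ hq0p] at hn2
    rw [hq]; linarith
  have hx2 : q ≤ 2 * (D * θ) ^ (7/3 : ℝ) := by
    rw [lt_div_iff₀ hq0p, pow_succ] at hn1
    rw [hq]; linarith
  have hx3 : 4 * θ1 ^ (4/7 : ℝ) * θ ≤ q ^ (3/7 : ℝ) := by
    have h4 := Real.rpow_le_rpow (by positivity) hx1 (show (0:ℝ) ≤ 3/7 by norm_num)
    rw [← Real.rpow_mul (by positivity)] at h4
    norm_num at h4
    rw [hD] at h4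
    exact h4
  have hKq0' : 0 < K * q := by positivity
  obtain ⟨Λ, hΛ⟩ := hhol (1 / (7/4 + K * q)) (by positivity) (by
    rw [div_lt_div_iff₀ (by positivity) (by norm_num)]
    linarith)
  intro i a b hdep
  have hg := g2 n i
  rw [← hq] at hg
  refine ⟨fun j => Fk ((1/2) ^ j) (tf θ1 q j) p, ?_, fun u hu1 hu2 hfr => ?_⟩
  · refine ubi_mono ?_ (by linarith) (ubi_fast hp0 (Λ := max Λ 1) (θ := θ1)
      (lt_of_lt_of_le one_pos (le_max_right _ _)) hK hA00 hq0' hKq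
      (fun u v => (hΛ u v).trans (mul_le_mul_of_nonneg_right (le_max_left _ _)
        (Real.rpow_nonneg (abs_nonneg _) _))) hg hdep)
    rw [Real.mul_rpow hD0.le hθ.le] at hx2
    have h6 := mul_le_mul_of_nonneg_left hx2 (show 0 ≤ K by linarith)
    have e : 12 * K * D ^ (7/3 : ℝ) * θ ^ (7/3 : ℝ) =
        6 * (K * (2 * (D ^ (7/3 : ℝ) * θ ^ (7/3 : ℝ)))) := by ring
    rw [e]
    linarith
  · refine fast_of hθ1 hq0' (hqq0.trans hq01) hθ hx3 (hfr.mono fun j hj => ?_)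
    obtain ⟨v, hv1, hv2⟩ := hj
    have : v = u := Subtype.ext hv2
    rw [← this]
    exact hv1

end fast

section thin
open Pool.Agent.Y995.TP (kf kf_ge tf tf_pos hf hf_pos hf_lim)

theorem lip_thin : ∃ C θ0 : ℝ, 0 < C ∧ 0 < θ0 ∧ ∀ R : Rect, ∀ δ : ℕ → ℝ, (∀ i, 0 < δ i) →
    Tendsto δ atTop (𝓝 0) → ∀ μ : ProbabilityMeasure X,
      Tendsto (fun i => R.law (δ i)) atTop (𝓝 μ) → ∀ᵐ p ∂(μ : Measure X),
        ∀ θ : ℝ, θ0 ≤ θ → C / θ ^ (4/3 : ℝ) ≤ 1 →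
          LIP R p (1 - C / θ ^ (4/3 : ℝ)) (Thin θ p) := by
  obtain ⟨⟨c, hc, hL⟩, ⟨C, hC, hU⟩, C2, hC2, hA⟩ := Pool.Agent.Y985.ME.inputs
  obtain ⟨θ1, K, A0, hθ1, hK, hA0, hlat⟩ := lath c C hc hC hL hU
  have hA00 : 0 < A0 := by linarith
  obtain ⟨q0, hq0⟩ : ∃ q0 : ℝ, q0 = 1 / (48 * K) := ⟨_, rfl⟩
  have hq0p : 0 < q0 := by rw [hq0]; positivity
  have hKq0 : K * q0 ≤ 1 / 48 := by
    rw [hq0]
    refine le_of_eq ?_
    field_simp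
  obtain ⟨D, hD⟩ : ∃ D : ℝ, D = 100 * θ1 := ⟨_, rfl⟩
  have hD0 : 0 < D := by rw [hD]; positivity
  obtain ⟨θ0, hθ0⟩ : ∃ θ0 : ℝ, θ0 = D / q0 ^ (3/4 : ℝ) := ⟨_, rfl⟩
  have hθ00 : 0 < θ0 := by rw [hθ0]; positivity
  have hpow : ∀ θ : ℝ, θ0 ≤ θ → (D / θ) ^ (4/3 : ℝ) ≤ q0 := by
    intro θ h1
    have hθp : 0 < θ := lt_of_lt_of_le hθ00 h1
    have h3 : D / θ ≤ q0 ^ (3/4 : ℝ) := by
      rw [hθ0, div_le_iff₀ (by positivity)] at h1
      rw [div_le_iff₀ hθp]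
      linarith
    have h4 := Real.rpow_le_rpow (by positivity) h3 (show (0:ℝ) ≤ 4/3 by norm_num)
    rw [← Real.rpow_mul hq0p.le] at h4
    norm_num at h4 ⊢
    exact h4
  refine ⟨12 * K * D ^ (4/3 : ℝ), θ0, by positivity, hθ00, fun R δ hδ hlim μ hμ => ?_⟩
  obtain ⟨A, hA1, hlatR⟩ := hlat R
  have hbc : ∀ᵐ p ∂(μ : Measure X), ∀ n k : ℕ, ∀ᶠ j : ℕ in atTop,
      p ∉ BadG R (1 / ((k : ℝ) + 1)) ((1/2) ^ j) (tf θ1 (q0 * (1/2) ^ n) j)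
        (hf K A0 (q0 * (1/2) ^ n) j) (6 * j + 36) := by
    rw [ae_all_iff]
    intro n
    refine bad_ev hθ1 hK hA0 (by positivity) ?_ hA1 hlatR hδ hlim hμ
    have h4 : ((1:ℝ)/2) ^ n ≤ 1 := pow_le_one₀ (by norm_num) (by norm_num)
    have h5 : q0 * (1/2) ^ n ≤ q0 := by nlinarith
    have h6 := mul_le_mul_of_nonneg_left h5 (show 0 ≤ K by linarith)
    linarith
  filter_upwards [(final_of hc hC hL hU hC2 hA R).2.2 δ hδ hlim μ hμ, hbc] with p g1 g2 θ hθ hCθ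
  obtain ⟨hp0, -, -, -, hhol, -⟩ := g1
  have hθp : 0 < θ := lt_of_lt_of_le hθ00 hθ
  obtain ⟨n, hn1, hn2⟩ := exists_nat_pow_near_of_lt_one
    (show 0 < (D / θ) ^ (4/3 : ℝ) / q0 by positivity)
    (by rw [div_le_one hq0p]; exact hpow θ hθ) (show (0:ℝ) < 1/2 by norm_num) (by norm_num)
  obtain ⟨q, hq⟩ : ∃ q : ℝ, q = q0 * (1/2) ^ n := ⟨_, rfl⟩
  have hq0' : 0 < q := by rw [hq]; positivity
  have hqq0 : q ≤ q0 := by
    have : ((1:ℝ)/2) ^ n ≤ 1 := pow_le_one₀ (by norm_num) (by norm_num)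
    rw [hq]
    nlinarith
  have hKq : K * q ≤ 1 / 48 := by
    have h6 := mul_le_mul_of_nonneg_left hqq0 (show 0 ≤ K by linarith)
    linarith
  have hx1 : (D / θ) ^ (4/3 : ℝ) ≤ q := by
    rw [div_le_iff₀ hq0p] at hn2
    rw [hq]; linarith
  have hx2 : q ≤ 2 * (D / θ) ^ (4/3 : ℝ) := by
    rw [lt_div_iff₀ hq0p, pow_succ] at hn1
    rw [hq]; linarith
  have hx3 : 100 * θ1 ≤ θ * q ^ (3/4 : ℝ) := by
    have h4 := Real.rpow_le_rpow (by positivity) hx1 (show (0:ℝ) ≤ 3/4 by norm_num)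
    rw [← Real.rpow_mul (by positivity)] at h4
    norm_num at h4
    rw [div_le_iff₀ hθp, hD] at h4
    linarith
  have hKq0' : 0 < K * q := by positivity
  obtain ⟨Λ, hΛ⟩ := hhol (1 / (7/4 + K * q)) (by positivity) (by
    rw [div_lt_div_iff₀ (by positivity) (by norm_num)]
    linarith)
  intro i a b hdep
  have hg := g2 n i
  rw [← hq] at hg
  refine ⟨fun j => Nk ((1/2) ^ j) (tf θ1 q j) p, ?_, fun u hu1 hu2 hfr => ?_⟩
  · refine ubi_mono ?_ (by linarith) (ubi_thin hp0 (Λ := max Λ 1) (θ := θ1)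
      (lt_of_lt_of_le one_pos (le_max_right _ _)) hK hA00 hq0' hKq
      (fun u v => (hΛ u v).trans (mul_le_mul_of_nonneg_right (le_max_left _ _)
        (Real.rpow_nonneg (abs_nonneg _) _))) hg hdep)
    rw [Real.div_rpow hD0.le hθp.le] at hx2
    have h6 := mul_le_mul_of_nonneg_left hx2 (show 0 ≤ K by linarith)
    have e : 12 * K * D ^ (4/3 : ℝ) / θ ^ (4/3 : ℝ) =
        6 * (K * (2 * (D ^ (4/3 : ℝ) / θ ^ (4/3 : ℝ)))) := by ring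
    rw [e]
    linarith
  · refine thin_of hθ1 hq0' hx3 (hfr.mono fun j hj => ?_)
    obtain ⟨v, hv1, hv2⟩ := hj
    have : v = u := Subtype.ext hv2
    rw [← this]
    exact hv1

end thin

section slow
open Pool.Agent.R965.CS (BadC LatC lat_c badC_open)
open Pool.Agent.R965.ST (Sl Sk tj_pos ubi_slow slow_of)
open Pool.Agent.Y995.TP (kt kt_ge kt_low kt_sq hj hj_pos hj_lim wE_lim pr_small)

theorem lip_slow : ∃ C θ0 : ℝ, 0 < C ∧ 0 < θ0 ∧ ∀ R : Rect, ∀ δ : ℕ → ℝ, (∀ i, 0 < δ i) →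
    Tendsto δ atTop (𝓝 0) → ∀ μ : ProbabilityMeasure X,
      Tendsto (fun i => R.law (δ i)) atTop (𝓝 μ) → ∀ᵐ p ∂(μ : Measure X),
        ∀ θ : ℝ, θ0 ≤ θ → C / θ ^ 14 ≤ 1 → LIP R p (1 - C / θ ^ 14) (Sl θ p) := by
  obtain ⟨⟨c, hc, hL⟩, ⟨C, hC, hU⟩, C2, hC2, hA⟩ := Pool.Agent.Y985.ME.inputs
  obtain ⟨κ, K, A0, hκ, hK, hA0, hlat⟩ := lat_c hc hC hL hU
  have hA00 : 0 < A0 := by linarith
  obtain ⟨q0, hq0⟩ : ∃ q0 : ℝ, q0 = 1 / (14 * K) := ⟨_, rfl⟩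
  have hq0p : 0 < q0 := by rw [hq0]; positivity
  have hKq0 : K * q0 ^ 2 ≤ 1 / 196 := by
    rw [hq0, div_pow, one_pow, mul_one_div, div_le_div_iff₀ (by positivity) (by norm_num)]
    nlinarith
  obtain ⟨D, hD⟩ : ∃ D : ℝ, D = 4 / (κ / 4) ^ (4/7 : ℝ) := ⟨_, rfl⟩
  have hD0 : 0 < D := by rw [hD]; positivity
  obtain ⟨θ0, hθ0⟩ : ∃ θ0 : ℝ, θ0 = D / q0 ^ (1/7 : ℝ) := ⟨_, rfl⟩
  have hθ00 : 0 < θ0 := by rw [hθ0]; positivity
  have hpow : ∀ θ : ℝ, θ0 ≤ θ → (D / θ) ^ 7 ≤ q0 := by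
    intro θ h1
    have hθp : 0 < θ := lt_of_lt_of_le hθ00 h1
    have h3 : D / θ ≤ q0 ^ (1/7 : ℝ) := by
      rw [hθ0, div_le_iff₀ (by positivity)] at h1
      rw [div_le_iff₀ hθp]
      linarith
    have h4 := pow_le_pow_left₀ (by positivity) h3 7
    rw [← Real.rpow_natCast (q0 ^ (1/7 : ℝ)) 7, ← Real.rpow_mul hq0p.le] at h4
    norm_num at h4
    exact h4
  refine ⟨96 * K * D ^ 14, θ0, by positivity, hθ00, fun R δ hδ hlim μ hμ => ?_⟩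
  obtain ⟨A, hA1, hlatR⟩ := hlat R
  have hbc : ∀ᵐ p ∂(μ : Measure X), ∀ n k : ℕ, ∀ᶠ j : ℕ in atTop,
      p ∉ BadC R (1 / ((k : ℝ) + 1)) ((1/2) ^ j) (Pool.Agent.R965.ST.tj κ (q0 * (1/2) ^ n) j)
        (hj K A0 (q0 * (1/2) ^ n) j) (6 * j + 36) := by
    rw [ae_all_iff]
    intro n
    obtain ⟨q, hq⟩ : ∃ q : ℝ, q = q0 * (1/2) ^ n := ⟨_, rfl⟩
    rw [← hq]
    have hqp : 0 < q := by rw [hq]; positivity
    have hKq : K * q ^ 2 ≤ 1 / 48 := by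
      have h4 : ((1:ℝ)/2) ^ n ≤ 1 := pow_le_one₀ (by norm_num) (by norm_num)
      have h5 : q ^ 2 ≤ q0 ^ 2 := pow_le_pow_left₀ hqp.le (by rw [hq]; nlinarith) 2
      have h6 := mul_le_mul_of_nonneg_left h5 (show 0 ≤ K by linarith)
      linarith
    exact bc R (K := 1) le_rfl (B := fun ρ j => BadC R ρ ((1/2) ^ j)
      (Pool.Agent.R965.ST.tj κ q j) (hj K A0 q j) (6 * j + 36))
      (fun ρ j => badC_open R _ _ _ _ _)
      (fun ρ hρ => by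
        have h1 : ∀ᶠ j : ℕ in atTop, 1 ≤ j ∧
            A0 * (((1:ℝ)/2) ^ j * Real.exp (2 * (K * ((kt q j : ℕ) : ℝ) ^ 2))) ≤ ρ := by
          refine (eventually_ge_atTop 1).and ?_
          have h2 := (wE_lim hK hqp hKq).const_mul A0
          rw [mul_zero] at h2
          exact h2.eventually (ge_mem_nhds hρ)
        rw [eventually_atTop] at h1
        obtain ⟨j1, hj1⟩ := h1
        refine ⟨A, j1, hA1, fun j hj => ?_⟩
        obtain ⟨g1, g3⟩ := hj1 j hj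
        have hw1 : ((1:ℝ)/2) ^ j ≤ 1/2 := by
          have : ((1:ℝ)/2) ^ j ≤ (1/2) ^ 1 := pow_le_pow_of_le_one (by norm_num) (by norm_num) g1
          simpa using this
        obtain ⟨δ1, hδ1, h4⟩ := hlatR (kt q j) (6 * j + 36) ((1/2) ^ j) ρ (kt_ge q j)
          (by omega) (by positivity) hw1 g3
        refine ⟨δ1, hδ1, fun δ hδ hδ' => ?_⟩
        exact (h4 δ hδ hδ').trans (pr_small hA1 j))
      hδ hlim hμ
  filter_upwards [(final_of hc hC hL hU hC2 hA R).2.2 δ hδ hlim μ hμ, hbc] with p g1 g2 θ hθ hCθ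
  obtain ⟨hp0, -, -, -, -, -⟩ := g1
  have hθp : 0 < θ := lt_of_lt_of_le hθ00 hθ
  obtain ⟨n, hn1, hn2⟩ := exists_nat_pow_near_of_lt_one
    (show 0 < (D / θ) ^ 7 / q0 by positivity)
    (by rw [div_le_one hq0p]; exact hpow θ hθ) (show (0:ℝ) < 1/2 by norm_num) (by norm_num)
  obtain ⟨q, hq⟩ : ∃ q : ℝ, q = q0 * (1/2) ^ n := ⟨_, rfl⟩
  have hq0' : 0 < q := by rw [hq]; positivity
  have hqq0 : q ≤ q0 := by
    have : ((1:ℝ)/2) ^ n ≤ 1 := pow_le_one₀ (by norm_num) (by norm_num)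
    rw [hq]
    nlinarith
  have hKq : K * q ^ 2 ≤ 1 / 48 := by
    have h5 : q ^ 2 ≤ q0 ^ 2 := pow_le_pow_left₀ hq0'.le hqq0 2
    have h6 := mul_le_mul_of_nonneg_left h5 (show 0 ≤ K by linarith)
    linarith
  have hx1 : (D / θ) ^ 7 ≤ q := by
    rw [div_le_iff₀ hq0p] at hn2
    rw [hq]; linarith
  have hx2 : q ≤ 2 * (D / θ) ^ 7 := by
    rw [lt_div_iff₀ hq0p, pow_succ] at hn1
    rw [hq]; linarith
  have hx3 : 4 ≤ θ * ((κ / 4) ^ (4/7 : ℝ) * q ^ (1/7 : ℝ)) := by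
    have h4 := Real.rpow_le_rpow (by positivity) hx1 (show (0:ℝ) ≤ 1/7 by norm_num)
    rw [← Real.rpow_natCast (D / θ) 7, ← Real.rpow_mul (by positivity)] at h4
    norm_num at h4
    rw [div_le_iff₀ hθp, hD, div_le_iff₀ (by positivity)] at h4
    norm_num
    linarith
  intro i a b hdep
  have hg := g2 n i
  rw [← hq] at hg
  refine ⟨fun j => Sk ((1/2) ^ j) (Pool.Agent.R965.ST.tj κ q j) p, ?_, fun u hu1 hu2 hfr => ?_⟩
  · refine ubi_mono ?_ (by linarith) (ubi_slow hp0 hK hA00 hκ hq0' hKq hg hdep)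
    have h5 : q ^ 2 ≤ (2 * (D / θ) ^ 7) ^ 2 := pow_le_pow_left₀ hq0'.le hx2 2
    have e : (2 * (D / θ) ^ 7) ^ 2 = 4 * (D ^ 14 / θ ^ 14) := by
      rw [mul_pow, ← pow_mul, ← div_pow]; norm_num
    rw [e] at h5
    have h6 := mul_le_mul_of_nonneg_left h5 (show 0 ≤ K by linarith)
    have e2 : 96 * K * D ^ 14 / θ ^ 14 = 24 * (K * (4 * (D ^ 14 / θ ^ 14))) := by ring
    rw [e2]
    linarith
  · refine slow_of hK hκ hq0' hKq hθp hx3 (hfr.mono fun j hj => ?_)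
    obtain ⟨v, hv1, hv2⟩ := hj
    have : v = u := Subtype.ext hv2
    rw [← this]
    exact hv1

end slow

section thick
open Pool.Agent.Y995.TP (kt kt_ge kt_low kt_sq tj tj_pos hj hj_pos hj_lim wE_lim pr_small ubi star Th
  thick_of Tk)

theorem lip_thick : ∃ C θ0 : ℝ, 0 < C ∧ 0 < θ0 ∧ ∀ R : Rect, ∀ δ : ℕ → ℝ, (∀ i, 0 < δ i) →
    Tendsto δ atTop (𝓝 0) → ∀ μ : ProbabilityMeasure X,
      Tendsto (fun i => R.law (δ i)) atTop (𝓝 μ) → ∀ᵐ p ∂(μ : Measure X),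
        ∀ θ : ℝ, 0 < θ → θ ≤ θ0 → C * θ ^ 8 ≤ 1 → LIP R p (1 - C * θ ^ 8) (Th θ p) := by
  obtain ⟨⟨c, hc, hL⟩, ⟨C, hC, hU⟩, C2, hC2, hA⟩ := Pool.Agent.Y985.ME.inputs
  obtain ⟨κ, K, A0, hκ, hK, hA0, hml⟩ := many_lat hc hC hL hU
  have hA00 : 0 < A0 := by linarith
  obtain ⟨q0, hq0⟩ : ∃ q0 : ℝ, q0 = 1 / (14 * K) := ⟨_, rfl⟩
  have hq0p : 0 < q0 := by rw [hq0]; positivity
  have hKq0 : K * q0 ^ 2 ≤ 1 / 196 := by
    rw [hq0, div_pow, one_pow, mul_one_div, div_le_div_iff₀ (by positivity) (by norm_num)]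
    nlinarith
  obtain ⟨θ0, hθ0⟩ : ∃ θ0 : ℝ, θ0 = κ * q0 ^ (1/4 : ℝ) / 25 := ⟨_, rfl⟩
  have hθ00 : 0 < θ0 := by rw [hθ0]; positivity
  have hpow : ∀ θ : ℝ, 0 < θ → θ ≤ θ0 → (25 * θ / κ) ^ 4 ≤ q0 := by
    intro θ h1 h2
    have h3 : 25 * θ / κ ≤ q0 ^ (1/4 : ℝ) := by
      rw [div_le_iff₀ hκ]
      rw [hθ0] at h2
      linarith
    have h4 := pow_le_pow_left₀ (by positivity) h3 4
    rw [← Real.rpow_natCast (q0 ^ (1/4 : ℝ)) 4, ← Real.rpow_mul hq0p.le] at h4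
    norm_num at h4
    exact h4
  refine ⟨96 * K * (25 / κ) ^ 8, θ0, by positivity, hθ00, fun R δ hδ hlim μ hμ => ?_⟩
  obtain ⟨A, hA1, hb⟩ := hml R
  have hbc : ∀ᵐ p ∂(μ : Measure X), ∀ n k : ℕ, ∀ᶠ j : ℕ in atTop,
      p ∉ BadN R (1 / ((k : ℝ) + 1)) ((1/2) ^ j) (tj κ (q0 * (1/2) ^ n) j)
        (hj K A0 (q0 * (1/2) ^ n) j) (6 * j + 36) := by
    rw [ae_all_iff]
    intro n
    obtain ⟨q, hq⟩ : ∃ q : ℝ, q = q0 * (1/2) ^ n := ⟨_, rfl⟩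
    rw [← hq]
    have hqp : 0 < q := by rw [hq]; positivity
    have hKq : K * q ^ 2 ≤ 1 / 48 := by
      have h4 : ((1:ℝ)/2) ^ n ≤ 1 := pow_le_one₀ (by norm_num) (by norm_num)
      have h5 : q ^ 2 ≤ q0 ^ 2 := pow_le_pow_left₀ hqp.le (by rw [hq]; nlinarith) 2
      have h6 := mul_le_mul_of_nonneg_left h5 (show 0 ≤ K by linarith)
      linarith
    exact bc R (K := 1) le_rfl (B := fun ρ j => BadN R ρ ((1/2) ^ j) (tj κ q j) (hj K A0 q j)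
      (6 * j + 36)) (fun ρ j => badN_open R _ _ _ _ _)
      (fun ρ hρ => by
        have h1 : ∀ᶠ j : ℕ in atTop, 1 ≤ j ∧
            A0 * (((1:ℝ)/2) ^ j * Real.exp (2 * (K * ((kt q j : ℕ) : ℝ) ^ 2))) ≤ ρ := by
          refine (eventually_ge_atTop 1).and ?_
          have h2 := (wE_lim hK hqp hKq).const_mul A0
          rw [mul_zero] at h2
          exact h2.eventually (ge_mem_nhds hρ)
        rw [eventually_atTop] at h1
        obtain ⟨j1, hj1⟩ := h1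
        refine ⟨A, j1, hA1, fun j hj => ?_⟩
        obtain ⟨g1, g3⟩ := hj1 j hj
        have hw1 : ((1:ℝ)/2) ^ j ≤ 1/2 := by
          have : ((1:ℝ)/2) ^ j ≤ (1/2) ^ 1 := pow_le_pow_of_le_one (by norm_num) (by norm_num) g1
          simpa using this
        obtain ⟨δ1, hδ1, h4⟩ := hb (kt q j) (6 * j + 36) ((1/2) ^ j) ρ (kt_ge q j)
          (by omega) (by positivity) hw1 g3
        refine ⟨δ1, hδ1, fun δ hδ hδ' => ?_⟩
        exact (h4 δ hδ hδ').trans (pr_small hA1 j))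
      hδ hlim hμ
  filter_upwards [(final_of hc hC hL hU hC2 hA R).2.2 δ hδ hlim μ hμ, hbc]
    with p g1 g2 θ hθ hθ' hCθ
  obtain ⟨hp0, -, -, -, hhol, -⟩ := g1
  obtain ⟨Λ, hΛ⟩ := hhol (1/2) (by norm_num) (by norm_num)
  obtain ⟨n, hn1, hn2⟩ := exists_nat_pow_near_of_lt_one
    (show 0 < (25 * θ / κ) ^ 4 / q0 by positivity)
    (by rw [div_le_one hq0p]; exact hpow θ hθ hθ') (show (0:ℝ) < 1/2 by norm_num) (by norm_num)
  obtain ⟨q, hq⟩ : ∃ q : ℝ, q = q0 * (1/2) ^ n := ⟨_, rfl⟩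
  have hq0' : 0 < q := by rw [hq]; positivity
  have hqq0 : q ≤ q0 := by
    have : ((1:ℝ)/2) ^ n ≤ 1 := pow_le_one₀ (by norm_num) (by norm_num)
    rw [hq]
    nlinarith
  have hKq : K * q ^ 2 ≤ 1 / 48 := by
    have h5 : q ^ 2 ≤ q0 ^ 2 := pow_le_pow_left₀ hq0'.le hqq0 2
    have h6 := mul_le_mul_of_nonneg_left h5 (show 0 ≤ K by linarith)
    linarith
  have hKq0' : 0 < K * q ^ 2 := by positivity
  have hx1 : (25 * θ / κ) ^ 4 ≤ q := by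
    rw [div_le_iff₀ hq0p] at hn2
    rw [hq]; linarith
  have hx2 : q ≤ 2 * (25 * θ / κ) ^ 4 := by
    rw [lt_div_iff₀ hq0p, pow_succ] at hn1
    rw [hq]; linarith
  have hx3 : 25 * θ ≤ κ * q ^ (1/4 : ℝ) := by
    have h4 := Real.rpow_le_rpow (by positivity) hx1 (show (0:ℝ) ≤ 1/4 by norm_num)
    rw [← Real.rpow_natCast (25 * θ / κ) 4, ← Real.rpow_mul (by positivity)] at h4
    norm_num at h4
    rw [div_le_iff₀ hκ] at h4
    norm_num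
    linarith
  intro i a b hdep
  have hg := g2 n i
  rw [← hq] at hg
  refine ⟨fun j => Tk ((1/2) ^ j) (tj κ q j) p, ?_, fun u hu1 hu2 hfr => ?_⟩
  · refine ubi_mono (s := 1 - 24 * (K * q ^ 2)) ?_ (by linarith)
      (ubi hp0 (Λ := max Λ 1) (lt_of_lt_of_le one_pos (le_max_right _ _))
        (fun u v => (hΛ u v).trans (mul_le_mul_of_nonneg_right (le_max_left _ _)
          (Real.rpow_nonneg (abs_nonneg _) _)))
        (R := R) (ρ := 1 / ((i : ℝ) + 1)) (w := fun j => (1/2) ^ j) (τ := tj κ q) (h := hj K A0 q)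
        (N := fun j => 6 * j + 36) (fun j => by omega) (fun j => by positivity) (tj_pos hκ)
        (hj_pos hA00) hg (by linarith) (by linarith)
        (hj_lim hK hA00 hq0' hKq) (fun c hc => star hK hA00 hκ hq0' hKq hc) hdep)
    have h5 : q ^ 2 ≤ (2 * (25 * θ / κ) ^ 4) ^ 2 := pow_le_pow_left₀ hq0'.le hx2 2
    have e : (2 * (25 * θ / κ) ^ 4) ^ 2 = 4 * ((25 / κ) ^ 8 * θ ^ 8) := by
      rw [show 25 * θ / κ = 25 / κ * θ by ring]
      ring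
    rw [e] at h5
    have h6 := mul_le_mul_of_nonneg_left h5 (show 0 ≤ K by linarith)
    nlinarith
  · refine thick_of hκ hq0' hx3 hθ (hfr.mono fun j hj => ?_)
    obtain ⟨v, hv1, hv2⟩ := hj
    have : v = u := Subtype.ext hv2
    rw [← this]
    exact hv1

end thick

end Pool.Agent.J4H99.PK
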