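import Pool.Agent.Y41.EV.StmD

/-!
Project PK (helper99, MP_216314_pr): exact packing measure of the scaling limits of the critical
exploration path. Deterministic statements (nothing is assumed). `psi`, `ll`, `UPF`, `LOF`, `Pairs`
are in `Pool.Agent.Y41.EV.Base`; `ww`, `NN` in `Pool.Agent.Y995.HG.Gauge`; `tau`, `ell` in
`Pool.Agent.Y41.EV.StmD`.
-/

set_option autoImplicit false

namespace Pool.Agent.J4H99.PK

open MeasureTheory Filter Topology Pool.Agent.Y41.EV Pool.Agent.Y995.HG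
open scoped ENNReal

/-! ### Packing measures -/

/-- Packing premeasure of `E` with the gauge `g` (a function of the radius). -/
noncomputable def pre (g : ℝ → ℝ≥0∞) (E : Set ℂ) : ℝ≥0∞ :=
  ⨅ δ : ℝ, ⨅ _ : 0 < δ, ⨆ n : ℕ, ⨆ x : Fin n → ℂ, ⨆ r : Fin n → ℝ,
    ⨆ _ : (∀ i, x i ∈ E ∧ 0 < r i ∧ r i < δ) ∧ ∀ i j, i ≠ j →
      Disjoint (Metric.closedBall (x i) (r i)) (Metric.closedBall (x j) (r j)),
    ∑ i, g (r i)

/-- Packing measure of `E` with the gauge `g`. -/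
noncomputable def pack (g : ℝ → ℝ≥0∞) (E : Set ℂ) : ℝ≥0∞ :=
  ⨅ A : ℕ → Set ℂ, ⨅ _ : E ⊆ ⋃ n, A n, ∑' n, pre g (A n)

/-- the gauge `ψ` -/
noncomputable def gps (r : ℝ) : ℝ≥0∞ := ENNReal.ofReal (psi r)

/-- the gauge `r ^ (7/4) / (log log (1/r)) ^ (3/4)` -/
noncomputable def gex (r : ℝ) : ℝ≥0∞ :=
  ENNReal.ofReal (r ^ (7/4 : ℝ) / Real.log (Real.log (1 / r)) ^ (3/4 : ℝ))

/-- the gauge `r ^ (7/4)` -/
noncomputable def g74 (r : ℝ) : ℝ≥0∞ := ENNReal.ofReal (r ^ (7/4 : ℝ))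

/-- JOB GEX: only small radii matter. -/
def S_GEX : Prop := ∀ E : Set ℂ, pack gex E = pack gps E

/-- JOB P74: the `7/4`-dimensional packing measure is infinite. -/
def S_P74 : Prop := ∀ (f : C(unitInterval, ℂ)) (c : ℝ), 0 < c →
  (∀ S : Set unitInterval, ENNReal.ofReal c * volume S ≤ pack gps (f '' S)) →
  ∀ S : Set unitInterval, volume S ≠ 0 → pack g74 (f '' S) = ⊤

/-- JOB UP: upper bound. -/
def S_UP : Prop := ∀ (f : C(unitInterval, ℂ)) (T C c : ℝ), 0 < T → 0 < C → 0 < c → UPF f T C →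
  LOF f T c → ∀ S : Set unitInterval, pack gps (f '' S) ≤ ENNReal.ofReal (C * T) * volume S

/-- At almost every time `t` there are small balls around `f t` where the path spends little
time. -/
def LI (f : C(unitInterval, ℂ)) (T C : ℝ) : Prop := ∀ᵐ t : unitInterval, ∀ η : ℝ, 0 < η →
  ∃ r : ℝ, 0 < r ∧ r < η ∧
    T * (volume {u : unitInterval | dist (f u) (f t) ≤ 5 * r}).toReal ≤ C * psi r

/-- JOB LOW: lower bound (Vitali covering). -/
def S_LOW : Prop := ∀ (f : C(unitInterval, ℂ)) (T C : ℝ), 0 < T → 0 < C → LI f T C →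
  ∀ S : Set unitInterval, ENNReal.ofReal (T / C) * volume S ≤ pack gps (f '' S)

/-- A good pair: fast, and the path spends little time (at any time) near its starting point. -/
def GP (f : C(unitInterval, ℂ)) (T C1 η : ℝ) (s t a b : unitInterval) (w : ℝ) : Prop :=
  s ≤ a ∧ a ≤ b ∧ b ≤ t ∧ (b : ℝ) - a ≤ η ∧ 0 < w ∧ w ≤ η ∧ w ≤ dist (f a) (f b) ∧
    T * (volume {u : unitInterval | dist (f u) (f a) < w / 4}).toReal ≤ C1 * psi w

/-- There are non-overlapping good pairs in `[s, t]` with `ψ`-sum at least `x`. -/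
def GW (f : C(unitInterval, ℂ)) (T C1 η : ℝ) (s t : unitInterval) (x : ℝ) : Prop :=
  ∃ (n : ℕ) (a b : ℕ → unitInterval) (w : ℕ → ℝ), (∀ i < n, GP f T C1 η s t (a i) (b i) (w i)) ∧
    (∀ i j, i < j → j < n → b i ≤ a j) ∧ x ≤ ∑ i ∈ Finset.range n, psi (w i)

/-- JOB LI: from good pairs to almost every time (Lebesgue density; compare
`Pool.Agent.R965.EV.LilLow`). -/
def S_LI : Prop := ∀ c C C1 : ℝ, 0 < c → 0 < C → 0 < C1 → ∃ C' : ℝ, 0 < C' ∧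
  ∀ (f : C(unitInterval, ℂ)) (T : ℝ) (g : unitInterval → ℝ), Continuous g → 0 < T → UPF f T C →
  volume {u : unitInterval | g u ≤ 0} = 0 →
  (∀ (k : ℕ) (s t : unitInterval), s ≤ t → (∀ u ∈ Set.Icc s t, 1 / ((k : ℝ) + 1) < g u) →
    ∀ η : ℝ, 0 < η → GW f T C1 η s t (c * T * ((t : ℝ) - s))) →
  LI f T C'

/-- `N` disjoint good pairs in `[s, t]`. -/
def GPairs (f : C(unitInterval, ℂ)) (T w τ : ℝ) (N : ℕ) (s t : unitInterval) : Prop :=
  ∃ u v : Fin N → unitInterval, (∀ a, s ≤ u a ∧ u a ≤ v a ∧ v a ≤ t) ∧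
    (∀ a b, a ≠ b → v a ≤ u b ∨ v b ≤ u a) ∧
    ∀ a, w ≤ dist (f (u a)) (f (v a)) ∧ T * ((v a : ℝ) - u a) ≤ τ ∧
      T * (volume {r : unitInterval | dist (f r) (f (u a)) < w / 4}).toReal ≤ τ

/-- JOB GWB: recursion over the scales (compare `S_LOWBULK`, `S_TREE1`, `S_TREE2`,
`Pool.Agent.R965.EV.Tree`, `Pool.Agent.R965.EV.Low`). -/
def S_GWB : Prop := ∀ θ K2 A0 : ℝ, 0 < θ → 1 ≤ K2 → 1 ≤ A0 → ∃ c0 C1 : ℝ, 0 < c0 ∧ 0 < C1 ∧
  ∀ (f : C(unitInterval, ℂ)) (T : ℝ) (I0 : Set unitInterval), 0 < T →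
  (∀ᶠ i : ℕ in atTop, ∀ s t : unitInterval, Set.Icc s t ⊆ I0 →
    ell A0 K2 i < T * ((t : ℝ) - s) → GPairs f T (ww i) (tau θ K2 i) (NN i) s t) →
  ∀ s t : unitInterval, s ≤ t → Set.Icc s t ⊆ I0 → ∀ η : ℝ, 0 < η →
    GW f T C1 η s t (c0 * T * ((t : ℝ) - s))

/-- JOB LD: lower density at almost every time, from the upper bound of the law of the iterated
logarithm. -/
def S_LD : Prop := ∀ C : ℝ, 0 < C → ∃ c : ℝ, 0 < c ∧ ∀ (f : C(unitInterval, ℂ)) (T : ℝ), 0 < T →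
  (∀ᵐ t : unitInterval, ∀ᶠ s : unitInterval in 𝓝 t,
    dist (f s) (f t) ≤ C * phi (T * |(s : ℝ) - t|)) →
  ∀ᵐ t : unitInterval, ∀ᶠ r : ℝ in 𝓝[>] 0,
    c * psi r ≤ T * (volume {u : unitInterval | dist (f u) (f t) ≤ r}).toReal

/-- JOB OPEN: the set of the curves with a long piece without `N` good pairs is open. -/
def S_OPEN : Prop := ∀ (d : ℂ → ℝ) (ρ w τ h : ℝ) (N : ℕ), Continuous d → 0 ≤ h →
  IsOpen {p : C(unitInterval, ℂ) × ℝ | ∃ s t : unitInterval,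
    (∀ u : unitInterval, s ≤ u → u ≤ t → ρ < d (p.1 u)) ∧
    h < p.2 * ((t : ℝ) - s) ∧ ¬ GPairs p.1 p.2 w τ N s t}

end Pool.Agent.J4H99.PK
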