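import Pool.Agent.J4H99.PK.Top
import Pool.Agent.Y995.TP.FastTop

/-!
Project PK: thin times: many cells of thin times, lower bound for the dimension (adaptation of
`Pool.Agent.Y995.TP.FastL`).
-/

set_option autoImplicit false
set_option linter.unusedVariables false

namespace Pool.Agent.J4H99.PK

open H974 Finset H342P H984P H984N Pool.Agent.Y995.FS Pool.Agent.Y995.HG
open Pool.Agent.Y41.EV
open Pool.Agent.Y995.TP (cell Ubi cells_in ubi_gen cantor bulk_arc kf_ge kf_low kf_up tf tf_pos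
  tf_lim hf hf_pos hf_lim starF wEF_lim pr_small lin_exp dim_nbhd Ft fast_times)
open MeasureTheory Filter Topology
open scoped ENNReal NNReal

/-- natural time spent in the disc of radius `r` around `f u` -/
noncomputable def occ (p : X) (u : unitInterval) (r : ℝ) : ℝ :=
  p.2 * (volume {v : unitInterval | dist (p.1 v) (p.1 u) ≤ r}).toReal

/-- `r ^ (7/4) / (log (1/r)) ^ (3/4)` -/
noncomputable def vv (r : ℝ) : ℝ := r ^ (7/4 : ℝ) / Real.log (1 / r) ^ (3/4 : ℝ)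

/-- thin times -/
def Thin (θ : ℝ) (p : X) : Set unitInterval := {u | ∃ᶠ r : ℝ in 𝓝[>] 0, occ p u r ≤ θ * vv r}

/-- thin times at scale `w` -/
def Nk (w τ : ℝ) (p : X) : Set ℝ := Subtype.val '' {u : unitInterval | occ p u (w / 9) ≤ τ}

/-- thin times next to a good pair -/
theorem thin_near {p : X} (hp : 0 < p.2) {Λ β : ℝ} (hΛ : 0 < Λ) (hβ : 0 < β)
    (hH : ∀ s t : unitInterval, dist (p.1 s) (p.1 t) ≤ Λ * |(s : ℝ) - t| ^ β)
    {w τ : ℝ} {N : ℕ} (hN : 0 < N) (hw : 0 < w) {s t : unitInterval}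
    (hz : GPairs p.1 p.2 w τ N s t) : ∃ x : unitInterval, s ≤ x ∧
      (x : ℝ) + (w / (9 * Λ)) ^ (1 / β) ≤ t ∧ ∀ z : unitInterval, x ≤ z →
        (z : ℝ) ≤ x + (w / (9 * Λ)) ^ (1 / β) → occ p z (w / 9) ≤ τ := by
  obtain ⟨u, v, h1, -, h2⟩ := hz
  obtain ⟨g1, g2, g3⟩ := h1 ⟨0, hN⟩
  obtain ⟨g4, g5, g6⟩ := h2 ⟨0, hN⟩
  obtain ⟨x, hx⟩ : ∃ x, x = u ⟨0, hN⟩ := ⟨_, rfl⟩
  obtain ⟨y, hy⟩ : ∃ y, y = v ⟨0, hN⟩ := ⟨_, rfl⟩
  rw [← hx] at g1 g2 g4 g5 g6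
  rw [← hy] at g2 g3 g4 g5
  have g2' : (x : ℝ) ≤ y := g2
  have g3' : (y : ℝ) ≤ t := g3
  have hlenxy : (w / Λ) ^ (1 / β) ≤ (y : ℝ) - x := by
    have h3 := g4.trans (hH x y)
    have h4 : w / Λ ≤ |(x : ℝ) - y| ^ β := by
      rw [div_le_iff₀ hΛ]; linarith
    have h5 := Real.rpow_le_rpow (by positivity) h4 (show 0 ≤ 1 / β by positivity)
    rw [← Real.rpow_mul (abs_nonneg _), mul_one_div, div_self hβ.ne', Real.rpow_one,
      abs_sub_comm, abs_of_nonneg (by linarith)] at h5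
    exact h5
  have hle9 : (w / (9 * Λ)) ^ (1 / β) ≤ (w / Λ) ^ (1 / β) := by
    refine Real.rpow_le_rpow (by positivity) ?_ (by positivity)
    refine div_le_div_of_nonneg_left hw.le hΛ ?_
    linarith
  refine ⟨x, g1, by linarith, fun z hz1 hz2 => ?_⟩
  have hz1' : (x : ℝ) ≤ z := hz1
  have hd : dist (p.1 z) (p.1 x) ≤ w / 9 := by
    refine (hH z x).trans ?_
    rw [abs_of_nonneg (by linarith)]
    have h5 : (z : ℝ) - x ≤ (w / (9 * Λ)) ^ (1 / β) := by linarith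
    have h6 := Real.rpow_le_rpow (by linarith) h5 hβ.le
    rw [← Real.rpow_mul (by positivity), one_div_mul_cancel hβ.ne', Real.rpow_one] at h6
    calc Λ * ((z : ℝ) - x) ^ β ≤ Λ * (w / (9 * Λ)) := mul_le_mul_of_nonneg_left h6 hΛ.le
      _ = w / 9 := by field_simp
  refine le_trans ?_ g6
  unfold occ
  refine mul_le_mul_of_nonneg_left ?_ hp.le
  refine ENNReal.toReal_mono (measure_ne_top _ _) (measure_mono fun r hr => ?_)
  have hr' : dist (p.1 r) (p.1 z) ≤ w / 9 := hr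
  show dist (p.1 r) (p.1 x) < w / 4
  have := dist_triangle (p.1 r) (p.1 z) (p.1 x)
  linarith

/-- cells of thin times inside a piece -/
theorem thin_cells {R : Rect} {p : X} (hp : 0 < p.2) {Λ β : ℝ} (hΛ : 0 < Λ) (hβ : 0 < β)
    (hH : ∀ s t : unitInterval, dist (p.1 s) (p.1 t) ≤ Λ * |(s : ℝ) - t| ^ β)
    {ρ w τ h : ℝ} {N : ℕ} (hN : 0 < N) (hw : 0 < w)
    (hbad : p ∉ BadG R ρ w τ h N) {a b l : ℝ} (ha : 0 ≤ a) (hab : a ≤ b) (hb : b ≤ 1)
    (hdep : ∀ u : unitInterval, a ≤ u → (u : ℝ) ≤ b → ρ < dep R (p.1 u))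
    (hlen : h < p.2 * (b - a)) (hl : 0 < l) {n : ℕ}
    (hn : (n : ℝ) + 2 ≤ (w / (9 * Λ)) ^ (1 / β) / l) :
    ∃ Q : Finset ℕ, Q.card = n ∧ ∀ k ∈ Q, cell l k ⊆ Set.Icc a b ∩ Nk w τ p := by
  obtain ⟨s, hs⟩ : ∃ s : unitInterval, s = ⟨a, ha, hab.trans hb⟩ := ⟨_, rfl⟩
  obtain ⟨t, ht⟩ : ∃ t : unitInterval, t = ⟨b, ha.trans hab, hb⟩ := ⟨_, rfl⟩
  have hsv : (s : ℝ) = a := by rw [hs]
  have htv : (t : ℝ) = b := by rw [ht]
  have hz : GPairs p.1 p.2 w τ N s t := by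
    by_contra hcon
    apply hbad
    refine ⟨s, t, fun u h1 h2 => ?_, ?_, hcon⟩
    · refine hdep u ?_ ?_
      · rw [← hsv]; exact h1
      · rw [← htv]; exact h2
    · rw [hsv, htv]; exact hlen
  obtain ⟨x, g1, g2, g3⟩ := thin_near hp hΛ hβ hH hN hw hz
  have g1' : (s : ℝ) ≤ x := g1
  obtain ⟨e, he⟩ : ∃ e : ℝ, e = (w / (9 * Λ)) ^ (1 / β) := ⟨_, rfl⟩
  rw [← he] at g2 g3 hn
  obtain ⟨Q, hQc, hQ⟩ := cells_in hl (V := Set.Icc (x:ℝ) (x + e)) (a := x) (b := x + e)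
    (v := e) subset_rfl x.2.1 (by
      rw [Real.volume_Icc, add_sub_cancel_left, ENNReal.toReal_ofReal]
      rw [he]; positivity) n hn
  refine ⟨Q, hQc, fun k hk z hz => ?_⟩
  have hzxy := (hQ k hk).1 hz
  have hza : a ≤ z := by have := hzxy.1; linarith
  have hzb : z ≤ b := by have := hzxy.2; linarith
  exact ⟨⟨hza, hzb⟩, ⟨z, ha.trans hza, hzb.trans hb⟩, g3 _ hzxy.1 hzxy.2, rfl⟩

/-- every interval contains many cells of thin times -/
theorem ubi_thin {R : Rect} {p : X} (hp : 0 < p.2) {Λ K A θ q : ℝ} (hΛ : 0 < Λ) (hK : 1 ≤ K)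
    (hA : 0 < A) (hq : 0 < q) (hKq : K * q ≤ 1 / 48)
    (hH : ∀ s t : unitInterval, dist (p.1 s) (p.1 t) ≤
      Λ * |(s : ℝ) - t| ^ (1 / (7/4 + K * q))) {ρ : ℝ}
    (hbad : ∀ᶠ j : ℕ in atTop, p ∉ BadG R ρ ((1/2) ^ j) (tf θ q j) (hf K A q j) (6 * j + 36))
    {a b : unitInterval} (hdep : ∀ u : unitInterval, a ≤ u → u ≤ b → ρ < dep R (p.1 u)) :
    Ubi (1 - 6 * (K * q)) (fun j => Nk ((1/2) ^ j) (tf θ q j) p) a b := by
  have hKq0 : 0 < K * q := by positivity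
  refine ubi_gen a.2.1 (H := fun j => 2 / p.2 * hf K A q j)
    (r := fun j => ((1/2) ^ j / (9 * Λ)) ^ (7/4 + K * q) / 2) (l0 := fun _ => 1)
    (fun j => by have := hf_pos (K := K) (q := q) hA j; positivity) (fun j => by positivity)
    (fun j => one_pos) (by linarith) (by linarith) ?_ ?_ ?_
  · have := (hf_lim hK hA hq hKq).const_mul (2 / p.2)
    rwa [mul_zero] at this
  · intro L hL
    filter_upwards [starF hK hA (Λ := 9 * Λ) (by positivity) hq hKq (c := 2 / p.2 / L)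
      (d := 1 / p.2) (by positivity) (by positivity)] with j hj
    refine le_trans (le_of_eq ?_) hj
    congr 2
    · congr 1
      ring
    · have : (0:ℝ) < ((1/2) ^ j / (9 * Λ)) ^ (7/4 + K * q) := by positivity
      field_simp
      norm_num
      ring
  · filter_upwards [hbad] with j hj x y hax hyb hxy l hl _ n hn
    have hh := hf_pos (K := K) (q := q) hA j
    have hH0 : 0 < 2 / p.2 * hf K A q j := by positivity
    refine thin_cells hp hΛ (β := 1 / (7/4 + K * q)) (by positivity) hH (N := 6 * j + 36)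
      (by omega) (by positivity) hj (a.2.1.trans hax) (by linarith) (hyb.trans b.2.2)
      (fun u hu1 hu2 => hdep u (show (a:ℝ) ≤ u from hax.trans hu1)
        (show (u:ℝ) ≤ b from hu2.trans hyb)) ?_ hl ?_
    · rw [hxy]
      have e : p.2 * (2 / p.2 * hf K A q j) = 2 * hf K A q j := by field_simp
      rw [e]
      linarith
    · refine hn.trans (le_of_eq ?_)
      rw [one_div_one_div]
      ring

/-- almost surely, at small scales, there are no bad pieces -/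
theorem bad_ev {θ K A0 : ℝ} (hθ : 0 < θ) (hK : 1 ≤ K) (hA0 : 1 ≤ A0)
    {q : ℝ} (hq : 0 < q) (hKq : K * q ≤ 1 / 48) {R : Rect} {A : ℝ} (hA : 0 < A)
    (hlat : LatH θ K A0 R A) {δ : ℕ → ℝ} (hδ : ∀ i, 0 < δ i) (hlim : Tendsto δ atTop (𝓝 0))
    {μ : ProbabilityMeasure X} (hμ : Tendsto (fun i => R.law (δ i)) atTop (𝓝 μ)) :
    ∀ᵐ p ∂(μ : Measure X), ∀ k : ℕ, ∀ᶠ j : ℕ in atTop,
      p ∉ BadG R (1 / ((k : ℝ) + 1)) ((1/2) ^ j) (tf θ q j) (hf K A0 q j) (6 * j + 36) := by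
  have hA00 : 0 < A0 := by linarith
  exact bc R (K := 1) le_rfl (B := fun ρ j => BadG R ρ ((1/2) ^ j) (tf θ q j) (hf K A0 q j)
    (6 * j + 36)) (fun ρ j => badgo R _ _ _ _ _ (hf_pos hA00 j).le)
    (fun ρ hρ => by
      have h1 : ∀ᶠ j : ℕ in atTop, 1 ≤ j ∧
          A0 * (((1:ℝ)/2) ^ j * Real.exp (2 * (K * ((Pool.Agent.Y995.TP.kf q j : ℕ) : ℝ)))) ≤ ρ := by
        refine (eventually_ge_atTop 1).and ?_
        have h2 := (wEF_lim hK hq hKq).const_mul A0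
        rw [mul_zero] at h2
        exact h2.eventually (ge_mem_nhds hρ)
      rw [eventually_atTop] at h1
      obtain ⟨j1, hj1⟩ := h1
      refine ⟨A, j1, hA, fun j hj => ?_⟩
      obtain ⟨g1, g3⟩ := hj1 j hj
      have hw1 : ((1:ℝ)/2) ^ j ≤ 1/2 := by
        have : ((1:ℝ)/2) ^ j ≤ (1/2) ^ 1 := pow_le_pow_of_le_one (by norm_num) (by norm_num) g1
        simpa using this
      obtain ⟨δ1, hδ1, h4⟩ := hlat (Pool.Agent.Y995.TP.kf q j) (6 * j + 36) ((1/2) ^ j) ρ (kf_ge q j)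
        (by omega) (by positivity) hw1 g3
      refine ⟨δ1, hδ1, fun δ hδ hδ' => ?_⟩
      exact (h4 δ hδ hδ').trans (pr_small hA j))
    hδ hlim hμ

/-- smaller `s` -/
theorem ubi_mono {s s' : ℝ} (h : s' ≤ s) (hs' : 0 ≤ s') {A : ℕ → Set ℝ} {a b : ℝ}
    (hU : Ubi s A a b) : Ubi s' A a b := by
  intro x y hax hxy hyb j0
  obtain ⟨j, hj, l, Q, hl, hl2, hQ, hQc, hQd⟩ := hU x y hax hxy hyb j0
  have hL : 0 < y - x := by linarith
  refine ⟨j, hj, l, Q, hl, hl2, hQ, le_trans ?_ hQc, fun z d hd Q' hQ' hQ'' => ?_⟩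
  · refine mul_le_mul_of_nonneg_left ?_ (by norm_num)
    refine Real.rpow_le_rpow_of_exponent_le ?_ h
    rw [le_div_iff₀ hl]
    linarith
  · have hd0 : 0 < d := hl.trans_le hd
    rcases le_or_gt d (y - x) with h1 | h1
    · refine (hQd z d hd Q' hQ' hQ'').trans ?_
      refine mul_le_mul_of_nonneg_right ?_ (Nat.cast_nonneg _)
      refine mul_le_mul_of_nonneg_left ?_ (by norm_num)
      refine Real.rpow_le_rpow_of_exponent_ge (by positivity) ?_ h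
      rw [div_le_one hL]
      exact h1
    · have h2 : (Q'.card : ℝ) ≤ Q.card := by exact_mod_cast card_le_card hQ'
      have h3 : 1 ≤ (d / (y - x)) ^ s' := by
        refine Real.one_le_rpow ?_ hs'
        rw [le_div_iff₀ hL]
        linarith
      have h4 : (0:ℝ) ≤ Q.card := Nat.cast_nonneg _
      nlinarith

/-- from cells to the dimension in `[s, t]` -/
theorem thin_low {θ K A0 : ℝ} (hθ : 0 < θ) (hK : 1 ≤ K) (hA0 : 1 ≤ A0)
    (hfin : ∀ R : Rect, (∀ δ : ℕ → ℝ, (∀ i, 0 < δ i) → Tendsto δ atTop (𝓝 0) →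
      ∀ μ : ProbabilityMeasure X, Tendsto (fun i => R.law (δ i)) atTop (𝓝 μ) →
      ∀ᵐ p ∂(μ : Measure X), 0 < p.2 ∧ p.1 0 = R.a ∧ p.1 1 = 0 ∧
        (∀ s : unitInterval, p.1 s ∈ closure R.D) ∧
        (∀ β : ℝ, 0 < β → β < 4/7 → ∃ Λ : ℝ, ∀ s t : unitInterval,
          dist (p.1 s) (p.1 t) ≤ Λ * |(s : ℝ) - t| ^ β) ∧
        ∀ s t : unitInterval, s < t → dimH (p.1 '' Set.Icc s t) = 7 / 4))
    {q : ℝ} (hq : 0 < q) (hKq : K * q ≤ 1 / 48) {R : Rect} {A : ℝ} (hA : 0 < A)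
    (hlat : LatH θ K A0 R A) {δ : ℕ → ℝ} (hδ : ∀ i, 0 < δ i) (hlim : Tendsto δ atTop (𝓝 0))
    {μ : ProbabilityMeasure X} (hμ : Tendsto (fun i => R.law (δ i)) atTop (𝓝 μ)) :
    ∀ᵐ p ∂(μ : Measure X), ∀ s t : unitInterval, s < t →
      (∃ a b : unitInterval, s ≤ a ∧ a < b ∧ b ≤ t ∧
        Ubi (1 - 6 * (K * q)) (fun j => Nk ((1/2) ^ j) (tf θ q j) p) a b) ∧
      (∀ᶠ j : ℕ in atTop, ∃ u : unitInterval, s ≤ u ∧ u ≤ t ∧
        occ p u ((1/2) ^ j / 9) ≤ tf θ q j) ∧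
      ENNReal.ofReal (1 - 6 * (K * q)) ≤ dimH {u : unitInterval | (s ≤ u ∧ u ≤ t) ∧
        ∃ᶠ j : ℕ in atTop, occ p u ((1/2) ^ j / 9) ≤ tf θ q j} := by
  have hA00 : 0 < A0 := by linarith
  have hKq0 : 0 < K * q := by positivity
  filter_upwards [hfin R δ hδ hlim μ hμ, bad_ev hθ hK hA0 hq hKq hA hlat hδ hlim hμ]
    with p g1 g2 s t hst
  obtain ⟨hp0, -, -, hcl, hhol, hdim⟩ := g1
  obtain ⟨Λ, hΛ⟩ := hhol (1 / (7/4 + K * q)) (by positivity) (by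
    rw [div_lt_div_iff₀ (by positivity) (by norm_num)]
    linarith)
  have hΛ1 : (0:ℝ) < max Λ 1 := lt_of_lt_of_le one_pos (le_max_right _ _)
  have hΛ2 : ∀ s t : unitInterval, dist (p.1 s) (p.1 t) ≤
      max Λ 1 * |(s : ℝ) - t| ^ (1 / (7/4 + K * q)) :=
    fun u v => (hΛ u v).trans (mul_le_mul_of_nonneg_right (le_max_left _ _)
      (Real.rpow_nonneg (abs_nonneg _) _))
  obtain ⟨a, b, i, e1, e2, e3, e4⟩ := bulk_arc hcl hdim hst
  have hU := ubi_thin hp0 (Λ := max Λ 1) (θ := θ) hΛ1 hK hA00 hq hKq hΛ2 (g2 i) e4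
  refine ⟨⟨a, b, e1, e2, e3, hU⟩, ?_, ?_⟩
  · have e2' : (a : ℝ) < b := e2
    have h5 : ∀ᶠ j : ℕ in atTop, hf K A0 q j < p.2 * ((b : ℝ) - a) :=
      (hf_lim hK hA00 hq hKq).eventually (gt_mem_nhds (mul_pos hp0 (by linarith)))
    filter_upwards [g2 i, h5] with j hj hj2
    have hz : GPairs p.1 p.2 ((1/2) ^ j) (tf θ q j) (6 * j + 36) a b := by
      by_contra hcon
      exact hj ⟨a, b, e4, hj2, hcon⟩
    obtain ⟨x, k1, k2, k3⟩ := thin_near hp0 hΛ1 (by positivity) hΛ2 (by omega) (by positivity) hz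
    refine ⟨x, e1.trans k1, ?_, k3 x le_rfl ?_⟩
    · refine le_trans ?_ e3
      show (x : ℝ) ≤ b
      refine le_trans ?_ k2
      have : (0:ℝ) ≤ ((1/2) ^ j / (9 * max Λ 1)) ^ (1 / (1 / (7/4 + K * q))) := by positivity
      linarith
    · have : (0:ℝ) ≤ ((1/2) ^ j / (9 * max Λ 1)) ^ (1 / (1 / (7/4 + K * q))) := by positivity
      linarith
  have hcan := cantor (s := 1 - 6 * (K * q)) (by linarith) (by linarith) (show (a:ℝ) < b from e2)
    hU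
  refine hcan.trans ?_
  have hsub : {x : ℝ | x ∈ Set.Icc (a:ℝ) b ∧ ∃ᶠ j in atTop, x ∈ Nk ((1/2) ^ j) (tf θ q j) p} ⊆
      Subtype.val '' {u : unitInterval | (s ≤ u ∧ u ≤ t) ∧
        ∃ᶠ j : ℕ in atTop, occ p u ((1/2) ^ j / 9) ≤ tf θ q j} := by
    rintro x ⟨hx1, hx2⟩
    refine ⟨⟨x, a.2.1.trans hx1.1, hx1.2.trans b.2.2⟩, ⟨⟨?_, ?_⟩, ?_⟩, rfl⟩
    · exact e1.trans (show (a : ℝ) ≤ x from hx1.1)
    · exact le_trans (show x ≤ (b : ℝ) from hx1.2) e3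
    · refine hx2.mono fun j hj => ?_
      obtain ⟨v, hv1, hv2⟩ := hj
      have : v = ⟨x, a.2.1.trans hx1.1, hx1.2.trans b.2.2⟩ := Subtype.ext hv2
      rw [← this]
      exact hv1
  refine (dimH_mono hsub).trans (le_of_eq ?_)
  exact isometry_subtype_coe.dimH_image _

end Pool.Agent.J4H99.PK
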