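import Pool.Agent.J4H99.PK.Thin

/-!
Project PK: thin times: asymptotics of the gauge, thin times are fast times, uniform bounds.
-/

set_option autoImplicit false
set_option linter.unusedVariables false

namespace Pool.Agent.J4H99.PK

open H974 Finset H342P H984P H984N Pool.Agent.Y995.FS Pool.Agent.Y995.HG
open Pool.Agent.Y41.EV
open Pool.Agent.Y995.TP (kf_ge kf_low kf_up tf tf_pos tf_lim lin_exp Ft yj yj_pos yj_ge scale_geF
  uppF_as)
open MeasureTheory Filter Topology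
open scoped ENNReal NNReal

theorem log_big (X : ℝ) : ∀ᶠ r : ℝ in 𝓝[>] 0, 0 < r ∧ X ≤ Real.log (1 / r) := by
  filter_upwards [self_mem_nhdsWithin, (eventually_lt_nhds
    (Real.exp_pos (-X))).filter_mono nhdsWithin_le_nhds] with r h1 h2
  have h1' : 0 < r := h1
  refine ⟨h1', ?_⟩
  rw [one_div, Real.log_inv, le_neg]
  have := Real.log_le_log h1' h2.le
  rwa [Real.log_exp] at this

theorem vv_pos {r : ℝ} (h0 : 0 < r) (h1 : 1 ≤ Real.log (1 / r)) : 0 < vv r := by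
  unfold vv; positivity

/-- duration `h = κ v(r)` -/
theorem h_asy {κ : ℝ} (hκ : 0 < κ) : ∀ᶠ r : ℝ in 𝓝[>] 0, 0 < κ * vv r ∧ κ * vv r ≤ κ * r ∧
    (κ * vv r) ^ (4/7 : ℝ) * Real.log (1 / (κ * vv r)) ^ (3/7 : ℝ) ≤ 2 * κ ^ (4/7 : ℝ) * r := by
  obtain ⟨X, hX⟩ : ∃ X : ℝ, X = 4 * |Real.log (1 / κ)| + 4 := ⟨_, rfl⟩
  have habs := abs_nonneg (Real.log (1 / κ))
  have hrk : ∀ᶠ r : ℝ in 𝓝[>] 0, κ * r ≤ 1 := by
    filter_upwards [(eventually_lt_nhds (show 0 < 1 / κ by positivity)).filter_mono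
      nhdsWithin_le_nhds] with r h1
    have := mul_lt_mul_of_pos_left h1 hκ
    rw [mul_one_div, div_self hκ.ne'] at this
    exact this.le
  filter_upwards [log_big X, hrk] with r hr hr2
  obtain ⟨h0, h1⟩ := hr
  obtain ⟨L, hL⟩ : ∃ L : ℝ, L = Real.log (1 / r) := ⟨_, rfl⟩
  rw [← hL] at h1
  have hL4 : 4 ≤ L := by linarith
  have hL0 : 0 < L := by linarith
  have hvp : 0 < vv r := vv_pos h0 (by rw [← hL]; linarith)
  have hr1 : r ≤ 1 := by
    by_contra hcon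
    push Not at hcon
    have : Real.log (1 / r) ≤ 0 := by
      refine Real.log_nonpos (by positivity) ?_
      rw [div_le_one h0]
      exact hcon.le
    linarith
  have hvr : vv r ≤ r := by
    unfold vv
    rw [← hL]
    have h3 : 1 ≤ L ^ (3/4 : ℝ) := Real.one_le_rpow (by linarith) (by norm_num)
    refine (div_le_self (by positivity) h3).trans ?_
    have := Real.rpow_le_rpow_of_exponent_ge h0 hr1 (show (1:ℝ) ≤ 7/4 by norm_num)
    rwa [Real.rpow_one] at this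
  refine ⟨by positivity, mul_le_mul_of_nonneg_left hvr hκ.le, ?_⟩
  have e1 : Real.log (1 / (κ * vv r)) = Real.log (1 / κ) + 7/4 * L + 3/4 * Real.log L := by
    unfold vv
    rw [← hL, one_div, Real.log_inv, Real.log_mul hκ.ne' (by positivity), Real.log_div
      (by positivity) (by positivity), Real.log_rpow h0, Real.log_rpow hL0, hL, one_div, one_div,
      Real.log_inv, Real.log_inv]
    ring
  have h4 : Real.log (1 / κ) ≤ L / 4 := by
    have := le_abs_self (Real.log (1 / κ))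
    linarith
  have h5 : Real.log L ≤ L := by
    have := Real.log_le_sub_one_of_pos hL0
    linarith
  have h6 : Real.log (1 / (κ * vv r)) ≤ 3 * L := by rw [e1]; linarith
  have h7 : 0 ≤ Real.log (1 / (κ * vv r)) := by
    refine Real.log_nonneg ?_
    rw [le_div_iff₀ (by positivity), one_mul]
    exact (mul_le_mul_of_nonneg_left hvr hκ.le).trans hr2
  have h8 : Real.log (1 / (κ * vv r)) ^ (3/7 : ℝ) ≤ 2 * L ^ (3/7 : ℝ) := by
    have h9 := Real.rpow_le_rpow h7 h6 (show (0:ℝ) ≤ 3/7 by norm_num)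
    rw [Real.mul_rpow (by norm_num) hL0.le] at h9
    have h10 : (3:ℝ) ^ (3/7 : ℝ) ≤ 2 := by
      have h11 : (3:ℝ) ^ (3/7 : ℝ) ≤ 4 ^ (3/7 : ℝ) :=
        Real.rpow_le_rpow (by norm_num) (by norm_num) (by norm_num)
      have h12 : (4:ℝ) ^ (3/7 : ℝ) ≤ 4 ^ (1/2 : ℝ) :=
        Real.rpow_le_rpow_of_exponent_le (by norm_num) (by norm_num)
      have h13 : (4:ℝ) ^ (1/2 : ℝ) = 2 := by
        rw [← Real.sqrt_eq_rpow, show (4:ℝ) = 2 ^ 2 by norm_num, Real.sqrt_sq (by norm_num)]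
      linarith
    exact h9.trans (mul_le_mul_of_nonneg_right h10 (by positivity))
  have h9 : (κ * vv r) ^ (4/7 : ℝ) = κ ^ (4/7 : ℝ) * (r / L ^ (3/7 : ℝ)) := by
    unfold vv
    rw [← hL, Real.mul_rpow hκ.le (by positivity), Real.div_rpow (by positivity) (by positivity),
      ← Real.rpow_mul h0.le, ← Real.rpow_mul hL0.le]
    norm_num
  rw [h9]
  have hL7 : 0 < L ^ (3/7 : ℝ) := by positivity
  calc κ ^ (4/7 : ℝ) * (r / L ^ (3/7 : ℝ)) * Real.log (1 / (κ * vv r)) ^ (3/7 : ℝ)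
      ≤ κ ^ (4/7 : ℝ) * (r / L ^ (3/7 : ℝ)) * (2 * L ^ (3/7 : ℝ)) :=
        mul_le_mul_of_nonneg_left h8 (by positivity)
    _ = 2 * κ ^ (4/7 : ℝ) * r := by field_simp

theorem h_tend {κ : ℝ} (hκ : 0 < κ) : Tendsto (fun r : ℝ => κ * vv r) (𝓝[>] 0) (𝓝[>] 0) := by
  rw [tendsto_nhdsWithin_iff]
  constructor
  · have h1 : Tendsto (fun r : ℝ => κ * r) (𝓝[>] 0) (𝓝 0) := by
      have : Tendsto (fun r : ℝ => κ * r) (𝓝[>] 0) (𝓝 (κ * 0)) :=
        (tendsto_id.mono_left nhdsWithin_le_nhds).const_mul κ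
      rwa [mul_zero] at this
    refine squeeze_zero' ?_ ?_ h1
    · filter_upwards [h_asy hκ] with r hr
      exact hr.1.le
    · filter_upwards [h_asy hκ] with r hr
      exact hr.2.1
  · filter_upwards [h_asy hκ] with r hr
    exact hr.1

/-- if the path stays near `f u` for a natural time `h` then it spends time `h` there -/
theorem occ_ge {p : X} (hp : 0 < p.2) {u : unitInterval} {h r : ℝ} (hh : 0 ≤ h)
    (h2 : h / p.2 ≤ 1 / 2)
    (h1 : ∀ v : unitInterval, p.2 * |(v : ℝ) - u| ≤ h → dist (p.1 v) (p.1 u) ≤ r) :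
    h ≤ occ p u r := by
  have hh0 : 0 ≤ h / p.2 := by positivity
  have hvol : h / p.2 ≤ (volume {v : unitInterval | dist (p.1 v) (p.1 u) ≤ r}).toReal := by
    rcases le_total (u : ℝ) (1/2) with hu2 | hu2
    · obtain ⟨z, hz⟩ : ∃ z : unitInterval, z = ⟨u + h / p.2, by have := u.2.1; linarith, by
        linarith⟩ := ⟨_, rfl⟩
      have hzv : (z : ℝ) = u + h / p.2 := by rw [hz]
      have hsub : Set.Icc u z ⊆ {v : unitInterval | dist (p.1 v) (p.1 u) ≤ r} := by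
        intro v hv
        have a1 : (u : ℝ) ≤ v := hv.1
        have a2 : (v : ℝ) ≤ z := hv.2
        refine h1 v ?_
        rw [abs_of_nonneg (by linarith)]
        have : (v : ℝ) - u ≤ h / p.2 := by linarith
        rw [le_div_iff₀ hp] at this
        linarith
      have g4 := ENNReal.toReal_mono (measure_ne_top _ _) (measure_mono (μ := volume) hsub)
      rw [unitInterval.volume_Icc, ENNReal.toReal_ofReal (by linarith)] at g4
      linarith
    · obtain ⟨z, hz⟩ : ∃ z : unitInterval, z = ⟨u - h / p.2, by linarith, by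
        have := u.2.2; linarith⟩ := ⟨_, rfl⟩
      have hzv : (z : ℝ) = u - h / p.2 := by rw [hz]
      have hsub : Set.Icc z u ⊆ {v : unitInterval | dist (p.1 v) (p.1 u) ≤ r} := by
        intro v hv
        have a1 : (z : ℝ) ≤ v := hv.1
        have a2 : (v : ℝ) ≤ u := hv.2
        refine h1 v ?_
        rw [abs_sub_comm, abs_of_nonneg (by linarith)]
        have : (u : ℝ) - v ≤ h / p.2 := by linarith
        rw [le_div_iff₀ hp] at this
        linarith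
      have g4 := ENNReal.toReal_mono (measure_ne_top _ _) (measure_mono (μ := volume) hsub)
      rw [unitInterval.volume_Icc, ENNReal.toReal_ofReal (by linarith)] at g4
      linarith
  unfold occ
  rw [div_le_iff₀ hp] at hvol
  linarith

theorem h_half {κ T : ℝ} (hκ : 0 < κ) (hT : 0 < T) : ∀ᶠ r : ℝ in 𝓝[>] 0, κ * vv r / T ≤ 1 / 2 := by
  have h1 := ((h_tend hκ).mono_right nhdsWithin_le_nhds).eventually
    (gt_mem_nhds (show 0 < T / 2 by positivity))
  filter_upwards [h1] with r hr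
  rw [div_le_iff₀ hT]
  linarith

/-- Thin times are fast times. -/
theorem thin_fast {θ : ℝ} (hθ : 0 < θ) {p : X} (hp : 0 < p.2) :
    Thin θ p ⊆ Ft (1 / (4 * θ ^ (4/7 : ℝ))) p := by
  intro u hu
  refine (h_tend (show 0 < 2 * θ by positivity)).frequently ?_
  refine (hu.and_eventually ((h_asy (show 0 < 2 * θ by positivity)).and
    (h_half (show 0 < 2 * θ by positivity) hp))).mono ?_
  rintro r ⟨h1, ⟨h2, h3, h4⟩, h5⟩
  obtain ⟨h, hh⟩ : ∃ h, h = 2 * θ * vv r := ⟨_, rfl⟩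
  rw [← hh] at h2 h3 h4 h5 ⊢
  have hr0 : 0 < r := by
    have : 0 < 2 * θ * r := lt_of_lt_of_le h2 h3
    exact (mul_pos_iff_of_pos_left (show (0:ℝ) < 2 * θ by positivity)).1 this
  obtain ⟨v, hv1, hv2⟩ : ∃ v : unitInterval, p.2 * |(v : ℝ) - u| ≤ h ∧
      r < dist (p.1 v) (p.1 u) := by
    by_contra hcon
    push Not at hcon
    have h6 := occ_ge hp h2.le h5 hcon
    have h7 : h = 2 * (θ * vv r) := by rw [hh]; ring
    linarith
  refine ⟨v, hv1, le_trans ?_ hv2.le⟩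
  have h8 : (2 * θ) ^ (4/7 : ℝ) ≤ 2 * θ ^ (4/7 : ℝ) := by
    rw [Real.mul_rpow (by norm_num) hθ.le]
    refine mul_le_mul_of_nonneg_right ?_ (by positivity)
    have : (2:ℝ) ^ (4/7 : ℝ) ≤ 2 ^ (1 : ℝ) :=
      Real.rpow_le_rpow_of_exponent_le (by norm_num) (by norm_num)
    rwa [Real.rpow_one] at this
  have hθ7 : 0 < θ ^ (4/7 : ℝ) := by positivity
  rw [one_div, inv_mul_le_iff₀ (by positivity)]
  refine h4.trans ?_
  calc 2 * (2 * θ) ^ (4/7 : ℝ) * r ≤ 2 * (2 * θ ^ (4/7 : ℝ)) * r := by gcongr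
    _ = _ := by ring

/-- the durations of the good pairs and the gauge -/
theorem tf_vv {θ1 q θ : ℝ} (hθ1 : 0 < θ1) (hq : 0 < q) (hθ : 100 * θ1 ≤ θ * q ^ (3/4 : ℝ))
    {j : ℕ} (hj : 10 ≤ j) : tf θ1 q j ≤ θ * vv ((1/2) ^ j / 9) := by
  have hj0 : (10:ℝ) ≤ j := by exact_mod_cast hj
  obtain ⟨w, hw⟩ : ∃ w : ℝ, w = (1/2) ^ j := ⟨_, rfl⟩
  have hw0 : 0 < w := by rw [hw]; positivity
  obtain ⟨k, hk⟩ : ∃ k : ℝ, k = ((Pool.Agent.Y995.TP.kf q j : ℕ) : ℝ) := ⟨_, rfl⟩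
  have hk2 : q * j ≤ k := by rw [hk]; exact kf_low q j
  have hk0 : 0 < k := lt_of_lt_of_le (by positivity) hk2
  have hq4 : 0 < q ^ (3/4 : ℝ) := by positivity
  have hθ0 : 0 < θ := by
    by_contra hcon
    push Not at hcon
    have := mul_nonpos_of_nonpos_of_nonneg hcon hq4.le
    linarith
  unfold tf vv
  rw [← hk, ← hw]
  have e1 : Real.log (1 / (w / 9)) ≤ j := by
    rw [one_div_div, Real.log_div (by norm_num) hw0.ne', hw, Real.log_pow, one_div, Real.log_inv]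
    have h9 : Real.log 9 ≤ 3 := by
      have h3 : Real.log 9 ≤ Real.log (Real.exp 3) := by
        refine Real.log_le_log (by norm_num) ?_
        have := Real.exp_one_gt_d9
        have e3 : Real.exp 3 = Real.exp 1 ^ 3 := by rw [← Real.exp_nat_mul]; norm_num
        rw [e3]
        have h4 : (2.7:ℝ) ^ 3 ≤ Real.exp 1 ^ 3 := pow_le_pow_left₀ (by norm_num) (by linarith) 3
        norm_num at h4 ⊢
        linarith
      rwa [Real.log_exp] at h3
    have := Real.log_two_lt_d9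
    nlinarith
  have e0 : 0 < Real.log (1 / (w / 9)) := by
    refine Real.log_pos ?_
    rw [one_div_div, lt_div_iff₀ hw0]
    have : w ≤ 1 := by rw [hw]; exact pow_le_one₀ (by norm_num) (by norm_num)
    linarith
  have e2 : Real.log (1 / (w / 9)) ^ (3/4 : ℝ) ≤ (j : ℝ) ^ (3/4 : ℝ) :=
    Real.rpow_le_rpow e0.le e1 (by norm_num)
  have e3 : w ^ (7/4 : ℝ) / 100 ≤ (w / 9) ^ (7/4 : ℝ) := by
    rw [Real.div_rpow hw0.le (by norm_num)]
    refine div_le_div_of_nonneg_left (by positivity) (by positivity) ?_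
    have h3 : (9:ℝ) ^ (7/4 : ℝ) ≤ 9 ^ (2 : ℝ) :=
      Real.rpow_le_rpow_of_exponent_le (by norm_num) (by norm_num)
    norm_num at h3 ⊢
    linarith
  have e4 : k ^ (-(3/4) : ℝ) ≤ (q * j) ^ (-(3/4) : ℝ) :=
    Real.rpow_le_rpow_of_nonpos (by positivity) hk2 (by norm_num)
  have e5 : (q * j) ^ (-(3/4) : ℝ) = 1 / (q ^ (3/4 : ℝ) * (j : ℝ) ^ (3/4 : ℝ)) := by
    rw [Real.rpow_neg (by positivity), Real.mul_rpow hq.le (by positivity), one_div]
  have hj4 : 0 < (j : ℝ) ^ (3/4 : ℝ) := by positivity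
  have hl4 : 0 < Real.log (1 / (w / 9)) ^ (3/4 : ℝ) := by positivity
  calc θ1 * (k ^ (-(3/4) : ℝ) * w ^ (7/4 : ℝ))
      ≤ θ1 * (1 / (q ^ (3/4 : ℝ) * (j : ℝ) ^ (3/4 : ℝ)) * w ^ (7/4 : ℝ)) := by
        rw [← e5]; gcongr
    _ = (100 * θ1) * (w ^ (7/4 : ℝ) / 100 / (q ^ (3/4 : ℝ) * (j : ℝ) ^ (3/4 : ℝ))) := by
        field_simp
    _ ≤ (θ * q ^ (3/4 : ℝ)) * (w ^ (7/4 : ℝ) / 100 / (q ^ (3/4 : ℝ) * (j : ℝ) ^ (3/4 : ℝ))) :=
        mul_le_mul_of_nonneg_right hθ (by positivity)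
    _ = θ * (w ^ (7/4 : ℝ) / 100 / (j : ℝ) ^ (3/4 : ℝ)) := by field_simp
    _ ≤ θ * ((w / 9) ^ (7/4 : ℝ) / Real.log (1 / (w / 9)) ^ (3/4 : ℝ)) := by
        refine mul_le_mul_of_nonneg_left ?_ hθ0.le
        exact div_le_div₀ (by positivity) e3 hl4 e2

theorem wj_tend : Tendsto (fun j : ℕ => ((1:ℝ)/2) ^ j / 9) atTop (𝓝[>] 0) := by
  rw [tendsto_nhdsWithin_iff]
  constructor
  · have := (tendsto_pow_atTop_nhds_zero_of_lt_one (r := (1:ℝ)/2) (by norm_num)
      (by norm_num)).div_const 9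
    rwa [zero_div] at this
  · exact Eventually.of_forall fun j => by
      show (0:ℝ) < ((1:ℝ)/2) ^ j / 9
      positivity

theorem thin_of {θ1 q θ : ℝ} (hθ1 : 0 < θ1) (hq : 0 < q) (hθ : 100 * θ1 ≤ θ * q ^ (3/4 : ℝ))
    {p : X} {u : unitInterval} (h : ∃ᶠ j : ℕ in atTop, occ p u ((1/2) ^ j / 9) ≤ tf θ1 q j) :
    u ∈ Thin θ p := by
  refine wj_tend.frequently ?_
  refine (h.and_eventually (eventually_ge_atTop 10)).mono ?_
  rintro j ⟨h1, h2⟩
  exact h1.trans (tf_vv hθ1 hq hθ h2)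

theorem occ_mono {p : X} (hp : 0 < p.2) (u : unitInterval) {r r' : ℝ} (h : r ≤ r') :
    occ p u r ≤ occ p u r' := by
  unfold occ
  refine mul_le_mul_of_nonneg_left ?_ hp.le
  refine ENNReal.toReal_mono (measure_ne_top _ _) (measure_mono fun v hv => ?_)
  have hv' : dist (p.1 v) (p.1 u) ≤ r := hv
  exact hv'.trans h

/-- thin places at all small scales -/
theorem thin_all {θ1 q θ : ℝ} (hθ1 : 0 < θ1) (hq : 0 < q) (hθ : 100 * θ1 ≤ θ * q ^ (3/4 : ℝ))
    {p : X} (hp : 0 < p.2) {s t : unitInterval}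
    (h : ∀ᶠ j : ℕ in atTop, ∃ u : unitInterval, s ≤ u ∧ u ≤ t ∧
      occ p u ((1/2) ^ j / 9) ≤ tf θ1 q j) :
    ∀ᶠ r : ℝ in 𝓝[>] 0, ∃ u : unitInterval, s ≤ u ∧ u ≤ t ∧ occ p u r ≤ 8 * θ * vv r := by
  have hq4 : 0 < q ^ (3/4 : ℝ) := by positivity
  have hθ0 : 0 < θ := by
    by_contra hcon
    push Not at hcon
    have := mul_nonpos_of_nonpos_of_nonneg hcon hq4.le
    linarith
  rw [eventually_atTop] at h
  obtain ⟨j0, hj0⟩ := h
  filter_upwards [self_mem_nhdsWithin, (eventually_lt_nhds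
    (show (0:ℝ) < (1/2) ^ (j0 + 10) / 9 by positivity)).filter_mono nhdsWithin_le_nhds]
    with r h1 h2
  have hr0 : 0 < r := h1
  have h9 : 9 * r < (1/2) ^ (j0 + 10) := by
    rw [lt_div_iff₀ (by norm_num)] at h2
    linarith
  obtain ⟨j, hj1, hj2⟩ := exists_nat_pow_near_of_lt_one (show 0 < 9 * r by positivity)
    (h9.le.trans (pow_le_one₀ (by norm_num) (by norm_num))) (show (0:ℝ) < 1/2 by norm_num)
    (by norm_num)
  have hjJ : j0 + 10 ≤ j := by
    by_contra hcon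
    push Not at hcon
    have : ((1:ℝ)/2) ^ (j0 + 10) ≤ (1/2) ^ (j + 1) :=
      pow_le_pow_of_le_one (by norm_num) (by norm_num) (by omega)
    linarith
  obtain ⟨u, hu1, hu2, hu3⟩ := hj0 j (by omega)
  refine ⟨u, hu1, hu2, ?_⟩
  obtain ⟨w, hw⟩ : ∃ w : ℝ, w = (1/2) ^ j := ⟨_, rfl⟩
  have hw0 : 0 < w := by rw [hw]; positivity
  have hw1 : w ≤ 1 := by rw [hw]; exact pow_le_one₀ (by norm_num) (by norm_num)
  have hj1' : w / 2 < 9 * r := by rw [hw]; rw [pow_succ] at hj1; linarith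
  have hj2' : 9 * r ≤ w := by rw [hw]; exact hj2
  have k1 : occ p u r ≤ θ * vv (w / 9) := by
    refine (occ_mono hp u (show r ≤ w / 9 by linarith)).trans ?_
    rw [hw]
    exact hu3.trans (tf_vv hθ1 hq hθ (by omega))
  have k2 : vv (w / 9) ≤ 8 * vv r := by
    unfold vv
    have e0 : Real.log 2 ≤ Real.log (1 / (w / 9)) := by
      refine Real.log_le_log (by norm_num) ?_
      rw [one_div_div, le_div_iff₀ hw0]
      linarith
    have hl2 : 0 < Real.log 2 := Real.log_pos (by norm_num)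
    have e1 : Real.log (1 / r) ≤ 2 * Real.log (1 / (w / 9)) := by
      have h3 : Real.log (1 / r) ≤ Real.log (2 * (1 / (w / 9))) := by
        refine Real.log_le_log (by positivity) ?_
        rw [one_div_div, div_le_iff₀ hr0]
        have : 2 * (9 / w) * r = (9 * r) / (w / 2) := by field_simp
        rw [this, le_div_iff₀ (by positivity)]
        linarith
      rw [Real.log_mul (by norm_num) (by positivity)] at h3
      linarith
    have e2 : 0 < Real.log (1 / r) := by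
      refine Real.log_pos ?_
      rw [lt_div_iff₀ hr0]
      linarith
    have e3 : Real.log (1 / r) ^ (3/4 : ℝ) ≤ 2 * Real.log (1 / (w / 9)) ^ (3/4 : ℝ) := by
      have h3 := Real.rpow_le_rpow e2.le e1 (show (0:ℝ) ≤ 3/4 by norm_num)
      rw [Real.mul_rpow (by norm_num) (by linarith)] at h3
      refine h3.trans (mul_le_mul_of_nonneg_right ?_ (by
        have : 0 ≤ Real.log (1 / (w / 9)) := by linarith
        positivity))
      have : (2:ℝ) ^ (3/4 : ℝ) ≤ 2 ^ (1 : ℝ) :=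
        Real.rpow_le_rpow_of_exponent_le (by norm_num) (by norm_num)
      rwa [Real.rpow_one] at this
    have e4 : (w / 9) ^ (7/4 : ℝ) ≤ 4 * r ^ (7/4 : ℝ) := by
      have h3 := Real.rpow_le_rpow (by positivity) (show w / 9 ≤ 2 * r by linarith)
        (show (0:ℝ) ≤ 7/4 by norm_num)
      rw [Real.mul_rpow (by norm_num) hr0.le] at h3
      refine h3.trans (mul_le_mul_of_nonneg_right ?_ (by positivity))
      have : (2:ℝ) ^ (7/4 : ℝ) ≤ 2 ^ (2 : ℝ) :=
        Real.rpow_le_rpow_of_exponent_le (by norm_num) (by norm_num)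
      norm_num at this ⊢
      linarith
    have hlw : 0 < Real.log (1 / (w / 9)) := by linarith
    have a1 : 0 < Real.log (1 / (w / 9)) ^ (3/4 : ℝ) := by positivity
    have a2 : 0 < Real.log (1 / r) ^ (3/4 : ℝ) := by positivity
    have a3 : 0 < r ^ (7/4 : ℝ) := by positivity
    rw [← mul_div_assoc, div_le_div_iff₀ a1 a2]
    calc (w / 9) ^ (7/4 : ℝ) * Real.log (1 / r) ^ (3/4 : ℝ)
        ≤ (4 * r ^ (7/4 : ℝ)) * (2 * Real.log (1 / (w / 9)) ^ (3/4 : ℝ)) :=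
          mul_le_mul e4 e3 a2.le (by positivity)
      _ = _ := by ring
  calc occ p u r ≤ θ * vv (w / 9) := k1
    _ ≤ θ * (8 * vv r) := mul_le_mul_of_nonneg_left k2 hθ0.le
    _ = _ := by ring

/-- lower bound from the modulus of continuity -/
theorem occ_low {C : ℝ} (hC : 0 < C) {p : X} (hp : 0 < p.2)
    (h : ∀ᶠ h : ℝ in 𝓝[>] 0, ∀ u v : unitInterval, p.2 * |(v : ℝ) - u| ≤ h →
      dist (p.1 v) (p.1 u) ≤ C * (h ^ (4/7 : ℝ) * Real.log (1 / h) ^ (3/7 : ℝ))) :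
    ∀ᶠ r : ℝ in 𝓝[>] 0, ∀ u : unitInterval, (2 * C) ^ (-(7/4) : ℝ) * vv r ≤ occ p u r := by
  obtain ⟨κ, hκ⟩ : ∃ κ : ℝ, κ = (2 * C) ^ (-(7/4) : ℝ) := ⟨_, rfl⟩
  have hκ0 : 0 < κ := by rw [hκ]; positivity
  rw [← hκ]
  filter_upwards [(h_tend hκ0).eventually h, h_asy hκ0, h_half hκ0 hp] with r h1 h2 h3 u
  refine occ_ge hp h2.1.le h3 fun v hv => (h1 u v hv).trans ?_
  have e : κ ^ (4/7 : ℝ) = 1 / (2 * C) := by
    rw [hκ, ← Real.rpow_mul (by positivity)]
    norm_num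
    rw [Real.rpow_neg_one, mul_inv]
    ring
  calc C * ((κ * vv r) ^ (4/7 : ℝ) * Real.log (1 / (κ * vv r)) ^ (3/7 : ℝ))
      ≤ C * (2 * κ ^ (4/7 : ℝ) * r) := mul_le_mul_of_nonneg_left h2.2.2 hC.le
    _ = r := by rw [e]; field_simp

/-- universal modulus of continuity -/
theorem mod_det {p : X} (hp : 0 < p.2) {Λ : ℝ} (hΛ : 0 < Λ)
    (hH : ∀ s t : unitInterval, dist (p.1 s) (p.1 t) ≤ Λ * |(s : ℝ) - t| ^ (1/2 : ℝ))
    {x : ℝ} (hx : 0 < x)
    (hV : ∀ᶠ j : ℕ in atTop, p.2 * (volume (FT p (yj x j) (2 * (1/2) ^ j))).toReal ≤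
      Real.exp (-(2 * j))) :
    ∀ᶠ h : ℝ in 𝓝[>] 0, ∀ u v : unitInterval, p.2 * |(v : ℝ) - u| ≤ h →
      dist (p.1 v) (p.1 u) ≤ 8 * x * (h ^ (4/7 : ℝ) * Real.log (1 / h) ^ (3/7 : ℝ)) := by
  obtain ⟨m0, hm0⟩ : ∃ m0 : ℕ, m0 = ⌈(2 * Λ / x) ^ 2⌉₊ + ⌈p.2⌉₊ + 1 := ⟨_, rfl⟩
  have hm1 : (2 * Λ / x) ^ 2 ≤ m0 := by
    rw [hm0]; push_cast
    have := Nat.le_ceil ((2 * Λ / x) ^ 2)
    have h2 : (0:ℝ) ≤ ((⌈p.2⌉₊ : ℕ) : ℝ) := Nat.cast_nonneg _
    linarith
  have hmT : p.2 < m0 := by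
    rw [hm0]; push_cast
    have := Nat.le_ceil p.2
    have h2 : (0:ℝ) ≤ ((⌈(2 * Λ / x) ^ 2⌉₊ : ℕ) : ℝ) := Nat.cast_nonneg _
    linarith
  have hm2 : 0 < m0 := by omega
  have hm3 : (0:ℝ) < m0 := by exact_mod_cast hm2
  have hlim : Tendsto (fun j : ℕ => (4 * Real.exp (-2)) ^ j) atTop (𝓝 0) := by
    refine tendsto_pow_atTop_nhds_zero_of_lt_one (by positivity) ?_
    have h1 := Real.exp_one_gt_d9
    have e3 : Real.exp 2 = Real.exp 1 ^ 2 := by rw [← Real.exp_nat_mul]; norm_num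
    rw [Real.exp_neg, e3]
    have h4 : (2.7:ℝ) ^ 2 ≤ Real.exp 1 ^ 2 := pow_le_pow_left₀ (by norm_num) (by linarith) 2
    rw [← div_eq_mul_inv, div_lt_one (by positivity)]
    norm_num at h4 ⊢
    linarith
  have hc : ∀ᶠ j : ℕ in atTop, (4 * Real.exp (-2)) ^ j < p.2 / m0 :=
    hlim.eventually (gt_mem_nhds (by positivity))
  obtain ⟨J, hJ⟩ := eventually_atTop.1 (hV.and hc)
  have h1 : ∀ᶠ h : ℝ in 𝓝[>] 0, h < (1/2) ^ (J + 3) :=
    mem_nhdsWithin_of_mem_nhds (gt_mem_nhds (by positivity))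
  filter_upwards [h1, self_mem_nhdsWithin] with h hr2 hr3' u v hv1
  have hr3 : 0 < h := hr3'
  by_contra hcon0
  push Not at hcon0
  have hle1 : ((1:ℝ)/2) ^ (J + 3) ≤ 1 := pow_le_one₀ (by norm_num) (by norm_num)
  obtain ⟨j, hj1, hj2⟩ := exists_nat_pow_near_of_lt_one hr3
    (hr2.le.trans hle1) (show (0:ℝ) < 1/2 by norm_num) (by norm_num)
  have hjJ : J + 1 ≤ j := by
    by_contra hcon
    push Not at hcon
    have : ((1:ℝ)/2) ^ (J + 3) ≤ (1/2) ^ (j + 1) :=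
      pow_le_pow_of_le_one (by norm_num) (by norm_num) (by omega)
    linarith
  obtain ⟨hVj, hcj⟩ := hJ j (by omega)
  have hsc := (scale_geF hx (le_refl (8 * x)) (by omega) hr3 hj1 hj2).trans hcon0.le
  have hw0 : (0:ℝ) < (1/2) ^ j := by positivity
  have hw1 : ((1:ℝ)/2) ^ j ≤ 1 := pow_le_one₀ (by norm_num) (by norm_num)
  have e4 : (1 : ℝ) / (m0 * 4 ^ j) = 1 / m0 * ((1/2) ^ j) ^ 2 := by
    rw [← pow_mul, mul_comm j 2, pow_mul]
    have : ((1:ℝ)/2) ^ 2 = 1/4 := by norm_num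
    rw [this, div_pow, one_pow]
    field_simp
  have hge := yj_ge hx (show 1 ≤ j by omega)
  have hin : ∀ y : unitInterval, |(u : ℝ) - y| ≤ 1 / (m0 * 4 ^ j) →
      y ∈ FT p (yj x j) (2 * (1/2) ^ j) := by
    intro y hy
    have d2 : |(u : ℝ) - y| ^ (1/2 : ℝ) ≤ x * (1/2) ^ j / (2 * Λ) := by
      have h5 : |(u : ℝ) - y| ≤ (x * (1/2) ^ j / (2 * Λ)) ^ 2 := by
        refine hy.trans ?_
        rw [e4]
        have h6 : 1 / (m0 : ℝ) ≤ (x / (2 * Λ)) ^ 2 := by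
          have h7 : (x / (2 * Λ)) ^ 2 = 1 / (2 * Λ / x) ^ 2 := by
            rw [one_div, ← inv_pow, inv_div]
          rw [h7]
          exact one_div_le_one_div_of_le (by positivity) hm1
        calc 1 / (m0 : ℝ) * ((1/2) ^ j) ^ 2 ≤ (x / (2 * Λ)) ^ 2 * ((1/2) ^ j) ^ 2 :=
              mul_le_mul_of_nonneg_right h6 (by positivity)
          _ = (x * (1/2) ^ j / (2 * Λ)) ^ 2 := by rw [← mul_pow]; congr 1; ring
      have h6 := Real.rpow_le_rpow (abs_nonneg _) h5 (show (0:ℝ) ≤ 1/2 by norm_num)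
      refine h6.trans (le_of_eq ?_)
      rw [← Real.rpow_natCast (x * (1/2) ^ j / (2 * Λ)) 2, ← Real.rpow_mul (by positivity)]
      norm_num
    have d3 : dist (p.1 u) (p.1 y) ≤ x * (1/2) ^ j / 2 := by
      refine (hH u y).trans ?_
      calc Λ * |(u : ℝ) - y| ^ (1/2 : ℝ) ≤ Λ * (x * (1/2) ^ j / (2 * Λ)) :=
            mul_le_mul_of_nonneg_left d2 hΛ.le
        _ = x * (1/2) ^ j / 2 := by field_simp
    refine ⟨v, ?_, ?_⟩
    · have h5 : p.2 * |(u : ℝ) - y| < (1/2) ^ j := by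
        have h6 : p.2 * |(u : ℝ) - y| ≤ p.2 * (1 / m0 * ((1/2) ^ j) ^ 2) := by
          rw [← e4]
          exact mul_le_mul_of_nonneg_left hy hp.le
        have h7 : p.2 / m0 < 1 := by rw [div_lt_one hm3]; exact hmT
        calc p.2 * |(u : ℝ) - y| ≤ p.2 * (1 / m0 * ((1/2) ^ j) ^ 2) := h6
          _ = p.2 / m0 * ((1/2) ^ j * (1/2) ^ j) := by ring
          _ < 1 * ((1/2) ^ j * (1/2) ^ j) := mul_lt_mul_of_pos_right h7 (by positivity)
          _ ≤ (1/2) ^ j := by nlinarith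
      have h9 : |(v : ℝ) - y| ≤ |(v : ℝ) - u| + |(u : ℝ) - y| := abs_sub_le _ _ _
      have h10 := mul_le_mul_of_nonneg_left h9 hp.le
      rw [mul_add] at h10
      linarith
    · have t1 := dist_triangle (p.1 v) (p.1 y) (p.1 u)
      rw [dist_comm (p.1 y) (p.1 u)] at t1
      have : 0 < x * (1/2) ^ j := by positivity
      linarith
  obtain ⟨e, he⟩ : ∃ e : ℝ, e = 1 / (m0 * 4 ^ j) := ⟨_, rfl⟩
  rw [← he] at hin
  have he0 : 0 < e := by rw [he]; positivity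
  have he2 : e ≤ 1 / 2 := by
    rw [he]
    refine one_div_le_one_div_of_le (by norm_num) ?_
    have h4 : (4:ℝ) ^ 1 ≤ 4 ^ j := pow_le_pow_right₀ (by norm_num) (by omega)
    have h5 : (1:ℝ) ≤ m0 := by exact_mod_cast hm2
    nlinarith
  have hvol : e ≤ (volume (FT p (yj x j) (2 * (1/2) ^ j))).toReal := by
    rcases le_total (u : ℝ) (1/2) with hu2 | hu2
    · obtain ⟨z, hz⟩ : ∃ z : unitInterval, z = ⟨u + e, by have := u.2.1; linarith, by
        linarith⟩ := ⟨_, rfl⟩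
      have hzv : (z : ℝ) = u + e := by rw [hz]
      have hsub : Set.Icc u z ⊆ FT p (yj x j) (2 * (1/2) ^ j) := by
        intro v hv
        have a1 : (u : ℝ) ≤ v := hv.1
        have a2 : (v : ℝ) ≤ z := hv.2
        refine hin v ?_
        rw [abs_sub_comm, abs_of_nonneg (by linarith)]
        linarith
      have g4 := ENNReal.toReal_mono (measure_ne_top _ _) (measure_mono (μ := volume) hsub)
      rw [unitInterval.volume_Icc, ENNReal.toReal_ofReal (by linarith)] at g4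
      linarith
    · obtain ⟨z, hz⟩ : ∃ z : unitInterval, z = ⟨u - e, by linarith, by
        have := u.2.2; linarith⟩ := ⟨_, rfl⟩
      have hzv : (z : ℝ) = u - e := by rw [hz]
      have hsub : Set.Icc z u ⊆ FT p (yj x j) (2 * (1/2) ^ j) := by
        intro v hv
        have a1 : (z : ℝ) ≤ v := hv.1
        have a2 : (v : ℝ) ≤ u := hv.2
        refine hin v ?_
        rw [abs_of_nonneg (by linarith)]
        linarith
      have g4 := ENNReal.toReal_mono (measure_ne_top _ _) (measure_mono (μ := volume) hsub)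
      rw [unitInterval.volume_Icc, ENNReal.toReal_ofReal (by linarith)] at g4
      linarith
  have h7 := (mul_le_mul_of_nonneg_left hvol hp.le).trans hVj
  rw [he] at h7
  have h8 : (4 * Real.exp (-2)) ^ j = 4 ^ j * Real.exp (-(2 * j)) := by
    rw [mul_pow, ← Real.exp_nat_mul]
    congr 2
    ring
  rw [h8] at hcj
  have h9 : p.2 / m0 ≤ 4 ^ j * Real.exp (-(2 * j)) := by
    have h10 := mul_le_mul_of_nonneg_left h7 (show (0:ℝ) ≤ 4 ^ j by positivity)
    refine le_trans (le_of_eq ?_) h10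
    field_simp
  linarith

end Pool.Agent.J4H99.PK
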