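import Pool.Agent.J4H99.PK.ThinA

/-!
Project PK: thin times: the dimension of the thin times and of their images.
-/

set_option autoImplicit false
set_option linter.unusedVariables false

namespace Pool.Agent.J4H99.PK

open H974 Finset H342P H984P H984N Pool.Agent.Y995.FS Pool.Agent.Y995.HG
open Pool.Agent.Y41.EV
open Pool.Agent.Y995.TP (kf_ge kf_low kf_up tf tf_pos tf_lim lin_exp Ft yj yj_pos yj_ge scale_geF
  uppF_as fast_top)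
open MeasureTheory Filter Topology
open scoped ENNReal NNReal

/-- universal modulus of continuity, universal lower bound for the occupation -/
theorem occ_univ : ∃ c : ℝ, 0 < c ∧ ∀ R : Rect, ∀ δ : ℕ → ℝ, (∀ i, 0 < δ i) →
    Tendsto δ atTop (𝓝 0) → ∀ μ : ProbabilityMeasure X,
      Tendsto (fun i => R.law (δ i)) atTop (𝓝 μ) →
      ∀ᵐ p ∂(μ : Measure X), ∀ᶠ r : ℝ in 𝓝[>] 0, ∀ u : unitInterval, c * vv r ≤ occ p u r := by
  obtain ⟨⟨c, hc, hL⟩, ⟨C, hC, hU⟩, C2, hC2, hA⟩ := Pool.Agent.Y985.ME.inputs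
  have hfm : FM := Pool.Agent.Y490.EV.fm2 Pool.Agent.Y941.EV.t_FM1 Pool.Agent.Y490.EV.fm2p
    Pool.Agent.Y985.ME.s_blk Pool.Agent.Y985.ME.s_fm C hC hU
  obtain ⟨a, B, ha, hB, hft⟩ := Pool.Agent.Y858.EV.ftlat hfm Pool.Agent.Y988.EV.ftm
  obtain ⟨x, hx⟩ : ∃ x : ℝ, x = (4 * 2 ^ (4/3 : ℝ) / a) ^ (3/7 : ℝ) := ⟨_, rfl⟩
  have hxp : 0 < x := by rw [hx]; positivity
  have hlam : a * x ^ (7/3 : ℝ) / 2 ^ (4/3 : ℝ) = 4 := by
    rw [hx, ← Real.rpow_mul (by positivity)]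
    norm_num
    field_simp
  refine ⟨(2 * (8 * x)) ^ (-(7/4) : ℝ), by positivity, fun R δ hδ hlim μ hμ => ?_⟩
  obtain ⟨A2, y0, hA2, hy0, hftR⟩ := hft R
  have hup := uppF_as Pool.Agent.Y287.EV.ftopen ha hB hA2 hy0 hftR hxp hδ hlim hμ
  rw [hlam] at hup
  filter_upwards [(final_of hc hC hL hU hC2 hA R).2.2 δ hδ hlim μ hμ, hup] with p g1 g2
  obtain ⟨hp0, -, -, -, hhol, -⟩ := g1
  obtain ⟨Λ, hΛ⟩ := hhol (1/2) (by norm_num) (by norm_num)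
  have h4 := mod_det hp0 (Λ := max Λ 1) (lt_of_lt_of_le one_pos (le_max_right _ _))
    (fun u v => (hΛ u v).trans (mul_le_mul_of_nonneg_right (le_max_left _ _)
      (Real.rpow_nonneg (abs_nonneg _) _))) hxp (by
        filter_upwards [g2] with j hj
        refine hj.trans (le_of_eq ?_)
        congr 1
        ring)
  exact occ_low (by positivity) hp0 h4

theorem thin_top : ∃ c C θ0 c1 C1 : ℝ, 0 < c ∧ 0 < C ∧ 0 < θ0 ∧ C / θ0 ^ (4/3 : ℝ) < 1 ∧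
    0 < c1 ∧ 0 < C1 ∧ ∀ R : Rect,
    (∀ δ : ℕ → ℝ, (∀ i, 0 < δ i) → Tendsto δ atTop (𝓝 0) →
      ∃ φ : ℕ → ℕ, StrictMono φ ∧ ∃ μ : ProbabilityMeasure X,
        Tendsto (fun i => R.law (δ (φ i))) atTop (𝓝 μ)) ∧
    ∀ δ : ℕ → ℝ, (∀ i, 0 < δ i) → Tendsto δ atTop (𝓝 0) → ∀ μ : ProbabilityMeasure X,
      Tendsto (fun i => R.law (δ i)) atTop (𝓝 μ) →
      ∀ᵐ p ∂(μ : Measure X), 0 < p.2 ∧ (∀ E : Set unitInterval, dimH (p.1 '' E) = 7 / 4 * dimH E) ∧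
        (∀ᶠ r : ℝ in 𝓝[>] 0, ∀ u : unitInterval, c1 * vv r ≤ occ p u r) ∧
        (∀ s t : unitInterval, s < t → ∀ᶠ r : ℝ in 𝓝[>] 0, ∃ u : unitInterval, s ≤ u ∧ u ≤ t ∧
          occ p u r ≤ C1 * vv r) ∧
        ∀ θ : ℝ, θ0 ≤ θ → dimH (Thin θ p) ≤ ENNReal.ofReal (1 - c / θ ^ (4/3 : ℝ)) ∧
          ∀ s t : unitInterval, s < t →
            ENNReal.ofReal (1 - C / θ ^ (4/3 : ℝ)) ≤ dimH (Set.Icc s t ∩ Thin θ p) := by
  obtain ⟨⟨c, hc, hL⟩, ⟨C, hC, hU⟩, C2, hC2, hA⟩ := Pool.Agent.Y985.ME.inputs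
  obtain ⟨θ1, K, A0, hθ1, hK, hA0, hlat⟩ := lath c C hc hC hL hU
  obtain ⟨cF, CF, θF, hcF, hCF, hθF, -, hfast⟩ := fast_top
  obtain ⟨cu, hcu, huniv⟩ := occ_univ
  obtain ⟨q0, hq0⟩ : ∃ q0 : ℝ, q0 = 1 / (48 * K) := ⟨_, rfl⟩
  have hq0p : 0 < q0 := by rw [hq0]; positivity
  have hKq0 : K * q0 ≤ 1 / 48 := by
    rw [hq0]
    refine le_of_eq ?_
    field_simp
  obtain ⟨D, hD⟩ : ∃ D : ℝ, D = 100 * θ1 := ⟨_, rfl⟩
  have hD0 : 0 < D := by rw [hD]; positivity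
  obtain ⟨θ0, hθ0⟩ : ∃ θ0 : ℝ, θ0 = max (D / q0 ^ (3/4 : ℝ)) ((4 * θF) ^ (-(7/4) : ℝ)) := ⟨_, rfl⟩
  have hθ01 : D / q0 ^ (3/4 : ℝ) ≤ θ0 := by rw [hθ0]; exact le_max_left _ _
  have hθ02 : (4 * θF) ^ (-(7/4) : ℝ) ≤ θ0 := by rw [hθ0]; exact le_max_right _ _
  have hθ00 : 0 < θ0 := lt_of_lt_of_le (by positivity) hθ01
  have hpow : ∀ θ : ℝ, θ0 ≤ θ → (D / θ) ^ (4/3 : ℝ) ≤ q0 := by
    intro θ h1
    have hθp : 0 < θ := lt_of_lt_of_le hθ00 h1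
    have h3 : D / θ ≤ q0 ^ (3/4 : ℝ) := by
      have := hθ01.trans h1
      rw [div_le_iff₀ (by positivity)] at this
      rw [div_le_iff₀ hθp]
      linarith
    have h4 := Real.rpow_le_rpow (by positivity) h3 (show (0:ℝ) ≤ 4/3 by norm_num)
    rw [← Real.rpow_mul hq0p.le] at h4
    norm_num at h4 ⊢
    exact h4
  refine ⟨cF * (1/4) ^ (7/3 : ℝ), 12 * K * D ^ (4/3 : ℝ), θ0, cu, 8 * (D / q0 ^ (3/4 : ℝ)),
    by positivity, by positivity, hθ00, ?_, hcu, by positivity, fun R => ?_⟩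
  · have h1 := hpow θ0 le_rfl
    rw [Real.div_rpow hD0.le hθ00.le] at h1
    have h2 := mul_le_mul_of_nonneg_left h1 (show 0 ≤ K by linarith)
    calc 12 * K * D ^ (4/3 : ℝ) / θ0 ^ (4/3 : ℝ) =
          12 * (K * (D ^ (4/3 : ℝ) / θ0 ^ (4/3 : ℝ))) := by ring
      _ ≤ 12 * (1/48) := by linarith
      _ < 1 := by norm_num
  obtain ⟨hf1, hf2⟩ := hfast R
  refine ⟨hf1, fun δ hδ hlim μ hμ => ?_⟩
  obtain ⟨A, hA1, hlatR⟩ := hlat R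
  have hfin : ∀ R : Rect, (∀ δ : ℕ → ℝ, (∀ i, 0 < δ i) → Tendsto δ atTop (𝓝 0) →
      ∀ μ : ProbabilityMeasure X, Tendsto (fun i => R.law (δ i)) atTop (𝓝 μ) →
      ∀ᵐ p ∂(μ : Measure X), 0 < p.2 ∧ p.1 0 = R.a ∧ p.1 1 = 0 ∧
        (∀ s : unitInterval, p.1 s ∈ closure R.D) ∧
        (∀ β : ℝ, 0 < β → β < 4/7 → ∃ Λ : ℝ, ∀ s t : unitInterval,
          dist (p.1 s) (p.1 t) ≤ Λ * |(s : ℝ) - t| ^ β) ∧
        ∀ s t : unitInterval, s < t → dimH (p.1 '' Set.Icc s t) = 7 / 4) :=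
    fun R => (final_of hc hC hL hU hC2 hA R).2.2
  have hlow' : ∀ᵐ p ∂(μ : Measure X), ∀ n : ℕ, ∀ s t : unitInterval, s < t →
      (∃ a b : unitInterval, s ≤ a ∧ a < b ∧ b ≤ t ∧
        Pool.Agent.Y995.TP.Ubi (1 - 6 * (K * (q0 * (1/2) ^ n)))
          (fun j => Nk ((1/2) ^ j) (tf θ1 (q0 * (1/2) ^ n) j) p) a b) ∧
      (∀ᶠ j : ℕ in atTop, ∃ u : unitInterval, s ≤ u ∧ u ≤ t ∧
        occ p u ((1/2) ^ j / 9) ≤ tf θ1 (q0 * (1/2) ^ n) j) ∧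
      ENNReal.ofReal (1 - 6 * (K * (q0 * (1/2) ^ n))) ≤
        dimH {u : unitInterval | (s ≤ u ∧ u ≤ t) ∧
          ∃ᶠ j : ℕ in atTop, occ p u ((1/2) ^ j / 9) ≤ tf θ1 (q0 * (1/2) ^ n) j} := by
    rw [ae_all_iff]
    intro n
    refine thin_low hθ1 hK hA0 hfin (by positivity) ?_ hA1 hlatR hδ hlim hμ
    have h4 : ((1:ℝ)/2) ^ n ≤ 1 := pow_le_one₀ (by norm_num) (by norm_num)
    have h5 : q0 * (1/2) ^ n ≤ q0 := by nlinarith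
    have h6 := mul_le_mul_of_nonneg_left h5 (show 0 ≤ K by linarith)
    linarith
  filter_upwards [hf2 δ hδ hlim μ hμ, hlow', huniv R δ hδ hlim μ hμ] with p g1 g2 g3
  obtain ⟨hp0, hdim, hfp⟩ := g1
  refine ⟨hp0, hdim, g3, fun s t hst => ?_, fun θ hθ => ⟨?_, fun s t hst => ?_⟩⟩
  · have h4 := (g2 0 s t hst).2.1
    rw [pow_zero, mul_one] at h4
    refine thin_all hθ1 hq0p (θ := D / q0 ^ (3/4 : ℝ)) ?_ hp0 h4
    rw [hD, div_mul_cancel₀ _ (by positivity)]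
  · have hθp : 0 < θ := lt_of_lt_of_le hθ00 hθ
    have h4 : 1 / (4 * θ ^ (4/7 : ℝ)) ≤ θF := by
      have h5 := Real.rpow_le_rpow (by positivity) (hθ02.trans hθ) (show (0:ℝ) ≤ 4/7 by norm_num)
      rw [← Real.rpow_mul (by positivity)] at h5
      norm_num at h5
      rw [Real.rpow_neg_one] at h5
      rw [div_le_iff₀ (by positivity)]
      rw [inv_le_iff_one_le_mul₀ (by positivity)] at h5
      linarith
    have h5 := (hfp (1 / (4 * θ ^ (4/7 : ℝ))) (by positivity) h4).1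
    refine (dimH_mono (thin_fast hθp hp0)).trans (h5.trans (le_of_eq ?_))
    congr 2
    have e : (1 / (4 * θ ^ (4/7 : ℝ))) ^ (7/3 : ℝ) = (1/4) ^ (7/3 : ℝ) / θ ^ (4/3 : ℝ) := by
      have e1 : 1 / (4 * θ ^ (4/7 : ℝ)) = (1/4) / θ ^ (4/7 : ℝ) := by field_simp
      rw [e1, Real.div_rpow (by norm_num) (by positivity), ← Real.rpow_mul hθp.le]
      norm_num
    rw [e]
    ring
  · have hθp : 0 < θ := lt_of_lt_of_le hθ00 hθ
    obtain ⟨n, hn1, hn2⟩ := exists_nat_pow_near_of_lt_one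
      (show 0 < (D / θ) ^ (4/3 : ℝ) / q0 by positivity)
      (by rw [div_le_one hq0p]; exact hpow θ hθ) (show (0:ℝ) < 1/2 by norm_num) (by norm_num)
    obtain ⟨q, hq⟩ : ∃ q : ℝ, q = q0 * (1/2) ^ n := ⟨_, rfl⟩
    have hq0' : 0 < q := by rw [hq]; positivity
    have hx1 : (D / θ) ^ (4/3 : ℝ) ≤ q := by
      rw [div_le_iff₀ hq0p] at hn2
      rw [hq]; linarith
    have hx2 : q ≤ 2 * (D / θ) ^ (4/3 : ℝ) := by
      rw [lt_div_iff₀ hq0p, pow_succ] at hn1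
      rw [hq]; linarith
    have hx3 : 100 * θ1 ≤ θ * q ^ (3/4 : ℝ) := by
      have h4 := Real.rpow_le_rpow (by positivity) hx1 (show (0:ℝ) ≤ 3/4 by norm_num)
      rw [← Real.rpow_mul (by positivity)] at h4
      norm_num at h4
      rw [div_le_iff₀ hθp, hD] at h4
      linarith
    have h4 := (g2 n s t hst).2.2
    rw [← hq] at h4
    refine le_trans (ENNReal.ofReal_le_ofReal ?_) (h4.trans (dimH_mono ?_))
    · rw [Real.div_rpow hD0.le hθp.le] at hx2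
      have h6 := mul_le_mul_of_nonneg_left hx2 (show 0 ≤ K by linarith)
      have e : 12 * K * D ^ (4/3 : ℝ) / θ ^ (4/3 : ℝ) =
          6 * (K * (2 * (D ^ (4/3 : ℝ) / θ ^ (4/3 : ℝ)))) := by ring
      rw [e]
      linarith
    · rintro u ⟨⟨u1, u2⟩, u3⟩
      exact ⟨⟨u1, u2⟩, thin_of hθ1 hq0' hx3 u3⟩

end Pool.Agent.J4H99.PK
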