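import Pool.Agent.J4H99.PK.LatH
import Pool.Agent.R965.EV.Top
import Pool.Agent.J4H74.PK.Low
import Pool.Agent.J4H74.PK.Open
import Pool.Agent.J4H74.PK.Sm
import Pool.Agent.J4H94.PK.Gwb
import Pool.Agent.J4H94.PK.Li
import Pool.Agent.J4H16.PK.Up

/-!
Project PK: the packing measure of the limits of the exploration path (nothing is assumed).
-/

set_option autoImplicit false
set_option linter.unusedVariables false

namespace Pool.Agent.J4H99.PK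

open H974 Finset H342P H984P H984N Pool.Agent.Y985.ME Pool.Agent.Y995.FS Pool.Agent.Y995.HG
open Pool.Agent.Y41.EV Pool.Agent.R965.EV
open MeasureTheory Filter Topology
open scoped ENNReal NNReal

theorem badgo (R : Rect) (ρ w τ h : ℝ) (N : ℕ) (hh : 0 ≤ h) : IsOpen (BadG R ρ w τ h N) :=
  Pool.Agent.J4H74.PK.t_OPEN (dep R) ρ w τ h N (Pool.Agent.R965.EV.dep_cont R) hh

theorem aeh (θ K2 A0 : ℝ) (hθ : 0 < θ) (hK : 1 ≤ K2) (hA0 : 1 ≤ A0) (R : Rect) (A : ℝ)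
    (hA : 0 < A) (hlat : LatH θ K2 A0 R A) (δ : ℕ → ℝ) (hδ : ∀ i, 0 < δ i)
    (hlim : Tendsto δ atTop (𝓝 0)) (μ : ProbabilityMeasure X)
    (hμ : Tendsto (fun i => R.law (δ i)) atTop (𝓝 μ)) : ∀ᵐ p ∂(μ : Measure X), ∀ k : ℕ,
    ∀ᶠ i : ℕ in atTop, p ∉ BadG R (1 / ((k : ℝ) + 1)) (ww i) (tau θ K2 i) (ell A0 K2 i) (NN i) := by
  obtain ⟨q1, q2, q3, q4, q5, q6⟩ := sc3 θ K2 A0 hθ hK hA0
  refine bc R (K := 1) le_rfl
    (B := fun ρ i => BadG R ρ (ww i) (tau θ K2 i) (ell A0 K2 i) (NN i))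
    (fun ρ i => badgo R _ _ _ _ _ (by
      unfold ell
      have h1 : 0 ≤ (ww i * EE K2 i) ^ (7/4 : ℝ) := by
        refine Real.rpow_nonneg (mul_nonneg (ww_pos i).le ?_) _
        unfold Pool.Agent.Y41.EV.EE
        positivity
      positivity)) (fun ρ hρ => ?_) hδ hlim hμ
  have h1 : ∀ᶠ i : ℕ in atTop, 20 ≤ i ∧ 1 ≤ kf K2 i ∧ A0 * (ww i * EE K2 i) ≤ ρ :=
    (eventually_ge_atTop 20).and ((q3.eventually (eventually_ge_atTop 1)).and (q6 ρ hρ))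
  rw [eventually_atTop] at h1
  obtain ⟨j1, hj1⟩ := h1
  refine ⟨A, j1, hA, fun j hj => ?_⟩
  obtain ⟨g1, g2, g3⟩ := hj1 j hj
  obtain ⟨δ1, hδ1, h4⟩ := hlat (kf K2 j) (NN j) (ww j) ρ g2
    (by have := NN_big g1; omega) (ww_pos j)
    (by
      have h5 : ww j ≤ (1/2) ^ 1 := by
        unfold ww
        refine pow_le_pow_of_le_one (by norm_num) (by norm_num) ?_
        have : 1 ≤ j ^ 2 := Nat.one_le_pow _ _ (by omega)
        omega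
      simpa using h5) g3
  refine ⟨δ1, hδ1, fun δ hδ hδ' => ?_⟩
  exact (h4 δ hδ hδ').trans (pr_bound hA g1)

theorem pk_top : ∃ c C c' C' : ℝ, 0 < c ∧ 0 < C ∧ 0 < c' ∧ 0 < C' ∧ ∀ R : Rect,
    (∀ δ : ℕ → ℝ, (∀ i, 0 < δ i) → Tendsto δ atTop (𝓝 0) →
      ∃ φ : ℕ → ℕ, StrictMono φ ∧ ∃ μ : ProbabilityMeasure X,
        Tendsto (fun i => R.law (δ (φ i))) atTop (𝓝 μ)) ∧
    ∀ δ : ℕ → ℝ, (∀ i, 0 < δ i) → Tendsto δ atTop (𝓝 0) → ∀ μ : ProbabilityMeasure X,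
      Tendsto (fun i => R.law (δ i)) atTop (𝓝 μ) →
      ∀ᵐ p ∂(μ : Measure X), 0 < p.2 ∧
        (∀ S : Set unitInterval, ENNReal.ofReal (c * p.2) * volume S ≤ pack gps (p.1 '' S) ∧
          pack gps (p.1 '' S) ≤ ENNReal.ofReal (C * p.2) * volume S) ∧
        (∀ᵐ t : unitInterval, ∀ᶠ r : ℝ in 𝓝[>] 0,
          c' * psi r ≤ p.2 * (volume {u : unitInterval | dist (p.1 u) (p.1 t) ≤ r}).toReal) ∧
        LI p.1 p.2 C' := by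
  obtain ⟨⟨c, hc, hL⟩, ⟨C, hC, hU⟩, C2, hC2, hA⟩ := inputs
  obtain ⟨θ, K2, A0, hθ, hK2, hA0, hlat⟩ := lath c C hc hC hL hU
  obtain ⟨ce, Ce, ce', Ce', hce, hCe, hce', hCe', hev⟩ := ev_top
  obtain ⟨c0, C1, hc0, hC1, hgw⟩ := Pool.Agent.J4H94.PK.t_GWB θ K2 A0 hθ hK2 hA0
  obtain ⟨CL, hCL, hli⟩ := Pool.Agent.J4H94.PK.t_LI c0 Ce C1 hc0 hCe hC1
  obtain ⟨cd, hcd, hld⟩ := Pool.Agent.J4H74.PK.t_LD Ce' hCe'
  refine ⟨1 / CL, Ce, cd, CL, by positivity, hCe, hcd, hCL, fun R => ?_⟩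
  obtain ⟨h2, h3⟩ := hev R
  refine ⟨h2, fun δ hδ hlim μ hμ => ?_⟩
  obtain ⟨A, hA1, hlatR⟩ := hlat R
  filter_upwards [h3 δ hδ hlim μ hμ, aeh θ K2 A0 hθ hK2 hA0 R A hA1 hlatR δ hδ hlim μ hμ,
    zero R δ hδ hlim μ hμ] with p g1 g2 g3
  obtain ⟨hp, hup, hlo, hlu, -⟩ := g1
  have hLI : LI p.1 p.2 CL := by
    refine hli p.1 p.2 (fun u => dep R (p.1 u)) ((Pool.Agent.R965.EV.dep_cont R).comp p.1.continuous) hp hup g3 ?_
    intro k s t hst hdep η hη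
    refine hgw p.1 p.2 (Set.Icc s t) hp ?_ s t hst le_rfl η hη
    filter_upwards [g2 k] with i hi s' t' hI hlen
    by_contra hcon
    apply hi
    exact ⟨s', t', fun u hu1 hu2 => hdep u (hI ⟨hu1, hu2⟩), hlen, hcon⟩
  refine ⟨hp, fun S => ⟨?_, ?_⟩, hld p.1 p.2 hp hlu, hLI⟩
  · have h5 := Pool.Agent.J4H74.PK.t_LOW p.1 p.2 CL hp hCL hLI S
    have e : 1 / CL * p.2 = p.2 / CL := by ring
    rw [e]
    exact h5
  · exact Pool.Agent.J4H16.PK.t_UP p.1 p.2 Ce ce hp hCe hce hup hlo S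

end Pool.Agent.J4H99.PK
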