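import Pool.Agent.J4H99.PK.CircPr

/-!
Project PK: the trial (adaptation of `Pool.Agent.Y995.FS.{FastDet, FastPr}`).
-/

set_option autoImplicit false

namespace Pool.Agent.J4H99.PK

open H974 Finset H342P H984P H984N TH992.T TH992.L Pool.Agent.Y995.FS

/-- A successful trial. -/
theorem fast_detH {F : Set Edg} {A y0 X Y X' Y' : ℤ} {T T' a m kk : ℕ} (ha : 1 ≤ a)
    (ham : a ≤ m) (hmk : m ≤ a * kk) (hst' : Strand F A y0 X' Y' T') (hT : T ≤ T')
    (hX' : X + 60 * m < X') (hA : A + 60 * m ≤ X)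
    (hL : BaseL A y0 X Y T a m F) (hU : BaseU A y0 X Y T a m F)
    (hR : ∃ v ∈ ctr (X + 32 * m, Y) a, RA v a F)
    (hEO : EO X Y a m F) (hED : ED X Y a m F) :
    ∃ i j, i ≤ j ∧ j ≤ T' ∧
      20 * (m : ℤ) ≤ sd (orb F (st0 A y0) i).1 (orb F (st0 A y0) j).1 ∧
      ((j - i : ℕ) : ℝ) ≤ Cn X Y a m kk F ∧
      ((nst m (orb F (st0 A y0) i).1 F).card : ℝ) ≤ Cn X Y a m kk F := by
  have ha' : (1 : ℤ) ≤ a := by exact_mod_cast ha
  have ham' : (a : ℤ) ≤ m := by exact_mod_cast ham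
  obtain ⟨v, hv, ⟨w, hw, hRw⟩, g, hg, hDg⟩ := hR
  have hvb : (X + 32 * m - a ≤ v.1 ∧ v.1 ≤ X + 32 * m + a) ∧
      (Y - a ≤ v.2 ∧ v.2 ≤ Y + a) := by
    simp only [ctr, mem_product, mem_Icc] at hv
    omega
  have hseen : Seen A y0 X Y T m F v := by
    constructor
    · refine attL ha ham hL (V := PR v a) (p := X + 32 * m - 13 * a) (q := X + 32 * m + 13 * a)
        (by omega) (by omega) (by omega) ?_ ?_ ?_ (w := w) (v := v) (by omega) (by omega) hRw.symm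
      · unfold PR Bl
        exact RE_sub_RE (by omega) (by omega) (by omega) (by omega)
      · intro x y h _ _; simp only [PR, mem_RE_false] at h; omega
      · intro x y h _ _; simp only [PR, mem_RE_true] at h; omega
    · refine attU ha ham hU (V := DR v a) (p := X + 32 * m - 13 * a) (q := X + 32 * m + 13 * a)
        (by omega) (by omega) (by omega) ?_ ?_ ?_ (g := g) (by omega) (by omega) hDg
      · unfold DR
        exact RE_sub_RE (by omega) (by omega) (by omega) (by omega)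
      · intro x y h _ _; simp only [DR, mem_RE_false] at h; omega
      · intro x y h _ _; simp only [DR, mem_RE_true] at h; omega
  obtain ⟨t1, ht1, hae⟩ := seen_exm hst' hT hX' hA (v := v) (by omega) hseen
  obtain ⟨σ, hσ⟩ : ∃ σ, σ = orb F (st0 A y0) t1 := ⟨_, rfl⟩
  rw [← hσ] at hae
  have hσb : (X + 32 * m - a ≤ σ.1.1 ∧ σ.1.1 ≤ X + 32 * m + a + 1) ∧
      (Y - a ≤ σ.1.2 ∧ σ.1.2 ≤ Y + a) ∧ Y - a - 1 ≤ (face σ).2 := by
    rcases ae_at hae with ⟨h1, h2⟩ | ⟨h1, h2⟩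
    · rw [h1, h2]; omega
    · rw [h1, h2]; simp only; omega
  have horb : ∀ s, orb F σ s = orb F (st0 A y0) (s + t1) := by
    intro s
    rw [orb_add, hσ]
  have hex : ∃ s, ¬ (X + 8 * a + 1 ≤ (orb F σ s).1.1 ∧ (orb F σ s).1.1 ≤ X + 56 * m - 1) := by
    refine ⟨T' - t1, ?_⟩
    rw [horb, Nat.sub_add_cancel ht1.le, hst'.tip]
    simp only
    omega
  classical
  obtain ⟨t, ht⟩ : ∃ t, t = Nat.find hex := ⟨_, rfl⟩
  have htT : t + t1 ≤ T' := by
    have : t ≤ T' - t1 := by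
      rw [ht]
      refine Nat.find_min' hex ?_
      rw [horb, Nat.sub_add_cancel ht1.le, hst'.tip]
      simp only
      omega
    omega
  have hcol : ∀ s < t, X + 8 * a + 1 ≤ (orb F σ s).1.1 ∧ (orb F σ s).1.1 ≤ X + 56 * m - 1 := by
    intro s hs
    rw [ht] at hs
    exact not_not.1 (Nat.find_min hex hs)
  have hout : ¬ (X + 8 * a + 1 ≤ (orb F σ t).1.1 ∧ (orb F σ t).1.1 ≤ X + 56 * m - 1) := by
    rw [ht]; exact Nat.find_spec hex
  refine ⟨t1, t + t1, by omega, htT, ?_, ?_, ?_⟩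
  · rw [← horb, ← hσ, det_sd_eq]
    omega
  · refine steps_count ha ham hmk hst' hA htT ?_
    intro t' h1 h2
    obtain ⟨s, rfl⟩ : ∃ s, t' = s + t1 := ⟨t' - t1, by omega⟩
    have hs : s < t := by omega
    rw [← horb]
    refine ⟨hcol s hs, ?_, ?_⟩
    · obtain ⟨yb, yc, hyb, hyc, hR1, -⟩ := hL
      refine conf_low (P := X + 8 * a) (Q := X + 56 * m) (d := Y - 4 * a) (by omega) hyb hR1
        (fun s' hs' => ?_) (by omega)
      have := hcol s' (by omega)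
      omega
    · obtain ⟨yb, yc, hyb, hyc, hR1, -⟩ := hU
      refine conf_up (P := X + 8 * a) (Q := X + 56 * m) (c := Y + 4 * a) (by omega) (by omega) hyc
        hR1 (fun s' hs' => ?_) (by omega)
      have := hcol s' (by omega)
      omega
  · rw [← hσ]
    exact nst_le ha ham hmk hL hU hEO hED ⟨hσb.1, hσb.2.1⟩

/-- The trial: a fast tube with the two half circuits. -/
def Qh (a m kk : ℕ) (N : ℝ) : TEv := fun A y0 X Y T F =>
  Qf a m kk N A y0 X Y T F ∧ (EO X Y a m F ∧ ED X Y a m F)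

theorem RB_Bl' {X Y : ℤ} {m : ℕ} {e : Edg} (h : e ∈ Pool.Agent.Y995.FS.RB X Y m) :
    e ∈ Bl X Y m := RB_Bl h

theorem Qh_loc {a m kk : ℕ} {N : ℝ} (ha : 1 ≤ a) (ham : a ≤ m) : LocQ m (Qh a m kk N) := by
  rintro A y0 X Y T F G h1 h2 ⟨hQ, hEO, hED⟩
  refine ⟨Qf_loc ha ham A y0 X Y T F G h1 h2 hQ, EO_mono ?_ hEO, ED_mono ?_ hED⟩
  · intro e he heF
    exact (h2 e (RB_Bl' (UO_RB ha ham he))).1 heF
  · intro e he heG
    exact (h2 e (RB_Bl' (UD_RB ha ham he))).2 heG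

theorem Qh_det {a m kk K : ℕ} {N : ℝ} (ha : 1 ≤ a) (ham : a ≤ m) (hmk : m ≤ a * kk) :
    DetH (Qh a m kk N) m K (gH m N) := by
  rintro F A y0 Y T j Yj Tj hst hj hjK hstj hTj ⟨⟨⟨hL, hU⟩, hR, hC⟩, hEO, hED⟩
  have hm1 : (1 : ℤ) ≤ m := by exact_mod_cast ha.trans ham
  have hj' : (1 : ℤ) ≤ j := by exact_mod_cast hj
  have hjK' : (j : ℤ) + 1 ≤ K := by exact_mod_cast hjK
  have e1 : 121 * (m : ℤ) ≤ 121 * m * j := by nlinarith
  have e2 : 121 * (m : ℤ) * j + 121 * m ≤ 121 * m * K := by nlinarith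
  obtain ⟨i, j', h1, h2, h3, h4, h5⟩ := fast_detH ha ham hmk hst hTj (by omega) (by omega) hL hU hR
    hEO hED
  exact ⟨i, j', h1, h2, h3, h4.trans hC, h5.trans hC⟩

end Pool.Agent.J4H99.PK
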